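import Mathlib
import Pool.Agent.Helper4.RO.ES

/-!
# Clusters: sequences in which every symbol occurs at most `k` times

In a sequence `v` every symbol of a large set occurs at most `k` times. Then a large subset can be
enumerated such that the sequence can be cut into at most `2 ^ k` pieces, in each of which the
occurrences of the symbols of the subset are clustered, in increasing or in decreasing order.
-/

set_option autoImplicit false

namespace Pool.Agent.Helper91.Clus

/-- In `[a, b)` the occurrences of `e 0, ..., e (t - 1)` are clustered in this order. -/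
def Inc (v : ℕ → ℕ) (e : ℕ → ℕ) (t a b : ℕ) : Prop :=
  ∀ s s', s < s' → s' < t → ∀ i j, a ≤ i → i < b → a ≤ j → j < b → v i = e s → v j = e s' → i < j

/-- In `[a, b)` the occurrences of `e 0, ..., e (t - 1)` are clustered in the reverse order. -/
def Dec (v : ℕ → ℕ) (e : ℕ → ℕ) (t a b : ℕ) : Prop :=
  ∀ s s', s < s' → s' < t → ∀ i j, a ≤ i → i < b → a ≤ j → j < b → v i = e s → v j = e s' → j < i

/-- `[a, b)` is cut into `g` pieces, in each of which the symbols `e 0, ..., e (t - 1)` are
clustered, in this order or in the reverse order. -/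
inductive Pcs (v : ℕ → ℕ) (e : ℕ → ℕ) (t : ℕ) : ℕ → ℕ → ℕ → Prop
  | inc {a b : ℕ} (h : Inc v e t a b) : Pcs v e t 1 a b
  | dec {a b : ℕ} (h : Dec v e t a b) : Pcs v e t 1 a b
  | cat {a c b g g' : ℕ} (hac : a ≤ c) (hcb : c ≤ b) (h : Pcs v e t g a c)
      (h' : Pcs v e t g' c b) : Pcs v e t (g + g') a b

/-- Increasing subsequences. -/
theorem Pcs.comp_inc {v e : ℕ → ℕ} {t t' g a b : ℕ} (h : Pcs v e t g a b) (τ : ℕ → ℕ)
    (hτ : ∀ s < t', τ s < t) (hττ : ∀ s s', s < s' → s' < t' → τ s < τ s') :
    Pcs v (fun s => e (τ s)) t' g a b := by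
  induction h with
  | inc h => exact Pcs.inc fun s s' hs hs' => h _ _ (hττ s s' hs hs') (hτ s' hs')
  | dec h => exact Pcs.dec fun s s' hs hs' => h _ _ (hττ s s' hs hs') (hτ s' hs')
  | cat hac hcb h h' ih ih' => exact Pcs.cat hac hcb ih ih'

/-- Decreasing subsequences. -/
theorem Pcs.comp_dec {v e : ℕ → ℕ} {t t' g a b : ℕ} (h : Pcs v e t g a b) (τ : ℕ → ℕ)
    (hτ : ∀ s < t', τ s < t) (hττ : ∀ s s', s < s' → s' < t' → τ s' < τ s) :
    Pcs v (fun s => e (τ s)) t' g a b := by
  induction h with
  | inc h =>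
    exact Pcs.dec fun s s' hs hs' i j hi hi' hj hj' h1 h2 =>
      h _ _ (hττ s s' hs hs') (hτ s (hs.trans hs')) j i hj hj' hi hi' h2 h1
  | dec h =>
    exact Pcs.inc fun s s' hs hs' i j hi hi' hj hj' h1 h2 =>
      h _ _ (hττ s s' hs hs') (hτ s (hs.trans hs')) j i hj hj' hi hi' h2 h1
  | cat hac hcb h h' ih ih' => exact Pcs.cat hac hcb ih ih'

/-- Either many symbols with disjoint ranges or many symbols occurring on both sides of a cut. -/
theorem dichotomy (v : ℕ → ℕ) (b T : ℕ) : ∀ (t a : ℕ) (S : Finset ℕ), a ≤ b →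
    t * (T + 1) ≤ S.card →
    (∃ e : ℕ → ℕ, (∀ s < t, e s ∈ S) ∧ (∀ s < t, ∀ s' < t, e s = e s' → s = s') ∧
      Inc v e t a b) ∨
    ∃ c, a ≤ c ∧ c ≤ b ∧ ∃ S' ⊆ S, T ≤ S'.card ∧
      ∀ y ∈ S', (∃ i, a ≤ i ∧ i < c ∧ v i = y) ∧ ∃ j, c ≤ j ∧ j < b ∧ v j = y := by
  classical
  intro t
  induction t with
  | zero =>
    intro a S _ _
    left
    exact ⟨fun _ => 0, fun s hs => absurd hs (Nat.not_lt_zero s),
      fun s hs => absurd hs (Nat.not_lt_zero s), fun s s' _ hs' => absurd hs' (Nat.not_lt_zero s')⟩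
  | succ t ih =>
    intro a S hab hS
    have hS' : (t + 1) * (T + 1) = t * (T + 1) + T + 1 := by ring
    have hne : S.Nonempty := by
      rw [← Finset.card_pos]
      omega
    -- the end of the last occurrence
    let E : ℕ → ℕ := fun y => max a (((Finset.Ico a b).filter (v · = y)).sup (· + 1))
    have hE1 : ∀ y i, a ≤ i → i < b → v i = y → i + 1 ≤ E y := by
      intro y i hi hi' hv
      refine le_trans ?_ (le_max_right _ _)
      exact Finset.le_sup (f := (· + 1)) (Finset.mem_filter.2 ⟨Finset.mem_Ico.2 ⟨hi, hi'⟩, hv⟩)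
    have hE2 : ∀ y, a < E y → ∃ j, a ≤ j ∧ j < b ∧ v j = y ∧ E y = j + 1 := by
      intro y hy
      have h1 : E y = ((Finset.Ico a b).filter (v · = y)).sup (· + 1) := by
        rcases le_total a (((Finset.Ico a b).filter (v · = y)).sup (· + 1)) with h | h
        · exact max_eq_right h
        · have : E y = a := max_eq_left h
          omega
      have hne' : ((Finset.Ico a b).filter (v · = y)).Nonempty := by
        rw [Finset.nonempty_iff_ne_empty]
        intro h0
        rw [h0, Finset.sup_empty] at h1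
        have : E y = 0 := h1
        omega
      obtain ⟨j, hj, hj'⟩ := Finset.exists_mem_eq_sup _ hne' (· + 1)
      rw [Finset.mem_filter, Finset.mem_Ico] at hj
      exact ⟨j, hj.1.1, hj.1.2, hj.2, h1.trans hj'⟩
    obtain ⟨x, hx, hmin⟩ := Finset.exists_min_image S E hne
    have hac : a ≤ E x := le_max_left _ _
    have hcb : E x ≤ b := by
      rcases Nat.eq_or_lt_of_le hac with h | h
      · omega
      · obtain ⟨j, _, hj, _, hj'⟩ := hE2 x h
        omega
    set S' : Finset ℕ := S.filter fun y => y ≠ x ∧ ∃ i, a ≤ i ∧ i < E x ∧ v i = y with hS'def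
    by_cases hT : T ≤ S'.card
    · right
      refine ⟨E x, hac, hcb, S', Finset.filter_subset _ _, hT, ?_⟩
      intro y hy
      rw [hS'def, Finset.mem_filter] at hy
      obtain ⟨hyS, hyx, i, hi1, hi2, hi3⟩ := hy
      refine ⟨⟨i, hi1, hi2, hi3⟩, ?_⟩
      have h1 := hE1 y i hi1 (by omega) hi3
      obtain ⟨j, hj1, hj2, hj3, hj4⟩ := hE2 y (by omega)
      refine ⟨j, ?_, hj2, hj3⟩
      by_contra hcon
      push Not at hcon
      have h2 := hmin y hyS
      obtain ⟨j', hj1', hj2', hj3', hj4'⟩ := hE2 x (by omega)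
      have : j = j' := by omega
      subst this
      exact hyx (hj3.symm.trans hj3')
    · have hcard : t * (T + 1) ≤ ((S \ S').erase x).card := by
        have hxS' : x ∉ S' := fun h => by
          rw [hS'def, Finset.mem_filter] at h
          exact h.2.1 rfl
        have hss : S' ⊆ S := Finset.filter_subset _ _
        rw [Finset.card_erase_of_mem (Finset.mem_sdiff.2 ⟨hx, hxS'⟩),
          Finset.card_sdiff_of_subset hss]
        omega
      rcases ih (E x) ((S \ S').erase x) hcb hcard with ⟨e, h1, h2, h3⟩ | ⟨c, h1, h2, S'', h3, h4, h5⟩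
      · left
        have hout : ∀ s < t, ∀ j, a ≤ j → j < b → v j = e s → E x ≤ j := by
          intro s hs j hj hj' hv
          by_contra hcon
          push Not at hcon
          have h6 := h1 s hs
          rw [Finset.mem_erase, Finset.mem_sdiff] at h6
          apply h6.2.2
          rw [hS'def, Finset.mem_filter]
          exact ⟨h6.2.1, h6.1, j, hj, hcon, hv⟩
        refine ⟨fun s => if s = 0 then x else e (s - 1), ?_, ?_, ?_⟩
        · intro s hs
          dsimp only
          split_ifs with h0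
          · exact hx
          · exact (Finset.mem_sdiff.1 (Finset.mem_of_mem_erase (h1 (s - 1) (by omega)))).1
        · intro s hs s' hs'
          dsimp only
          split_ifs with h0 h0' h0'
          · intro _
            omega
          · intro h
            exact absurd h.symm (Finset.mem_erase.1 (h1 (s' - 1) (by omega))).1
          · intro h
            exact absurd h (Finset.mem_erase.1 (h1 (s - 1) (by omega))).1
          · intro h
            have := h2 (s - 1) (by omega) (s' - 1) (by omega) h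
            omega
        · intro s s' hs hs' i j hi hi' hj hj'
          dsimp only
          split_ifs with h0 h0' h0'
          · omega
          · intro hv hv'
            have h6 := hE1 x i hi hi' hv
            have h7 := hout (s' - 1) (by omega) j hj hj' hv'
            omega
          · omega
          · intro hv hv'
            have h6 := hout (s - 1) (by omega) i hi hi' hv
            have h7 := hout (s' - 1) (by omega) j hj hj' hv'
            exact h3 (s - 1) (s' - 1) (by omega) (by omega) i j h6 hi' h7 hj' hv hv'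
      · right
        refine ⟨c, hac.trans h1, h2, S'', ?_, h4, ?_⟩
        · exact h3.trans ((Finset.erase_subset _ _).trans Finset.sdiff_subset)
        · intro y hy
          obtain ⟨⟨i, hi1, hi2, hi3⟩, h7⟩ := h5 y hy
          exact ⟨⟨i, hac.trans hi1, hi2, hi3⟩, h7⟩

/-- The size needed. -/
def TT : ℕ → ℕ → ℕ
  | 0, t => t
  | k + 1, t => t * (TT k (TT k (t * t + 1)) + 1)

theorem exists_enum' (S : Finset ℕ) : ∃ e : ℕ → ℕ, (∀ s < S.card, e s ∈ S) ∧
    (∀ s < S.card, ∀ s' < S.card, e s = e s' → s = s') ∧ ∀ x ∈ S, ∃ s < S.card, e s = x := by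
  classical
  refine ⟨fun k => if h : k < S.card then S.orderEmbOfFin rfl ⟨k, h⟩ else 0, ?_, ?_, ?_⟩
  · intro k hk
    dsimp only
    rw [dif_pos hk]
    exact Finset.orderEmbOfFin_mem _ _ _
  · intro k hk k' hk' h
    dsimp only at h
    rw [dif_pos hk, dif_pos hk'] at h
    exact Fin.mk.inj ((S.orderEmbOfFin rfl).injective h)
  · intro x hx
    have h1 : x ∈ Set.range (S.orderEmbOfFin rfl) := by
      rw [Finset.range_orderEmbOfFin]
      exact hx
    obtain ⟨k, hk⟩ := h1
    refine ⟨k, k.2, ?_⟩
    dsimp only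
    rw [dif_pos k.2]
    exact hk

/-- **Cluster lemma.** -/
theorem exists_pcs (v : ℕ → ℕ) : ∀ (k t a b : ℕ) (S : Finset ℕ), a ≤ b →
    (∀ x ∈ S, ((Finset.Ico a b).filter (v · = x)).card ≤ k) → TT k t ≤ S.card →
    ∃ e : ℕ → ℕ, (∀ s < t, e s ∈ S) ∧ (∀ s < t, ∀ s' < t, e s = e s' → s = s') ∧
      ∃ g ≤ 2 ^ k, Pcs v e t g a b := by
  classical
  intro k
  induction k with
  | zero =>
    intro t a b S hab hk hS
    obtain ⟨e, h1, h2, -⟩ := exists_enum' S
    rw [TT] at hS
    refine ⟨e, fun s hs => h1 s (hs.trans_le hS), fun s hs s' hs' =>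
      h2 s (hs.trans_le hS) s' (hs'.trans_le hS), 1, le_rfl, Pcs.inc ?_⟩
    intro s s' hs hs' i j hi hi' hj hj' hv hv'
    exfalso
    have h3 := hk (e s) (h1 s (by omega))
    rw [Nat.le_zero, Finset.card_eq_zero, Finset.filter_eq_empty_iff] at h3
    exact h3 (Finset.mem_Ico.2 ⟨hi, hi'⟩) hv
  | succ k ih =>
    intro t a b S hab hk hS
    rcases dichotomy v b (TT k (TT k (t * t + 1))) t a S hab hS with
      ⟨e, h1, h2, h3⟩ | ⟨c, hac, hcb, S', hS', hcard, hboth⟩
    · exact ⟨e, h1, h2, 1, Nat.one_le_two_pow, Pcs.inc h3⟩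
    have hL : ∀ x ∈ S', ((Finset.Ico a c).filter (v · = x)).card ≤ k := by
      intro x hx
      obtain ⟨-, j, hj1, hj2, hj3⟩ := hboth x hx
      have h1 := hk x (hS' hx)
      have h2 : ((Finset.Ico a c).filter (v · = x)) ⊂ ((Finset.Ico a b).filter (v · = x)) := by
        rw [Finset.ssubset_iff_of_subset (Finset.filter_subset_filter _
          (Finset.Ico_subset_Ico_right hcb))]
        refine ⟨j, Finset.mem_filter.2 ⟨Finset.mem_Ico.2 ⟨hac.trans hj1, hj2⟩, hj3⟩, ?_⟩
        intro h
        have := (Finset.mem_Ico.1 (Finset.mem_filter.1 h).1).2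
        omega
      have := Finset.card_lt_card h2
      omega
    obtain ⟨e₁, a1, a2, g₁, hg₁, p₁⟩ := ih (TT k (t * t + 1)) a c S' hac hL hcard
    set S₁ : Finset ℕ := (Finset.range (TT k (t * t + 1))).image e₁ with hS₁
    have hS₁' : S₁ ⊆ S' := by
      intro x hx
      obtain ⟨s, hs, rfl⟩ := Finset.mem_image.1 hx
      exact a1 s (Finset.mem_range.1 hs)
    have hS₁c : S₁.card = TT k (t * t + 1) := by
      rw [hS₁, Finset.card_image_of_injOn, Finset.card_range]
      intro s hs s' hs' h
      exact a2 s (Finset.mem_range.1 (Finset.mem_coe.1 hs)) s'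
        (Finset.mem_range.1 (Finset.mem_coe.1 hs')) h
    have hR : ∀ x ∈ S₁, ((Finset.Ico c b).filter (v · = x)).card ≤ k := by
      intro x hx
      obtain ⟨⟨j, hj1, hj2, hj3⟩, -⟩ := hboth x (hS₁' hx)
      have h1 := hk x (hS' (hS₁' hx))
      have h2 : ((Finset.Ico c b).filter (v · = x)) ⊂ ((Finset.Ico a b).filter (v · = x)) := by
        rw [Finset.ssubset_iff_of_subset (Finset.filter_subset_filter _
          (Finset.Ico_subset_Ico_left hac))]
        refine ⟨j, Finset.mem_filter.2 ⟨Finset.mem_Ico.2 ⟨hj1, by omega⟩, hj3⟩, ?_⟩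
        intro h
        have := (Finset.mem_Ico.1 (Finset.mem_filter.1 h).1).1
        omega
      have := Finset.card_lt_card h2
      omega
    obtain ⟨e₂, b1, b2, g₂, hg₂, p₂⟩ := ih (t * t + 1) c b S₁ hcb hR hS₁c.ge
    have hσ : ∀ s, ∃ σ, s < t * t + 1 → σ < TT k (t * t + 1) ∧ e₁ σ = e₂ s := by
      intro s
      by_cases hs : s < t * t + 1
      · obtain ⟨σ, h1, h2⟩ := Finset.mem_image.1 (b1 s hs)
        exact ⟨σ, fun _ => ⟨Finset.mem_range.1 h1, h2⟩⟩
      · exact ⟨0, fun h => absurd h hs⟩
    choose σ hσ using hσ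
    obtain ⟨τ, c1, c2, c3⟩ := Pool.Agent.Helper4.RO.erdos_szekeres t (t * t + 1)
      (Nat.lt_succ_self _) σ (by
        intro i hi j hj hij
        apply b2 i hi j hj
        rw [← (hσ i hi).2, ← (hσ j hj).2, hij])
    have q₂ : Pcs v (fun s => e₂ (τ s)) t g₂ c b :=
      p₂.comp_inc τ (fun s hs => c1 s hs.le) fun s s' hs hs' => c2 s s' hs hs'.le
    have heq : ∀ s < t, e₂ (τ s) = e₁ (σ (τ s)) := fun s hs => ((hσ _ (c1 s hs.le)).2).symm
    have q₁ : Pcs v (fun s => e₁ (σ (τ s))) t g₁ a c := by
      rcases c3 with c3 | c3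
      · exact p₁.comp_inc (fun s => σ (τ s)) (fun s hs => (hσ _ (c1 s hs.le)).1)
          fun s s' hs hs' => c3 s s' hs hs'.le
      · exact p₁.comp_dec (fun s => σ (τ s)) (fun s hs => (hσ _ (c1 s hs.le)).1)
          fun s s' hs hs' => c3 s s' hs hs'.le
    have congr : ∀ {e e' : ℕ → ℕ} {g a b : ℕ}, (∀ s < t, e s = e' s) → Pcs v e t g a b →
        Pcs v e' t g a b := by
      intro e e' g a b he h
      induction h with
      | inc h =>
        apply Pcs.inc
        intro s s' hs hs'
        rw [← he s (hs.trans hs'), ← he s' hs']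
        exact h s s' hs hs'
      | dec h =>
        apply Pcs.dec
        intro s s' hs hs'
        rw [← he s (hs.trans hs'), ← he s' hs']
        exact h s s' hs hs'
      | cat hac hcb h h' ih ih' => exact Pcs.cat hac hcb ih ih'
    refine ⟨fun s => e₂ (τ s), ?_, ?_, g₁ + g₂, ?_, ?_⟩
    · intro s hs
      exact hS' (hS₁' (b1 _ (c1 s hs.le)))
    · intro s hs s' hs' h
      have h1 := b2 _ (c1 s hs.le) _ (c1 s' hs'.le) h
      by_contra hne
      rcases Nat.lt_or_gt_of_ne hne with h2 | h2
      · have := c2 s s' h2 hs'.le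
        omega
      · have := c2 s' s h2 hs.le
        omega
    · rw [pow_succ]
      omega
    · exact Pcs.cat hac hcb (congr (fun s hs => (heq s hs).symm) q₁) q₂

end Pool.Agent.Helper91.Clus
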