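import Mathlib

/-!
Ring-theoretic charts of the Hilbert scheme of `d` points of `Spec R` over `k`.
For a tuple `φ : Fin d → R`, the chart parametrises the ideals `J` of `A ⊗ R` such that
`φ` is an `A`-basis of `(A ⊗ R) / J`.
-/

namespace Pool.Agent.Helper91

open TensorProduct

universe u v w

variable {k : Type u} {R : Type v} [CommRing k] [CommRing R] [Algebra k R] {d : ℕ}

/-- Coordinates with respect to `φ` of the quotients `(A ⊗ R) / J` having `φ` as a basis. -/
@[ext]
structure ChartPt (φ : Fin d → R) (A : Type w) [CommRing A] [Algebra k A] where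
  /-- the coordinate map -/
  coord : R →ₗ[k] (Fin d → A)
  coord_basis : ∀ j, coord (φ j) = Pi.single j 1
  coord_mul : ∀ r r' : R, coord (r * r') = ∑ j, coord r j • coord (r' * φ j)

/-- `φ` is a basis of `(A ⊗ R) / J` over `A`. -/
def IsBasisMod (φ : Fin d → R) {A : Type w} [CommRing A] [Algebra k A] (J : Ideal (A ⊗[k] R)) :
    Prop :=
  Function.Bijective fun a : Fin d → A => Ideal.Quotient.mk J (∑ j, a j ⊗ₜ[k] φ j)

namespace ChartPt

variable {φ : Fin d → R} {A : Type w} [CommRing A] [Algebra k A]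

/-- The ideal defined by a point of a chart. -/
def ideal (π : ChartPt (k := k) φ A) : Ideal (A ⊗[k] R) :=
  Ideal.span (Set.range fun r : R => (1 : A) ⊗ₜ[k] r - ∑ j, π.coord r j ⊗ₜ[k] φ j)

/-- The total coordinate map. -/
noncomputable def total (π : ChartPt (k := k) φ A) : A ⊗[k] R →ₗ[A] (Fin d → A) :=
  π.coord.liftBaseChange A

theorem total_tmul (π : ChartPt (k := k) φ A) (a : A) (r : R) :
    π.total (a ⊗ₜ r) = a • π.coord r := by
  simp [total]

theorem total_sum (π : ChartPt (k := k) φ A) (a : Fin d → A) :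
    π.total (∑ j, a j ⊗ₜ[k] φ j) = a := by
  rw [map_sum]
  ext i
  simp [total_tmul, π.coord_basis, Pi.single_apply]

theorem total_mul (π : ChartPt (k := k) φ A) (r : R) (y : A ⊗[k] R) :
    π.total (((1 : A) ⊗ₜ[k] r) * y) = ∑ j, π.total y j • π.coord (r * φ j) := by
  induction y using TensorProduct.induction_on with
  | zero => simp
  | tmul a r' =>
    rw [Algebra.TensorProduct.tmul_mul_tmul, one_mul, total_tmul, total_tmul, mul_comm r r',
      π.coord_mul, Finset.smul_sum]
    refine Finset.sum_congr rfl fun j _ => ?_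
    simp [smul_smul]
  | add y z hy hz =>
    rw [mul_add, map_add, hy, hz, map_add, ← Finset.sum_add_distrib]
    refine Finset.sum_congr rfl fun j _ => ?_
    simp [add_smul]

/-- Every element is congruent to its coordinate expression. -/
theorem sub_mem (π : ChartPt (k := k) φ A) (y : A ⊗[k] R) :
    y - ∑ j, π.total y j ⊗ₜ[k] φ j ∈ π.ideal := by
  induction y using TensorProduct.induction_on with
  | zero => simp
  | tmul a r =>
    have h := π.ideal.mul_mem_left (a ⊗ₜ[k] (1 : R))
      (Ideal.subset_span (Set.mem_range_self r) :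
        (1 : A) ⊗ₜ[k] r - ∑ j, π.coord r j ⊗ₜ[k] φ j ∈ π.ideal)
    have h2 : (a ⊗ₜ[k] (1 : R)) * ((1 : A) ⊗ₜ[k] r - ∑ j, π.coord r j ⊗ₜ[k] φ j) =
        a ⊗ₜ[k] r - ∑ j, π.total (a ⊗ₜ r) j ⊗ₜ[k] φ j := by
      rw [mul_sub, Finset.mul_sum]
      simp [Algebra.TensorProduct.tmul_mul_tmul, total_tmul]
    rwa [h2] at h
  | add y z hy hz =>
    have := π.ideal.add_mem hy hz
    convert this using 1
    rw [map_add]
    simp only [Pi.add_apply, TensorProduct.add_tmul, Finset.sum_add_distrib]
    ring

theorem total_eq_zero_of_mem (π : ChartPt (k := k) φ A) {y : A ⊗[k] R} (hy : y ∈ π.ideal) :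
    π.total y = 0 := by
  refine Submodule.span_induction (p := fun y _ => π.total y = 0) ?_ ?_ ?_ ?_ hy
  · rintro _ ⟨r, rfl⟩
    rw [map_sub, total_tmul, total_sum, one_smul, sub_self]
  · exact map_zero _
  · intro x y _ _ hx hy
    rw [map_add, hx, hy, add_zero]
  · intro z y _ hy
    induction z using TensorProduct.induction_on with
    | zero => simp
    | tmul a r =>
      have : (a ⊗ₜ[k] r) • y = a • (((1 : A) ⊗ₜ[k] r) * y) := by
        rw [smul_eq_mul, ← smul_mul_assoc, TensorProduct.smul_tmul', smul_eq_mul, mul_one]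
      rw [this, map_smul, total_mul, hy]
      simp
    | add z w hz hw =>
      rw [add_smul, map_add, hz, hw, add_zero]

theorem mem_ideal_iff (π : ChartPt (k := k) φ A) {y : A ⊗[k] R} :
    y ∈ π.ideal ↔ π.total y = 0 := by
  refine ⟨π.total_eq_zero_of_mem, fun h => ?_⟩
  have := π.sub_mem y
  rw [h] at this
  simpa using this

theorem isBasisMod (π : ChartPt (k := k) φ A) : IsBasisMod φ π.ideal := by
  refine ⟨fun a b hab => ?_, fun y => ?_⟩
  · have h : (∑ j, a j ⊗ₜ[k] φ j) - ∑ j, b j ⊗ₜ[k] φ j ∈ π.ideal := by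
      rw [← Ideal.Quotient.eq]
      exact hab
    have h2 := π.total_eq_zero_of_mem h
    rw [map_sub, total_sum, total_sum] at h2
    exact sub_eq_zero.mp h2
  · obtain ⟨y, rfl⟩ := Ideal.Quotient.mk_surjective y
    refine ⟨π.total y, ?_⟩
    exact (Ideal.Quotient.eq.mpr (π.sub_mem y)).symm

theorem ideal_injective : Function.Injective (ideal (k := k) (φ := φ) (A := A)) := by
  intro π π' h
  ext r
  have h1 : (1 : A) ⊗ₜ[k] r - ∑ j, π.coord r j ⊗ₜ[k] φ j ∈ π'.ideal := by
    rw [← h]
    exact Ideal.subset_span (Set.mem_range_self r)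
  have h2 := π'.total_eq_zero_of_mem h1
  rw [map_sub, total_tmul, total_sum, one_smul, sub_eq_zero] at h2
  rw [h2]

end ChartPt

/-- An ideal with `φ` as a basis of the quotient comes from a point of the chart. -/
theorem exists_chartPt {φ : Fin d → R} {A : Type w} [CommRing A] [Algebra k A]
    (J : Ideal (A ⊗[k] R)) (hJ : IsBasisMod φ J) : ∃ π : ChartPt (k := k) φ A, π.ideal = J := by
  let E : (Fin d → A) →ₗ[A] ((A ⊗[k] R) ⧸ J) :=
    { toFun := fun a => Ideal.Quotient.mk J (∑ j, a j ⊗ₜ[k] φ j)
      map_add' := fun a b => by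
        rw [← map_add, ← Finset.sum_add_distrib]
        simp [TensorProduct.add_tmul]
      map_smul' := fun c a => by
        have : (∑ j, (c • a) j ⊗ₜ[k] φ j) = c • ∑ j, a j ⊗ₜ[k] φ j := by
          rw [Finset.smul_sum]
          rfl
        rw [this]
        rfl }
  let e : (Fin d → A) ≃ₗ[A] ((A ⊗[k] R) ⧸ J) := LinearEquiv.ofBijective E hJ
  have he : ∀ a, e a = Ideal.Quotient.mk J (∑ j, a j ⊗ₜ[k] φ j) := fun a => rfl
  let c : R →ₗ[k] (Fin d → A) :=
    { toFun := fun r => e.symm (Ideal.Quotient.mk J ((1 : A) ⊗ₜ[k] r))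
      map_add' := fun r s => by
        rw [TensorProduct.tmul_add, map_add, map_add]
      map_smul' := fun t r => by
        have : Ideal.Quotient.mk J ((1 : A) ⊗ₜ[k] (t • r)) =
            (algebraMap k A t) • Ideal.Quotient.mk J ((1 : A) ⊗ₜ[k] r) := by
          have h : (1 : A) ⊗ₜ[k] (t • r) = (algebraMap k A t) • ((1 : A) ⊗ₜ[k] r) := by
            rw [TensorProduct.tmul_smul, TensorProduct.smul_tmul', TensorProduct.smul_tmul',
              smul_eq_mul, mul_one, Algebra.smul_def, mul_one]
          rw [h]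
          rfl
        rw [this, map_smul]
        simp [algebraMap_smul] }
  have hc : ∀ r, e (c r) = Ideal.Quotient.mk J ((1 : A) ⊗ₜ[k] r) := fun r =>
    e.apply_symm_apply _
  let π : ChartPt (k := k) φ A :=
    { coord := c
      coord_basis := fun j => by
        apply e.injective
        rw [hc, he]
        congr 1
        rw [Finset.sum_eq_single j]
        · simp
        · intro b _ hb
          simp [Pi.single_eq_of_ne hb]
        · simp
      coord_mul := fun r s => by
        apply e.injective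
        rw [hc, map_sum]
        have h1 : ∀ j, e (c r j • c (s * φ j)) =
            Ideal.Quotient.mk J ((1 : A) ⊗ₜ[k] s) *
              Ideal.Quotient.mk J (c r j ⊗ₜ[k] φ j) := by
          intro j
          rw [map_smul, hc, ← map_mul, Algebra.TensorProduct.tmul_mul_tmul, one_mul]
          have h : c r j ⊗ₜ[k] (s * φ j) = c r j • ((1 : A) ⊗ₜ[k] (s * φ j)) := by
            rw [TensorProduct.smul_tmul', smul_eq_mul, mul_one]
          rw [h]
          rfl
        rw [Finset.sum_congr rfl fun j _ => h1 j, ← Finset.mul_sum, ← map_sum, ← he, hc,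
          ← map_mul, Algebra.TensorProduct.tmul_mul_tmul, one_mul, mul_comm r s] }
  refine ⟨π, le_antisymm ?_ ?_⟩
  · rw [ChartPt.ideal, Ideal.span_le]
    rintro _ ⟨r, rfl⟩
    rw [SetLike.mem_coe, ← Ideal.Quotient.eq, ← he]
    exact (hc r).symm
  · intro y hy
    rw [π.mem_ideal_iff]
    apply e.injective
    rw [he, map_zero]
    have h1 : y - ∑ j, π.total y j ⊗ₜ[k] φ j ∈ J := by
      have h2 : π.ideal ≤ J := by
        rw [ChartPt.ideal, Ideal.span_le]
        rintro _ ⟨r, rfl⟩
        rw [SetLike.mem_coe, ← Ideal.Quotient.eq, ← he]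
        exact (hc r).symm
      exact h2 (π.sub_mem y)
    rw [Ideal.Quotient.eq_zero_iff_mem]
    have := J.sub_mem hy h1
    simpa using this

end Pool.Agent.Helper91
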