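import Mathlib
import Pool.Agent.Helper91.Chart

/-!
The ring representing a chart of the Hilbert scheme of `d` points, and its basic properties.
-/

namespace Pool.Agent.Helper91

open TensorProduct

universe u v w

variable {k : Type u} {R : Type v} [CommRing k] [CommRing R] [Algebra k R] {d : ℕ}

namespace ChartPt

variable {φ : Fin d → R} {A : Type w} [CommRing A] [Algebra k A]

/-- Push forward of a point of a chart along an algebra homomorphism. -/
noncomputable def map {B : Type*} [CommRing B] [Algebra k B] (ψ : A →ₐ[k] B)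
    (π : ChartPt (k := k) φ A) : ChartPt (k := k) φ B where
  coord := ψ.toLinearMap.compLeft (Fin d) ∘ₗ π.coord
  coord_basis j := by
    ext i
    simp [π.coord_basis, Pi.single_apply, apply_ite ψ]
  coord_mul r s := by
    ext i
    rw [LinearMap.comp_apply, π.coord_mul]
    simp only [LinearMap.comp_apply, LinearMap.compLeft_apply, Function.comp_apply,
      Finset.sum_apply, Pi.smul_apply, smul_eq_mul, AlgHom.toLinearMap_apply, map_sum, map_mul]

@[simp]
theorem map_coord {B : Type*} [CommRing B] [Algebra k B] (ψ : A →ₐ[k] B)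
    (π : ChartPt (k := k) φ A) (r : R) (j : Fin d) :
    (π.map ψ).coord r j = ψ (π.coord r j) := rfl

theorem map_ideal {B : Type*} [CommRing B] [Algebra k B] (ψ : A →ₐ[k] B)
    (π : ChartPt (k := k) φ A) :
    (π.map ψ).ideal =
      π.ideal.map (Algebra.TensorProduct.map ψ (AlgHom.id k R) : A ⊗[k] R →ₐ[k] B ⊗[k] R) := by
  rw [ideal, ideal, Ideal.map_span, ← Set.range_comp]
  congr 2
  ext r
  simp

end ChartPt

variable (k) in
/-- The relations of the chart ring. -/
inductive ChartRel (φ : Fin d → R) : MvPolynomial (R × Fin d) k → Prop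
  | add (r s : R) (j : Fin d) : ChartRel φ
      (MvPolynomial.X (r + s, j) - (MvPolynomial.X (r, j) + MvPolynomial.X (s, j)))
  | smul (c : k) (r : R) (j : Fin d) : ChartRel φ
      (MvPolynomial.X (c • r, j) - MvPolynomial.C c * MvPolynomial.X (r, j))
  | basis (i j : Fin d) : ChartRel φ
      (MvPolynomial.X (φ i, j) - (Pi.single i 1 : Fin d → MvPolynomial (R × Fin d) k) j)
  | mul (r s : R) (j : Fin d) : ChartRel φ
      (MvPolynomial.X (r * s, j) -
        ∑ i, MvPolynomial.X (r, i) * MvPolynomial.X (s * φ i, j))

variable (k) in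
/-- The chart ring. -/
abbrev ChartRing (φ : Fin d → R) : Type (max u v) :=
  MvPolynomial (R × Fin d) k ⧸ Ideal.span {p | ChartRel k φ p}

namespace ChartRing

variable (φ : Fin d → R)

variable (k) in
/-- The coordinate functions. -/
noncomputable def x (r : R) (j : Fin d) : ChartRing k φ := Ideal.Quotient.mk _ (MvPolynomial.X (r, j))

variable (k) in
/-- The universal point. -/
noncomputable def univ : ChartPt (k := k) φ (ChartRing k φ) where
  coord :=
    { toFun := fun r j => x k φ r j
      map_add' := fun r s => by
        ext j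
        simp only [x, Pi.add_apply]
        rw [← map_add, Ideal.Quotient.eq]
        exact Ideal.subset_span (ChartRel.add r s j)
      map_smul' := fun c r => by
        ext j
        simp only [x, Pi.smul_apply, RingHom.id_apply]
        have : c • (Ideal.Quotient.mk (Ideal.span {p | ChartRel k φ p}))
            (MvPolynomial.X (r, j)) = (Ideal.Quotient.mk (Ideal.span {p | ChartRel k φ p}))
            (MvPolynomial.C c * MvPolynomial.X (r, j)) := by
          rw [← MvPolynomial.smul_eq_C_mul]
          rfl
        rw [this, Ideal.Quotient.eq]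
        exact Ideal.subset_span (ChartRel.smul c r j) }
  coord_basis i := by
    ext j
    have h : (Pi.single i 1 : Fin d → ChartRing k φ) j = Ideal.Quotient.mk _
        ((Pi.single i 1 : Fin d → MvPolynomial (R × Fin d) k) j) := by
      by_cases hij : j = i
      · subst hij; simp
      · simp [Pi.single_eq_of_ne hij]
    rw [h]
    simp only [x, LinearMap.coe_mk, AddHom.coe_mk]
    rw [Ideal.Quotient.eq]
    exact Ideal.subset_span (ChartRel.basis i j)
  coord_mul r s := by
    ext j
    simp only [x, LinearMap.coe_mk, AddHom.coe_mk, Finset.sum_apply, Pi.smul_apply, smul_eq_mul]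
    simp only [← map_mul, ← map_sum]
    rw [Ideal.Quotient.eq]
    exact Ideal.subset_span (ChartRel.mul r s j)

@[simp]
theorem univ_coord (r : R) (j : Fin d) : (univ k φ).coord r j = x k φ r j := rfl

variable {φ}

/-- The homomorphism classifying a point of the chart. -/
noncomputable def lift {A : Type w} [CommRing A] [Algebra k A] (π : ChartPt (k := k) φ A) :
    ChartRing k φ →ₐ[k] A :=
  Ideal.Quotient.liftₐ _ (MvPolynomial.aeval fun p : R × Fin d => π.coord p.1 p.2) <| by
    intro a ha
    rw [← RingHom.mem_ker]
    refine (Ideal.span_le.mpr ?_ : Ideal.span {p | ChartRel k φ p} ≤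
      RingHom.ker (MvPolynomial.aeval fun p : R × Fin d => π.coord p.1 p.2 :
        MvPolynomial (R × Fin d) k →ₐ[k] A)) ha
    intro p hp
    rw [SetLike.mem_coe, RingHom.mem_ker]
    cases hp with
    | add r s j => simp
    | smul c r j =>
      rw [map_sub, map_mul, MvPolynomial.aeval_X, MvPolynomial.aeval_X, MvPolynomial.aeval_C,
        map_smul, Pi.smul_apply, Algebra.smul_def, sub_self]
    | basis i j =>
      by_cases hij : j = i
      · subst hij; simp [π.coord_basis]
      · simp [Pi.single_eq_of_ne hij, π.coord_basis]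
    | mul r s j =>
      rw [map_sub, MvPolynomial.aeval_X, π.coord_mul]
      simp only [map_sum, map_mul, MvPolynomial.aeval_X, Finset.sum_apply,
        Pi.smul_apply, smul_eq_mul, sub_self]

@[simp]
theorem lift_x {A : Type w} [CommRing A] [Algebra k A] (π : ChartPt (k := k) φ A) (r : R)
    (j : Fin d) : lift π (x k φ r j) = π.coord r j := by
  simp [lift, x, Ideal.Quotient.liftₐ_apply]

theorem hom_ext {A : Type w} [CommRing A] [Algebra k A] {f g : ChartRing k φ →ₐ[k] A}
    (h : ∀ r j, f (x k φ r j) = g (x k φ r j)) : f = g := by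
  refine Ideal.Quotient.algHom_ext _ ?_
  refine MvPolynomial.algHom_ext fun p => ?_
  exact h p.1 p.2

theorem map_univ_lift {A : Type w} [CommRing A] [Algebra k A] (π : ChartPt (k := k) φ A) :
    (univ k φ).map (lift π) = π := by
  ext r j
  simp

theorem lift_map_univ {A : Type w} [CommRing A] [Algebra k A] (ψ : ChartRing k φ →ₐ[k] A) :
    lift ((univ k φ).map ψ) = ψ := by
  apply hom_ext
  intro r j
  simp

/-- Two homomorphisms out of the chart ring agree if they define the same ideal. -/
theorem hom_ext_ideal {A : Type w} [CommRing A] [Algebra k A] {f g : ChartRing k φ →ₐ[k] A}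
    (h : ((univ k φ).map f).ideal = ((univ k φ).map g).ideal) : f = g := by
  rw [← lift_map_univ f, ← lift_map_univ g, ChartPt.ideal_injective h]

theorem x_add (r s : R) (j : Fin d) : x k φ (r + s) j = x k φ r j + x k φ s j := by
  have := congrFun ((univ k φ).coord.map_add r s) j
  simpa using this

theorem x_smul (c : k) (r : R) (j : Fin d) : x k φ (c • r) j = c • x k φ r j := by
  have := congrFun ((univ k φ).coord.map_smul c r) j
  simpa using this

theorem x_mul (r s : R) (j : Fin d) :
    x k φ (r * s) j = ∑ i, x k φ r i * x k φ (s * φ i) j := by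
  have := congrFun ((univ k φ).coord_mul r s) j
  simpa using this

theorem x_basis (i j : Fin d) : x k φ (φ i) j = (Pi.single i 1 : Fin d → ChartRing k φ) j := by
  have := congrFun ((univ k φ).coord_basis i) j
  simpa using this

/-- The chart ring is finitely generated when `R` is. -/
theorem finiteType [Algebra.FiniteType k R] : Algebra.FiniteType k (ChartRing k φ) := by
  obtain ⟨S, hS⟩ := (‹Algebra.FiniteType k R›).out
  classical
  let T : Set (ChartRing k φ) :=
    (Set.range fun j : Fin d => x k φ 1 j) ∪
      ⋃ g ∈ S, Set.range fun p : Fin d × Fin d => x k φ (g * φ p.1) p.2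
  have hTfin : T.Finite := by
    refine (Set.finite_range _).union ?_
    exact Set.Finite.biUnion S.finite_toSet fun g _ => Set.finite_range _
  have hone : ∀ j, x k φ 1 j ∈ Algebra.adjoin k T := fun j =>
    Algebra.subset_adjoin (Or.inl ⟨j, rfl⟩)
  have hbas : ∀ i j, x k φ (φ i) j ∈ Algebra.adjoin k T := fun i j => by
    rw [x_basis]
    by_cases hij : j = i
    · subst hij; simp
    · simp [Pi.single_eq_of_ne hij]
  have key : ∀ r : R, (∀ j, x k φ r j ∈ Algebra.adjoin k T) ∧
      ∀ i j, x k φ (r * φ i) j ∈ Algebra.adjoin k T := by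
    intro r
    have hr : r ∈ Algebra.adjoin k (S : Set R) := by rw [hS]; trivial
    induction hr using Algebra.adjoin_induction with
    | mem g hg =>
      have h1 : ∀ i j, x k φ (g * φ i) j ∈ Algebra.adjoin k T := fun i j =>
        Algebra.subset_adjoin (Or.inr (Set.mem_biUnion hg ⟨(i, j), rfl⟩))
      refine ⟨fun j => ?_, h1⟩
      rw [← one_mul g, x_mul]
      exact sum_mem fun i _ => mul_mem (hone i) (h1 i j)
    | algebraMap c =>
      refine ⟨fun j => ?_, fun i j => ?_⟩
      · rw [Algebra.algebraMap_eq_smul_one, x_smul]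
        exact Subalgebra.smul_mem _ (hone j) c
      · rw [Algebra.algebraMap_eq_smul_one, smul_mul_assoc, one_mul, x_smul]
        exact Subalgebra.smul_mem _ (hbas i j) c
    | add a b _ _ ha hb =>
      refine ⟨fun j => ?_, fun i j => ?_⟩
      · rw [x_add]; exact add_mem (ha.1 j) (hb.1 j)
      · rw [add_mul, x_add]; exact add_mem (ha.2 i j) (hb.2 i j)
    | mul a b _ _ ha hb =>
      refine ⟨fun j => ?_, fun i j => ?_⟩
      · rw [x_mul]
        exact sum_mem fun l _ => mul_mem (ha.1 l) (hb.2 l j)
      · rw [mul_comm a b, mul_assoc, mul_comm, x_mul]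
        exact sum_mem fun l _ => mul_mem (ha.2 i l) (hb.2 l j)
  refine ⟨⟨hTfin.toFinset, ?_⟩⟩
  rw [Set.Finite.coe_toFinset, eq_top_iff]
  rintro a -
  obtain ⟨p, rfl⟩ := Ideal.Quotient.mk_surjective a
  induction p using MvPolynomial.induction_on with
  | C c =>
    have : Ideal.Quotient.mk (Ideal.span {p | ChartRel k φ p}) (MvPolynomial.C c) =
      algebraMap k (ChartRing k φ) c := rfl
    rw [this]
    exact Subalgebra.algebraMap_mem _ c
  | add p q hp hq => rw [map_add]; exact add_mem hp hq
  | mul_X p i hp =>
    rw [map_mul]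
    exact mul_mem hp ((key i.1).1 i.2)

end ChartRing

end Pool.Agent.Helper91
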