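import Mathlib
import Pool.Agent.Helper91.ChartRing

/-!
The tangent space of the Hilbert scheme of points of a monomial curve at the point given by a
canonical ideal.
-/

namespace Pool.Agent.Helper91

open Polynomial

universe u

/-- A maximal ideal which modulo its square is generated by `n` of its elements has height at
most `n`. -/
theorem height_le_of_le_span_sup_sq {A : Type*} [CommRing A] [IsNoetherianRing A]
    (m : Ideal A) (hm : m.IsMaximal) {T : Set A} (hT : T.Finite) (hTm : T ⊆ m)
    (h : m ≤ Ideal.span T ⊔ m ^ 2) : m.height ≤ T.ncard := by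
  apply Ideal.height_le_card_of_mem_minimalPrimes_span hT
  refine ⟨⟨hm.isPrime, Ideal.span_le.mpr hTm⟩, ?_⟩
  rintro q ⟨hq, hTq⟩ hqm
  have h1 : m ≤ q ⊔ m ^ 2 := h.trans (sup_le_sup_right hTq _)
  have h2 : m.map (Ideal.Quotient.mk q) = (m.map (Ideal.Quotient.mk q)) ^ 2 := by
    apply le_antisymm
    · have h3 := Ideal.map_mono (f := Ideal.Quotient.mk q) h1
      rwa [Ideal.map_sup, Ideal.map_quotient_self, bot_sup_eq, Ideal.map_pow] at h3
    · exact Ideal.pow_le_self two_ne_zero
  have h3 : IsIdempotentElem (m.map (Ideal.Quotient.mk q)) := by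
    rw [IsIdempotentElem, ← pow_two, ← h2]
  rw [Ideal.isIdempotentElem_iff_eq_bot_or_top _ (IsNoetherian.noetherian _)] at h3
  rcases h3 with h3 | h3
  · rw [Ideal.map_eq_bot_iff_le_ker, Ideal.mk_ker] at h3
    exact h3
  · exfalso
    have h4 : m.map (Ideal.Quotient.mk q) ≠ ⊤ := by
      intro h5
      have h6 := congrArg (Ideal.comap (Ideal.Quotient.mk q)) h5
      rw [Ideal.comap_map_of_surjective _ Ideal.Quotient.mk_surjective, ← RingHom.ker_eq_comap_bot,
        Ideal.mk_ker, Ideal.comap_top, sup_eq_left.mpr hqm] at h6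
      exact hm.ne_top h6
    exact h4 h3

/-- The algebra of polynomials whose exponents lie in a numerical semigroup `H`: the coordinate
ring of a monomial curve. -/
def sgAlg (k : Type u) [Field k] (H : AddSubmonoid ℕ) : Subalgebra k k[X] where
  carrier := {p | ∀ n, n ∉ H → p.coeff n = 0}
  mul_mem' := by
    intro p q hp hq n hn
    rw [Polynomial.coeff_mul]
    refine Finset.sum_eq_zero fun ij hij => ?_
    rw [Finset.HasAntidiagonal.mem_antidiagonal] at hij
    by_cases hi : ij.1 ∈ H
    · have hj : ij.2 ∉ H := fun hj => hn (hij ▸ H.add_mem hi hj)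
      rw [hq _ hj, mul_zero]
    · rw [hp _ hi, zero_mul]
  add_mem' := by
    intro p q hp hq n hn
    rw [Polynomial.coeff_add, hp n hn, hq n hn, add_zero]
  algebraMap_mem' := by
    intro c n hn
    rw [Polynomial.algebraMap_apply, Algebra.algebraMap_self_apply, Polynomial.coeff_C]
    rw [if_neg]
    rintro rfl
    exact hn H.zero_mem

namespace sgAlg

variable {k : Type u} [Field k] {H : AddSubmonoid ℕ}

theorem coeff_eq_zero (p : sgAlg k H) {n : ℕ} (hn : n ∉ H) : (p : k[X]).coeff n = 0 := p.2 n hn

/-- Monomials. -/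
noncomputable def mono (h : H) : sgAlg k H :=
  ⟨X ^ (h : ℕ), fun n hn => by
    rw [Polynomial.coeff_X_pow, if_neg]
    rintro rfl
    exact hn h.2⟩

@[simp]
theorem coe_mono (h : H) : ((mono h : sgAlg k H) : k[X]) = X ^ (h : ℕ) := rfl

theorem mono_add (h h' : H) : (mono (h + h') : sgAlg k H) = mono h * mono h' := by
  ext1
  simp [pow_add]

theorem mono_zero : (mono 0 : sgAlg k H) = 1 := by
  ext1
  simp

/-- Every element is a combination of monomials. -/
theorem mem_span_mono (p : sgAlg k H) :
    p ∈ Submodule.span k (Set.range (mono : H → sgAlg k H)) := by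
  classical
  have h1 : (p : k[X]) = ∑ n ∈ (p : k[X]).support, C ((p : k[X]).coeff n) * X ^ n :=
    Polynomial.as_sum_support_C_mul_X_pow _
  have h2 : ∀ n ∈ (p : k[X]).support, n ∈ H := fun n hn => by
    by_contra hnH
    exact (Polynomial.mem_support_iff.mp hn) (coeff_eq_zero p hnH)
  have h3 : p = ∑ n ∈ (p : k[X]).support.attach,
      (p : k[X]).coeff n • (mono ⟨n.1, h2 n.1 n.2⟩ : sgAlg k H) := by
    ext1
    conv_lhs => rw [h1]
    rw [← Finset.sum_attach]
    simp [Polynomial.smul_eq_C_mul]
  rw [h3]
  exact Submodule.sum_mem _ fun n _ =>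
    Submodule.smul_mem _ _ (Submodule.subset_span ⟨_, rfl⟩)

end sgAlg

open sgAlg

section point

variable {k : Type u} [Field k] {H : AddSubmonoid ℕ} {G d : ℕ} (e : Fin d → H)
  (he : Function.Injective e) (heB : ∀ b : H, b ∈ Set.range e ↔ ∃ h : H, (b : ℕ) + h = G)

/-- the tuple of monomials `t ^ b`, `b ∈ B` -/
noncomputable def basisTuple (k : Type u) [Field k] (e : Fin d → H) : Fin d → sgAlg k H :=
  fun j => mono (e j)

include he heB in
/-- The `k`-point of the chart corresponding to the canonical ideal. -/
theorem exists_point : ∃ π : ChartPt (k := k) (basisTuple k e) k,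
    ∀ (p : sgAlg k H) (j : Fin d), π.coord p j = (p : k[X]).coeff (e j) := by
  classical
  refine ⟨{ coord := { toFun := fun p j => (p : k[X]).coeff (e j)
                       map_add' := fun p q => by ext j; simp
                       map_smul' := fun c p => by ext j; simp }
            coord_basis := fun i => ?_
            coord_mul := fun p q => ?_ }, fun p j => rfl⟩
  · ext j
    simp only [basisTuple, LinearMap.coe_mk, AddHom.coe_mk, coe_mono, Polynomial.coeff_X_pow]
    by_cases hij : j = i
    · subst hij; simp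
    · rw [Pi.single_eq_of_ne hij, if_neg]
      intro h
      exact hij (he (Subtype.ext h))
  · ext j
    simp only [basisTuple, LinearMap.coe_mk, AddHom.coe_mk, Finset.sum_apply, Pi.smul_apply,
      smul_eq_mul, MulMemClass.coe_mul, coe_mono, Polynomial.coeff_mul_X_pow']
    rw [Polynomial.coeff_mul, Finset.Nat.sum_antidiagonal_eq_sum_range_succ_mk]
    -- the sum over all `i ≤ b` reduces to the sum over the basis exponents
    rw [← Finset.sum_subset (s₁ := (Finset.univ.image fun i : Fin d => ((e i : H) : ℕ)).filter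
      (· ≤ (e j : ℕ)))]
    · rw [Finset.sum_filter, Finset.sum_image]
      · refine Finset.sum_congr rfl fun i _ => ?_
        by_cases hle : (e i : ℕ) ≤ e j
        · simp [hle]
        · simp [hle]
      · intro a _ b _ hab
        exact he (Subtype.ext hab)
    · intro n hn
      rw [Finset.mem_filter] at hn
      exact Finset.mem_range.mpr (Nat.lt_succ_of_le hn.2)
    · intro n hn hn'
      rw [Finset.mem_range, Nat.lt_succ_iff] at hn
      by_cases hnH : n ∈ H
      · by_cases hnH' : (e j : ℕ) - n ∈ H
        · exfalso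
          apply hn'
          rw [Finset.mem_filter]
          refine ⟨?_, hn⟩
          obtain ⟨h, hh⟩ := (heB (e j)).mp ⟨j, rfl⟩
          have h1 : (⟨n, hnH⟩ : H) ∈ Set.range e := by
            rw [heB]
            refine ⟨⟨(e j : ℕ) - n, hnH'⟩ + h, ?_⟩
            simp only [AddSubmonoid.coe_add]
            omega
          obtain ⟨i, hi⟩ := h1
          exact Finset.mem_image.mpr ⟨i, Finset.mem_univ _, by rw [hi]⟩
        · simp [coeff_eq_zero q hnH']
      · simp [coeff_eq_zero p hnH]

/-- the exponents labelling a spanning set of the cotangent space -/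
def tangentSet (H : AddSubmonoid ℕ) (G : ℕ) : Set H :=
  {v | (¬ ∃ h : H, (v : ℕ) + h = G) ∧
    ∀ s : H, (¬ ∃ h : H, (s : ℕ) + h = G) → ∃ h : H, (h : ℕ) + v = s + G}

include he heB in
/-- The height of the maximal ideal of the chart ring at the canonical ideal is at most the number
of elements of `tangentSet H G`. -/
theorem height_le_ncard_tangentSet [Algebra.FiniteType k (sgAlg k H)]
    (hGH : G ∈ H) (hG1 : ∀ n, G < n → n ∈ H) (hG2 : ∀ n : ℕ, (¬ ∃ h : H, n + h = G) → n ∈ H)
    (hfin : (tangentSet H G).Finite)
    (π : ChartPt (k := k) (basisTuple k e) k)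
    (hπ : ∀ (p : sgAlg k H) (j : Fin d), π.coord p j = (p : k[X]).coeff (e j)) :
    (RingHom.ker (ChartRing.lift π)).IsMaximal ∧
      (RingHom.ker (ChartRing.lift π)).height ≤ (tangentSet H G).ncard := by
  classical
  have : Algebra.FiniteType k (ChartRing k (basisTuple k e)) := ChartRing.finiteType
  have : IsNoetherianRing (ChartRing k (basisTuple k e)) :=
    Algebra.FiniteType.isNoetherianRing k _
  set z : ChartRing k (basisTuple k e) →ₐ[k] k := ChartRing.lift π with hz
  have hzx : ∀ r j, z (ChartRing.x k (basisTuple k e) r j) = (r : k[X]).coeff (e j) := fun r j => by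
    rw [hz, ChartRing.lift_x, hπ]
  have hsurj : Function.Surjective z := fun c => ⟨algebraMap k _ c, by simp⟩
  have hmax : (RingHom.ker z).IsMaximal :=
    RingHom.ker_isMaximal_of_surjective z.toRingHom hsurj
  refine ⟨hmax, ?_⟩
  set m := RingHom.ker z with hm
  -- the index of the top exponent `G`
  obtain ⟨jG, hjG⟩ : ∃ jG, e jG = ⟨G, hGH⟩ := by
    have : (⟨G, hGH⟩ : H) ∈ Set.range e := by
      rw [heB]
      exact ⟨0, by simp⟩
    exact this
  let xx : H → Fin d → ChartRing k (basisTuple k e) := fun h j =>
    ChartRing.x k (basisTuple k e) (mono h) j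
  have hxx : ∀ (s : H) (i : Fin d), (¬ ∃ h : H, (s : ℕ) + h = G) → xx s i ∈ m := by
    intro s i hs
    rw [hm, RingHom.mem_ker, hzx, coe_mono, Polynomial.coeff_X_pow, if_neg]
    intro h
    apply hs
    rw [← heB]
    exact ⟨i, Subtype.ext h⟩
  -- the fundamental congruence
  have hrule : ∀ (s h : H) (j : Fin d), (¬ ∃ h : H, (s : ℕ) + h = G) →
      xx (s + h) j - ∑ i, (if ((h + e i : H) : ℕ) = e j then xx s i else 0) ∈ m ^ 2 := by
    intro s h j hs
    have h1 : xx (s + h) j = ∑ i, xx s i *
        ChartRing.x k (basisTuple k e) (mono h * basisTuple k e i) j := by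
      simp only [xx]
      rw [mono_add, ChartRing.x_mul]
    rw [h1, ← Finset.sum_sub_distrib]
    refine Ideal.sum_mem _ fun i _ => ?_
    have h2 : ChartRing.x k (basisTuple k e) (mono h * basisTuple k e i) j = xx (h + e i) j := by
      simp only [xx, basisTuple]
      rw [mono_add]
    have h3 : xx (h + e i) j - (if ((h + e i : H) : ℕ) = e j then 1 else 0) ∈ m := by
      rw [hm, RingHom.mem_ker, map_sub, hzx, coe_mono, Polynomial.coeff_X_pow]
      by_cases h4 : ((h + e i : H) : ℕ) = e j
      · rw [if_pos h4.symm, if_pos h4, map_one, sub_self]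
      · rw [if_neg (Ne.symm h4), if_neg h4, map_zero, sub_self]
    have h5 := Ideal.mul_mem_mul (hxx s i hs) h3
    rw [h2, pow_two]
    convert h5 using 1
    by_cases h4 : ((h + e i : H) : ℕ) = e j
    · rw [if_pos h4, if_pos h4]; ring
    · rw [if_neg h4, if_neg h4]; ring
  -- reduction to the top exponent
  have hC1 : ∀ (s : H) (j : Fin d), (¬ ∃ h : H, (s : ℕ) + h = G) →
      ∃ h : H, ((e j : H) : ℕ) + h = G ∧ xx s j - xx (s + h) jG ∈ m ^ 2 := by
    intro s j hs
    obtain ⟨h, hh⟩ := (heB (e j)).mp ⟨j, rfl⟩
    refine ⟨h, hh, ?_⟩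
    have h1 := hrule s h jG hs
    rw [Finset.sum_eq_single j] at h1
    · rw [if_pos] at h1
      · rw [← Ideal.neg_mem_iff, neg_sub]
        exact h1
      · rw [hjG, AddSubmonoid.coe_add]
        change (h : ℕ) + e j = G
        omega
    · intro i _ hij
      rw [if_neg]
      intro h2
      rw [hjG, AddSubmonoid.coe_add] at h2
      apply hij
      apply he
      apply Subtype.ext
      simp only at h2
      omega
    · intro h2
      exact absurd (Finset.mem_univ j) h2
  let T : Set (ChartRing k (basisTuple k e)) := (fun v : H => xx v jG) '' tangentSet H G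
  have hTfin : T.Finite := hfin.image _
  have hTm : T ⊆ m := by
    rintro _ ⟨v, hv, rfl⟩
    exact hxx v jG hv.1
  have hC2 : ∀ v : H, (¬ ∃ h : H, (v : ℕ) + h = G) → xx v jG ∈ Ideal.span T ⊔ m ^ 2 := by
    intro v hv
    by_cases hvT : v ∈ tangentSet H G
    · exact (le_sup_left : _ ≤ Ideal.span T ⊔ m ^ 2) (Ideal.subset_span ⟨v, hvT, rfl⟩)
    · apply (le_sup_right : _ ≤ Ideal.span T ⊔ m ^ 2)
      have h1 : ∃ s : H, (¬ ∃ h : H, (s : ℕ) + h = G) ∧ ¬ ∃ h : H, (h : ℕ) + v = s + G := by
        by_contra h2
        push Not at h2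
        exact hvT ⟨hv, fun s hs => h2 s (fun h hh => hs ⟨h, hh⟩)⟩
      obtain ⟨s, hs, hsv⟩ := h1
      have hle : (s : ℕ) ≤ v := by
        by_contra hlt
        push Not at hlt
        apply hsv
        refine ⟨⟨(s : ℕ) + G - v, hG1 _ (by omega)⟩, ?_⟩
        simp only
        omega
      have ht : (v : ℕ) - s ∈ H := by
        apply hG2
        rintro ⟨h, hh⟩
        exact hsv ⟨h, by omega⟩
      have hvs : v = s + ⟨(v : ℕ) - s, ht⟩ := by
        apply Subtype.ext
        simp only [AddSubmonoid.coe_add]
        omega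
      have h2 := hrule s ⟨(v : ℕ) - s, ht⟩ jG hs
      rw [← hvs, Finset.sum_eq_zero, sub_zero] at h2
      · exact h2
      · intro i _
        rw [if_neg]
        intro h3
        rw [hjG, AddSubmonoid.coe_add] at h3
        simp only at h3
        exact hsv ⟨e i, by omega⟩
  have hC : ∀ (s : H) (j : Fin d), (¬ ∃ h : H, (s : ℕ) + h = G) →
      xx s j ∈ Ideal.span T ⊔ m ^ 2 := by
    intro s j hs
    obtain ⟨h, hh, h1⟩ := hC1 s j hs
    have h2 : ¬ ∃ h' : H, ((s + h : H) : ℕ) + h' = G := by
      rintro ⟨h', hh'⟩
      apply hs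
      refine ⟨h + h', ?_⟩
      rw [AddSubmonoid.coe_add] at hh' ⊢
      omega
    have h3 := Ideal.add_mem _ ((le_sup_right : _ ≤ Ideal.span T ⊔ m ^ 2) h1) (hC2 _ h2)
    simpa using h3
  have hbase : ∀ (r : sgAlg k H) (j : Fin d),
      ChartRing.x k (basisTuple k e) r j -
        algebraMap k _ (z (ChartRing.x k (basisTuple k e) r j)) ∈ Ideal.span T ⊔ m ^ 2 := by
    intro r j
    induction mem_span_mono r using Submodule.span_induction with
    | mem r hr =>
      obtain ⟨h, rfl⟩ := hr
      by_cases hh : ∃ h' : H, (h : ℕ) + h' = G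
      · obtain ⟨i, rfl⟩ := (heB h).mpr hh
        have h1 : ChartRing.x k (basisTuple k e) (mono (e i)) j =
            (Pi.single i 1 : Fin d → ChartRing k (basisTuple k e)) j :=
          ChartRing.x_basis i j
        rw [h1]
        by_cases hij : j = i
        · subst hij; simp
        · simp [Pi.single_eq_of_ne hij]
      · have h1 : z (ChartRing.x k (basisTuple k e) (mono h) j) = 0 := hxx h j hh
        rw [h1, map_zero, sub_zero]
        exact hC h j hh
    | zero =>
      have : ChartRing.x k (basisTuple k e) 0 j = 0 := by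
        have := ChartRing.x_smul (φ := basisTuple k e) (0 : k) 0 j
        simpa using this
      rw [this]
      simp
    | add a b _ _ ha hb =>
      rw [ChartRing.x_add, map_add, map_add]
      have := Ideal.add_mem _ ha hb
      convert this using 1
      ring
    | smul c a _ ha =>
      rw [ChartRing.x_smul, map_smul]
      have := Ideal.mul_mem_left _ (algebraMap k _ c) ha
      convert this using 1
      have h9 : c • ChartRing.x k (basisTuple k e) a j =
        algebraMap k _ c * ChartRing.x k (basisTuple k e) a j :=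
        Algebra.smul_def (A := ChartRing k (basisTuple k e)) c
          (ChartRing.x k (basisTuple k e) a j)
      rw [mul_sub, ← map_mul, h9]
      simp only [Algebra.smul_def, Algebra.algebraMap_self_apply]
  have hall : ∀ y : ChartRing k (basisTuple k e),
      y - algebraMap k _ (z y) ∈ Ideal.span T ⊔ m ^ 2 := by
    intro y
    obtain ⟨p, rfl⟩ := Ideal.Quotient.mk_surjective y
    induction p using MvPolynomial.induction_on with
    | C c =>
      have : Ideal.Quotient.mk (Ideal.span {p | ChartRel k (basisTuple k e) p})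
        (MvPolynomial.C c) = algebraMap k (ChartRing k (basisTuple k e)) c := rfl
      rw [this]
      simp
    | add p q hp hq =>
      rw [map_add, map_add, map_add]
      have := Ideal.add_mem _ hp hq
      convert this using 1
      ring
    | mul_X p i hp =>
      rw [map_mul, map_mul, map_mul]
      have h1 := Ideal.mul_mem_right
        (Ideal.Quotient.mk (Ideal.span {p | ChartRel k (basisTuple k e) p}) (MvPolynomial.X i)) _ hp
      have h2 := Ideal.mul_mem_left _ (algebraMap k _ (z (Ideal.Quotient.mk
        (Ideal.span {p | ChartRel k (basisTuple k e) p}) p))) (hbase i.1 i.2)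
      have h3 := Ideal.add_mem _ h1 h2
      convert h3 using 1
      simp only [ChartRing.x]
      ring
  have hmle : m ≤ Ideal.span T ⊔ m ^ 2 := by
    intro y hy
    have h1 := hall y
    have h2 : z y = 0 := hy
    rwa [h2, map_zero, sub_zero] at h1
  calc m.height ≤ T.ncard := height_le_of_le_span_sup_sq m hmax hTfin hTm hmle
    _ ≤ (tangentSet H G).ncard := by
      exact_mod_cast Set.ncard_image_le hfin

end point

end Pool.Agent.Helper91
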