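import Mathlib
import Pool.Agent.Helper91.Tangent

/-!
Basic properties of the coordinate ring of a monomial curve.
-/

namespace Pool.Agent.Helper91

open Polynomial

universe u

namespace sgAlg

variable (k : Type u) [Field k] (H : AddSubmonoid ℕ) (F : ℕ) (hF : ∀ n, F < n → n ∈ H)

include hF in
theorem finiteType : Algebra.FiniteType k (sgAlg k H) := by
  let T : Set (sgAlg k H) := mono '' {h : H | (h : ℕ) ≤ 2 * F + 1}
  have hT : T.Finite := by
    apply Set.Finite.image
    apply Set.Finite.of_finite_image (f := Subtype.val) _ Subtype.val_injective.injOn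
    apply (Set.finite_Iic (2 * F + 1)).subset
    rintro _ ⟨v, hv, rfl⟩
    exact hv
  have key : ∀ n : ℕ, ∀ hn : n ∈ H, (mono ⟨n, hn⟩ : sgAlg k H) ∈ Algebra.adjoin k T := by
    intro n
    induction n using Nat.strong_induction_on with
    | _ n ih =>
      intro hn
      rcases Nat.lt_or_ge (2 * F + 1) n with h | h
      · have h1 : F + 1 ∈ H := hF _ (by omega)
        have h2 : n - (F + 1) ∈ H := hF _ (by omega)
        have h3 : (⟨n, hn⟩ : H) = ⟨F + 1, h1⟩ + ⟨n - (F + 1), h2⟩ := by
          apply Subtype.ext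
          simp only [AddSubmonoid.coe_add]
          omega
        rw [h3, mono_add]
        refine mul_mem (Algebra.subset_adjoin ⟨⟨F + 1, h1⟩, ?_, rfl⟩) (ih _ (by omega) h2)
        change F + 1 ≤ 2 * F + 1
        omega
      · exact Algebra.subset_adjoin ⟨⟨n, hn⟩, h, rfl⟩
  refine ⟨⟨hT.toFinset, ?_⟩⟩
  rw [Set.Finite.coe_toFinset, eq_top_iff]
  rintro p -
  have h1 : Submodule.span k (Set.range (mono : H → sgAlg k H)) ≤
      Subalgebra.toSubmodule (Algebra.adjoin k T) := by
    rw [Submodule.span_le]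
    rintro _ ⟨h, rfl⟩
    exact key h.1 h.2
  exact h1 (mem_span_mono p)

include hF in
theorem isIntegral : Algebra.IsIntegral (sgAlg k H) k[X] := by
  refine ⟨fun p => ?_⟩
  have hX : IsIntegral (sgAlg k H) (X : k[X]) := by
    have h1 : F + 1 ∈ H := hF _ (by omega)
    apply IsIntegral.of_pow (n := F + 1) (by omega)
    exact isIntegral_algebraMap (R := sgAlg k H) (x := mono ⟨F + 1, h1⟩)
  have hC : ∀ a : k, IsIntegral (sgAlg k H) (C a : k[X]) := fun a =>
    isIntegral_algebraMap (R := sgAlg k H) (x := algebraMap k (sgAlg k H) a)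
  induction p using Polynomial.induction_on with
  | C a => exact hC a
  | add p q hp hq => exact hp.add hq
  | monomial n a _ => exact (hC a).mul (hX.pow _)

include hF in
theorem ringKrullDim_eq : ringKrullDim (sgAlg k H) = 1 := by
  have hint := isIntegral k H F hF
  have hinj : Function.Injective (algebraMap (sgAlg k H) k[X]) := Subtype.val_injective
  have h1 : Ring.KrullDimLE 1 (sgAlg k H) := by
    refine Ring.KrullDimLE.mk₁' fun P hP hPp => ?_
    obtain ⟨Q, -, hQp, hQ⟩ := Ideal.exists_ideal_over_prime_of_isIntegral (S := k[X]) P ⊥ (by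
      rw [← RingHom.ker_eq_comap_bot, (RingHom.injective_iff_ker_eq_bot _).mp hinj]
      exact bot_le)
    have hQ0 : Q ≠ ⊥ := by
      rintro rfl
      apply hP
      rw [← hQ, ← RingHom.ker_eq_comap_bot, (RingHom.injective_iff_ker_eq_bot _).mp hinj]
    have hQm : Q.IsMaximal := hQp.isMaximal hQ0
    rw [← hQ]
    exact Ideal.isMaximal_comap_of_isIntegral_of_isMaximal Q
  have h2 : ¬ Ring.KrullDimLE 0 (sgAlg k H) := by
    intro h
    have hf : IsField (sgAlg k H) := Ring.KrullDimLE.isField_of_isDomain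
    have h3 : F + 1 ∈ H := hF _ (by omega)
    have h4 : (mono ⟨F + 1, h3⟩ : sgAlg k H) ≠ 0 := by
      intro h5
      have h6 := congrArg (fun p : sgAlg k H => (p : k[X])) h5
      simp at h6
    obtain ⟨q, hq⟩ := hf.mul_inv_cancel h4
    have h5 := congrArg (fun p : sgAlg k H => (p : k[X]).coeff 0) hq
    simp at h5
  rw [Ring.krullDimLE_iff] at h1 h2
  apply le_antisymm
  · exact_mod_cast h1
  · have h3 := lt_of_not_ge h2
    generalize ringKrullDim (sgAlg k H) = x at h3
    cases x with
    | bot => simp at h3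
    | coe x =>
      have h4 : (0 : ℕ∞) < x := by exact_mod_cast h3
      have h5 : (1 : ℕ∞) ≤ x := Order.one_le_iff_ne_zero.mpr h4.ne'
      exact_mod_cast h5

end sgAlg

end Pool.Agent.Helper91
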