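import Mathlib

/-!
Dimension theory of finitely generated algebras over a field: every maximal ideal of a
finitely generated domain over a field has height equal to the Krull dimension.
-/

namespace Pool.Agent.Helper91

open Ideal

theorem height_eq_card_of_isMaximal {k : Type*} [Field k] {ι : Type*} [Finite ι] :
    ∀ (P : Ideal (MvPolynomial ι k)), P.IsMaximal → P.height = (Nat.card ι : ℕ∞) := by
  induction ι using Finite.induction_empty_option with
  | of_equiv e H =>
    intro P hP
    let e' := (MvPolynomial.renameEquiv k e).toRingEquiv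
    have h1 := e'.height_comap P
    have : (P.comap e').IsMaximal := Ideal.comap_isMaximal_of_equiv e'
    rw [← h1, H _ this, Nat.card_congr e]
  | h_empty =>
    intro P hP
    have hf : IsField (MvPolynomial PEmpty k) :=
      (MvPolynomial.isEmptyRingEquiv k PEmpty).toMulEquiv.isField (Field.toIsField k)
    let _ := hf.toField
    have : P = ⊥ := by
      rcases Ideal.eq_bot_or_top P with h | h
      · exact h
      · exact absurd h hP.ne_top
    subst this
    simp
  | @h_option ι _ IH =>
    intro P hP
    let e' := (MvPolynomial.optionEquivLeft k ι).symm.toRingEquiv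
    have h1 := e'.height_comap P
    have hm : (P.comap e').IsMaximal := Ideal.comap_isMaximal_of_equiv e'
    rw [← h1]
    set Q := P.comap e' with hQ
    have hm2 : (Q.comap (Polynomial.C : MvPolynomial ι k →+* _)).IsMaximal :=
      Polynomial.isMaximal_comap_C_of_isJacobsonRing Q
    have h2 := Polynomial.height_eq_height_add_one (Q.under (MvPolynomial ι k)) Q
    have h3 : (Q.under (MvPolynomial ι k)).height = (Nat.card ι : ℕ∞) := IH _ hm2
    rw [h2, h3]
    simp

/-- For a finitely generated domain `A` over a field `k`, there is a natural number `n`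
with `ringKrullDim A = n` and such that every maximal ideal has height `n`. -/
theorem exists_dim (k A : Type*) [Field k] [CommRing A] [IsDomain A] [Algebra k A]
    [Algebra.FiniteType k A] :
    ∃ n : ℕ, ringKrullDim A = n ∧ ∀ m : Ideal A, m.IsMaximal → m.height = n := by
  obtain ⟨s, g, hg, hi⟩ := exists_integral_inj_algHom_of_fg k A
  let : Algebra (MvPolynomial (Fin s) k) A := g.toRingHom.toAlgebra
  have : IsScalarTower k (MvPolynomial (Fin s) k) A := .of_algHom g
  have : Algebra.IsIntegral (MvPolynomial (Fin s) k) A := ⟨hi⟩
  have : FaithfulSMul (MvPolynomial (Fin s) k) A :=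
    (faithfulSMul_iff_algebraMap_injective _ _).mpr hg
  have : IsNoetherianRing A := Algebra.FiniteType.isNoetherianRing k A
  have key : ∀ m : Ideal A, m.IsMaximal → m.height = s := by
    intro m hm
    have hq : (m.under (MvPolynomial (Fin s) k)).IsMaximal :=
      Ideal.isMaximal_comap_of_isIntegral_of_isMaximal m
    have h1 := Ideal.height_eq_height_add_of_liesOver_of_hasGoingDown
      (m.under (MvPolynomial (Fin s) k)) m
    rw [height_eq_card_of_isMaximal _ hq] at h1
    have h2 := Ideal.IsIntegral.mem_minimalPrimes_map_under (R := MvPolynomial (Fin s) k) m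
    rw [Ideal.minimalPrimes_eq_comap] at h2
    obtain ⟨Q, hQ, hQm⟩ := h2
    have h3 := congrArg (Ideal.map (Ideal.Quotient.mk
        ((m.under (MvPolynomial (Fin s) k)).map (algebraMap _ A)))) hQm
    rw [Ideal.map_comap_of_surjective _ Ideal.Quotient.mk_surjective] at h3
    have : Q.IsPrime := Ideal.IsMinimalPrime.isPrime hQ
    have h4 : Q.height = 0 := Ideal.height_eq_zero_iff.mpr hQ
    rw [← h3, h4] at h1
    simpa using h1
  refine ⟨s, ?_, key⟩
  rw [← Ideal.sup_isMaximal_height_eq_ringKrullDim]
  have hex : ∃ m : Ideal A, m.IsMaximal := Ideal.exists_maximal A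
  obtain ⟨m, hm⟩ := hex
  have : (⨆ (I : Ideal A) (_ : I.IsMaximal), I.height) = (s : ℕ∞) := by
    apply le_antisymm
    · exact iSup₂_le fun I hI => (key I hI).le
    · rw [← key m hm]
      exact le_iSup₂_of_le m hm le_rfl
  rw [this]
  rfl

end Pool.Agent.Helper91
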