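import Mathlib

/-!
The Hilbert functor of `d` points of a scheme `C` over a base `S`.
-/

open CategoryTheory Limits AlgebraicGeometry Opposite

universe u

namespace Pool.Agent.Helper91

/-- The morphism `p : Z ⟶ T` is finite locally free of constant rank `d`: it is finite, flat and
locally of finite presentation, and its rank at every point of `T` is `d`. -/
structure IsFiniteLocallyFree (d : ℕ) {Z T : Scheme.{u}} (p : Z ⟶ T) : Prop where
  finite : IsFinite p
  flat : Flat p
  lfp : LocallyOfFinitePresentation p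
  rank : ∀ t : T, p.finrank t = d

variable {C S : Scheme.{u}}

/-- The morphism `T' ×_S C ⟶ T ×_S C` induced by a morphism `u : T' ⟶ T` over `S`. -/
noncomputable abbrev baseMap (f : C ⟶ S) {T T' : Scheme.{u}} (g : T ⟶ S) (g' : T' ⟶ S)
    (u : T' ⟶ T) (hu : u ≫ g = g') : pullback g' f ⟶ pullback g f :=
  pullback.map g' f g f u (𝟙 C) (𝟙 S) (by rw [Category.comp_id, hu]) (by simp)

/-- A closed subscheme `Z` of `T ×_S C`, given by its ideal sheaf, which is finite locally free
of rank `d` over `T`: a flat family of subschemes of length `d` of the fibres of `C/S`. -/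
def IsFamily (d : ℕ) (f : C ⟶ S) {T : Scheme.{u}} (g : T ⟶ S)
    (Z : (pullback g f).IdealSheafData) : Prop :=
  IsFiniteLocallyFree d (Z.subschemeι ≫ pullback.fst g f)

/-- `h : H ⟶ S` is the Hilbert scheme of `d` points of `C` over `S`: there is a universal
family `𝒵 ⊆ H ×_S C` such that every family `Z ⊆ T ×_S C` is the pullback of `𝒵` along a unique
morphism `T ⟶ H` over `S`. -/
def IsHilbertScheme (d : ℕ) (f : C ⟶ S) {H : Scheme.{u}} (h : H ⟶ S) : Prop :=
  ∃ 𝒵 : (pullback h f).IdealSheafData, IsFamily d f h 𝒵 ∧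
    ∀ (T : Scheme.{u}) (g : T ⟶ S) (Z : (pullback g f).IdealSheafData), IsFamily d f g Z →
      ∃! u : T ⟶ H, ∃ hu : u ≫ h = g, 𝒵.comap (baseMap f h g u hu) = Z

@[reassoc (attr := simp)]
theorem baseMap_fst (f : C ⟶ S) {T T' : Scheme.{u}} (g : T ⟶ S) (g' : T' ⟶ S)
    (u : T' ⟶ T) (hu : u ≫ g = g') :
    baseMap f g g' u hu ≫ pullback.fst g f = pullback.fst g' f ≫ u :=
  pullback.lift_fst _ _ _

@[reassoc (attr := simp)]
theorem baseMap_snd (f : C ⟶ S) {T T' : Scheme.{u}} (g : T ⟶ S) (g' : T' ⟶ S)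
    (u : T' ⟶ T) (hu : u ≫ g = g') :
    baseMap f g g' u hu ≫ pullback.snd g f = pullback.snd g' f :=
  (pullback.lift_snd _ _ _).trans (Category.comp_id _)

theorem isPullback_baseMap (f : C ⟶ S) {T T' : Scheme.{u}} (g : T ⟶ S) (g' : T' ⟶ S)
    (u : T' ⟶ T) (hu : u ≫ g = g') :
    IsPullback (baseMap f g g' u hu) (pullback.fst g' f) (pullback.fst g f) u := by
  apply IsPullback.of_right (h₁₂ := pullback.snd g f) (h₂₂ := g) (v₁₃ := f)
  · rw [baseMap_snd]
    subst hu
    exact (IsPullback.of_hasPullback (u ≫ g) f).flip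
  · rw [baseMap_fst]
  · exact (IsPullback.of_hasPullback g f).flip

theorem baseMap_comp (f : C ⟶ S) {T T' T'' : Scheme.{u}} (g : T ⟶ S) (g' : T' ⟶ S)
    (g'' : T'' ⟶ S) (u : T' ⟶ T) (hu : u ≫ g = g') (v : T'' ⟶ T') (hv : v ≫ g' = g'') :
    baseMap f g' g'' v hv ≫ baseMap f g g' u hu =
      baseMap f g g'' (v ≫ u) (by rw [Category.assoc, hu, hv]) := by
  apply pullback.hom_ext
  · rw [Category.assoc, baseMap_fst, baseMap_fst_assoc, baseMap_fst]
  · rw [Category.assoc, baseMap_snd, baseMap_snd, baseMap_snd]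

theorem baseMap_id (f : C ⟶ S) {T : Scheme.{u}} (g : T ⟶ S) :
    baseMap f g g (𝟙 T) (Category.id_comp g) = 𝟙 _ := by
  apply pullback.hom_ext
  · rw [baseMap_fst, Category.comp_id, Category.id_comp]
  · rw [baseMap_snd, Category.id_comp]

/-- The square relating a closed subscheme and its pullback. -/
theorem isPullback_comap {X Y : Scheme.{u}} (I : Y.IdealSheafData) (b : X ⟶ Y) :
    IsPullback ((I.comapIso b).hom ≫ pullback.snd b I.subschemeι) (I.comap b).subschemeι
      I.subschemeι b := by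
  have h := (IsPullback.of_hasPullback b I.subschemeι).flip
  refine IsPullback.of_iso h (I.comapIso b).symm (Iso.refl _) (Iso.refl _) (Iso.refl _) ?_ ?_ ?_ ?_
  · simp only [Iso.symm_hom, Iso.refl_hom, Category.comp_id, Iso.inv_hom_id_assoc]
  · simp only [Iso.symm_hom, Iso.refl_hom, Category.comp_id,
      Scheme.IdealSheafData.comapIso_inv_subschemeι]
  · simp
  · simp

theorem isPullback_family (f : C ⟶ S) {T T' : Scheme.{u}} (g : T ⟶ S) (g' : T' ⟶ S)
    (u : T' ⟶ T) (hu : u ≫ g = g') (Z : (pullback g f).IdealSheafData) :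
    IsPullback ((Z.comapIso (baseMap f g g' u hu)).hom ≫
        pullback.snd (baseMap f g g' u hu) Z.subschemeι)
      ((Z.comap (baseMap f g g' u hu)).subschemeι ≫ pullback.fst g' f)
      (Z.subschemeι ≫ pullback.fst g f) u :=
  (isPullback_comap Z (baseMap f g g' u hu)).paste_vert (isPullback_baseMap f g g' u hu)

theorem IsFiniteLocallyFree.of_isPullback {d : ℕ} {Z T Z' T' : Scheme.{u}} {p : Z ⟶ T}
    {p' : Z' ⟶ T'} {v : Z' ⟶ Z} {u : T' ⟶ T} (h : IsPullback v p' p u)
    (hp : IsFiniteLocallyFree d p) : IsFiniteLocallyFree d p' := by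
  have := hp.finite
  have := hp.flat
  have := hp.lfp
  refine ⟨MorphismProperty.of_isPullback h inferInstance,
    MorphismProperty.of_isPullback h inferInstance,
    MorphismProperty.of_isPullback h inferInstance, fun t => ?_⟩
  rw [Scheme.Hom.finrank_of_isPullback _ _ _ _ h, hp.rank]

theorem IsFamily.comap {d : ℕ} {f : C ⟶ S} {T T' : Scheme.{u}} {g : T ⟶ S} {g' : T' ⟶ S}
    (u : T' ⟶ T) (hu : u ≫ g = g') {Z : (pullback g f).IdealSheafData} (hZ : IsFamily d f g Z) :
    IsFamily d f g' (Z.comap (baseMap f g g' u hu)) :=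
  IsFiniteLocallyFree.of_isPullback (isPullback_family f g g' u hu Z) hZ

end Pool.Agent.Helper91
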