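import Mathlib
import Pool.Agent.Helper91.HilbFun

/-!
Families over an affine base: translation into ideals of `A ⊗ R`.
-/

open CategoryTheory Limits AlgebraicGeometry Opposite TensorProduct

universe u

namespace Pool.Agent.Helper91

theorem isPushout_quotient {P P' : Type u} [CommRing P] [CommRing P'] (θ : P →+* P')
    (J : Ideal P) :
    IsPushout (CommRingCat.ofHom θ) (CommRingCat.ofHom (Ideal.Quotient.mk J))
      (CommRingCat.ofHom (Ideal.Quotient.mk (J.map θ)))
      (CommRingCat.ofHom (Ideal.quotientMap (J.map θ) θ Ideal.le_comap_map)) := by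
  refine ⟨⟨?_⟩, ⟨PushoutCocone.IsColimit.mk _ (fun s => CommRingCat.ofHom
    (Ideal.Quotient.lift (J.map θ) s.inl.hom ?_)) ?_ ?_ ?_⟩⟩
  · ext x
    simp
  · intro a ha
    have h1 : J.map θ ≤ RingHom.ker s.inl.hom := by
      rw [Ideal.map_le_iff_le_comap]
      intro x hx
      rw [Ideal.mem_comap, RingHom.mem_ker]
      have h2 := s.condition
      have h3 := congrArg (fun m => m.hom x) h2
      simp only [CommRingCat.hom_comp, RingHom.comp_apply, CommRingCat.hom_ofHom] at h3
      rw [h3, Ideal.Quotient.eq_zero_iff_mem.mpr hx, map_zero]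
    exact h1 ha
  · intro s
    ext x
    simp
  · intro s
    ext x
    have h2 := s.condition
    have h3 := congrArg (fun m => m.hom x) h2
    simpa using h3
  · intro s m h1 h2
    ext x
    have h3 := congrArg (fun m => m.hom x) h1
    simpa using h3

section

variable (k R A : Type u) [CommRing k] [CommRing R] [Algebra k R] [CommRing A] [Algebra k A]

/-- The structure morphism `Spec A ⟶ Spec k`. -/
noncomputable abbrev str : Spec (CommRingCat.of A) ⟶ Spec (CommRingCat.of k) :=
  Spec.map (CommRingCat.ofHom (algebraMap k A))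

variable {k R A}

/-- The closed subscheme of `Spec A ×_k Spec R` defined by an ideal of `A ⊗ R`. -/
noncomputable def closedIm (J : Ideal (A ⊗[k] R)) :
    Spec (CommRingCat.of ((A ⊗[k] R) ⧸ J)) ⟶ pullback (str k A) (str k R) :=
  Spec.map (CommRingCat.ofHom (Ideal.Quotient.mk J)) ≫ (pullbackSpecIso k A R).inv

instance (J : Ideal (A ⊗[k] R)) : IsClosedImmersion (closedIm J) := by
  unfold closedIm
  have := IsClosedImmersion.spec_of_surjective (CommRingCat.ofHom (Ideal.Quotient.mk J))
    Ideal.Quotient.mk_surjective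
  infer_instance

/-- The ideal sheaf on `Spec A ×_k Spec R` defined by an ideal of `A ⊗ R`. -/
noncomputable def sheafOf (J : Ideal (A ⊗[k] R)) :
    (pullback (str k A) (str k R)).IdealSheafData := (closedIm J).ker

theorem closedIm_fst (J : Ideal (A ⊗[k] R)) :
    closedIm J ≫ pullback.fst _ _ =
      Spec.map (CommRingCat.ofHom (algebraMap A ((A ⊗[k] R) ⧸ J))) := by
  rw [closedIm, Category.assoc, pullbackSpecIso_inv_fst', ← Spec.map_comp]
  rfl

theorem exists_sheafOf_eq (I : (pullback (str k A) (str k R)).IdealSheafData) :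
    ∃ J : Ideal (A ⊗[k] R), sheafOf J = I := by
  have h : IsClosedImmersion (I.subschemeι ≫ (pullbackSpecIso k A R).hom) := inferInstance
  rw [IsClosedImmersion.Spec_iff] at h
  obtain ⟨J, e, he⟩ := h
  refine ⟨J, ?_⟩
  have h1 : I.subschemeι = e.hom ≫ closedIm J := by
    rw [closedIm, ← Category.assoc, ← he, Category.assoc, Iso.hom_inv_id, Category.comp_id]
  rw [← I.ker_subschemeι, h1, Scheme.Hom.ker_comp_of_isIso]
  rfl

theorem le_of_sheafOf_le {J J' : Ideal (A ⊗[k] R)} (h : sheafOf J ≤ sheafOf J') : J ≤ J' := by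
  have h1 := IsClosedImmersion.lift_fac (closedIm J) (closedIm J') h
  obtain ⟨w, hw⟩ := Spec.map_surjective (IsClosedImmersion.lift (closedIm J) (closedIm J') h)
  rw [← hw, closedIm, closedIm, ← Category.assoc, cancel_mono, ← Spec.map_comp] at h1
  have h2 := Spec.map_injective h1
  intro x hx
  have h3 := congrArg (fun m => m.hom x) h2
  simp only [CommRingCat.hom_comp, RingHom.comp_apply, CommRingCat.hom_ofHom] at h3
  rw [← Ideal.Quotient.eq_zero_iff_mem, ← h3, Ideal.Quotient.eq_zero_iff_mem.mpr hx, map_zero]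

theorem sheafOf_injective : Function.Injective (sheafOf (k := k) (R := R) (A := A)) :=
  fun _ _ h => le_antisymm (le_of_sheafOf_le h.le) (le_of_sheafOf_le h.ge)

theorem comap_ker_of_isPullback {Z Z' X Y : Scheme.{u}} {i : Z ⟶ Y} {f : X ⟶ Y} {i' : Z' ⟶ X}
    {v : Z' ⟶ Z} (h : IsPullback i' v f i) [IsClosedImmersion i] : i.ker.comap f = i'.ker := by
  rw [← Scheme.IdealSheafData.ker_fst_of_isClosedImmersion, ← h.isoPullback_hom_fst,
    Scheme.Hom.ker_comp_of_isIso]

variable {A' : Type u} [CommRing A'] [Algebra k A']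

theorem str_comp (ψ : A →ₐ[k] A') :
    Spec.map (CommRingCat.ofHom ψ.toRingHom) ≫ str k A = str k A' := by
  rw [str, str, ← Spec.map_comp, ← CommRingCat.ofHom_comp]
  congr 2
  exact ψ.comp_algebraMap

theorem pullbackSpecIso_inv_baseMap (ψ : A →ₐ[k] A') :
    (pullbackSpecIso k A' R).inv ≫ baseMap (str k R) (str k A) (str k A')
      (Spec.map (CommRingCat.ofHom ψ.toRingHom)) (str_comp ψ) =
    Spec.map (CommRingCat.ofHom (Algebra.TensorProduct.map ψ (AlgHom.id k R)).toRingHom) ≫
      (pullbackSpecIso k A R).inv := by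
  apply pullback.hom_ext
  · rw [Category.assoc, baseMap_fst, pullbackSpecIso_inv_fst_assoc, Category.assoc,
      pullbackSpecIso_inv_fst, ← Spec.map_comp, ← Spec.map_comp, ← CommRingCat.ofHom_comp,
      ← CommRingCat.ofHom_comp]
    congr 2
  · rw [Category.assoc, baseMap_snd, pullbackSpecIso_inv_snd, Category.assoc,
      pullbackSpecIso_inv_snd, ← Spec.map_comp, ← CommRingCat.ofHom_comp]
    congr 2
    ext x
    simp

theorem comap_sheafOf (ψ : A →ₐ[k] A') (J : Ideal (A ⊗[k] R)) :
    (sheafOf J).comap (baseMap (str k R) (str k A) (str k A')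
      (Spec.map (CommRingCat.ofHom ψ.toRingHom)) (str_comp ψ)) =
    sheafOf (J.map (Algebra.TensorProduct.map ψ (AlgHom.id k R))) := by
  have h1 := isPullback_SpecMap_of_isPushout _ _ _ _
    (isPushout_quotient (Algebra.TensorProduct.map ψ (AlgHom.id k R)).toRingHom J)
  have h2 : IsPullback (closedIm (J.map (Algebra.TensorProduct.map ψ (AlgHom.id k R)).toRingHom))
      (Spec.map (CommRingCat.ofHom (Ideal.quotientMap
        (J.map (Algebra.TensorProduct.map ψ (AlgHom.id k R)).toRingHom)
        (Algebra.TensorProduct.map ψ (AlgHom.id k R)).toRingHom Ideal.le_comap_map)))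
      (baseMap (str k R) (str k A) (str k A')
        (Spec.map (CommRingCat.ofHom ψ.toRingHom)) (str_comp ψ)) (closedIm J) := by
    refine IsPullback.of_iso h1 (Iso.refl _) (pullbackSpecIso k A' R).symm (Iso.refl _)
      (pullbackSpecIso k A R).symm ?_ ?_ ?_ ?_
    · rw [Iso.refl_hom, Category.id_comp]
      rfl
    · exact (Category.comp_id _).trans (Category.id_comp _).symm
    · rw [Iso.symm_hom, Iso.symm_hom, pullbackSpecIso_inv_baseMap]
    · rw [Iso.refl_hom, Category.id_comp]
      rfl
  exact comap_ker_of_isPullback h2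

end

end Pool.Agent.Helper91
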