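import Mathlib
import Pool.Agent.Helper91.Chart

/-!
Spreading out of bases of a finite flat family.
-/

namespace Pool.Agent.Helper91

open TensorProduct

universe u v w

variable {k : Type u} {R : Type v} [CommRing k] [CommRing R] [Algebra k R] {d : ℕ}

/-- An algebra `B` over `A` which is finite locally free of rank `d` as a module. -/
structure IsFamilyAlg (d : ℕ) (A : Type*) (B : Type*) [CommRing A] [CommRing B] [Algebra A B] :
    Prop where
  finite : Module.Finite A B
  flat : Module.Flat A B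
  fp : Algebra.FinitePresentation A B
  rank : ∀ p : PrimeSpectrum A, Module.rankAtStalk (R := A) B p = d

section

variable (φ : Fin d → R) {A : Type w} [CommRing A] [Algebra k A] (J : Ideal (A ⊗[k] R))

/-- The map `A ^ d → (A ⊗ R) / J` defined by `φ`. -/
noncomputable def basisMap : (Fin d → A) →ₗ[A] ((A ⊗[k] R) ⧸ J) :=
  Fintype.linearCombination A (fun j => Ideal.Quotient.mk J ((1 : A) ⊗ₜ[k] φ j))

theorem smul_mk (a : A) (x : A ⊗[k] R) :
    a • Ideal.Quotient.mk J x = Ideal.Quotient.mk J (a • x) := rfl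

theorem basisMap_apply (a : Fin d → A) :
    basisMap φ J a = Ideal.Quotient.mk J (∑ j, a j ⊗ₜ[k] φ j) := by
  rw [basisMap, Fintype.linearCombination_apply, map_sum]
  refine Finset.sum_congr rfl fun j _ => ?_
  rw [smul_mk, TensorProduct.smul_tmul', smul_eq_mul, mul_one]

theorem isBasisMod_iff : IsBasisMod φ J ↔ Function.Bijective (basisMap φ J) := by
  rw [IsBasisMod]
  have : (fun a : Fin d → A => Ideal.Quotient.mk J (∑ j, a j ⊗ₜ[k] φ j)) = basisMap φ J := by
    funext a
    rw [basisMap_apply]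
  rw [this]

/-- The cokernel of the map `A ^ d → (A ⊗ R) / J`. -/
abbrev Coker := ((A ⊗[k] R) ⧸ J) ⧸ LinearMap.range (basisMap φ J)

variable {J φ}

theorem isBasisMod_of_surjective (hJ : IsFamilyAlg d A ((A ⊗[k] R) ⧸ J))
    (hs : Function.Surjective (basisMap φ J)) : IsBasisMod φ J := by
  rw [isBasisMod_iff]
  have := hJ.finite
  have := hJ.flat
  refine Module.bijective_of_surjective_of_rankAtStalk_eq hs fun m hm => ?_
  have : Nontrivial A := by
    by_contra h
    rw [not_nontrivial_iff_subsingleton] at h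
    exact hm.ne_top (Subsingleton.elim _ _)
  rw [hJ.rank, Module.rankAtStalk_eq_finrank_of_free]
  simp

theorem IsBasisMod.isFamilyAlg (h : IsBasisMod φ J) : IsFamilyAlg d A ((A ⊗[k] R) ⧸ J) := by
  rw [isBasisMod_iff] at h
  let e := LinearEquiv.ofBijective _ h
  have h1 : Module.Free A ((A ⊗[k] R) ⧸ J) := Module.Free.of_equiv e
  have h2 : Module.Finite A ((A ⊗[k] R) ⧸ J) := Module.Finite.equiv e
  have h3 : Module.FinitePresentation A ((A ⊗[k] R) ⧸ J) :=
    Module.finitePresentation_of_projective _ _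
  refine ⟨h2, inferInstance, inferInstance, fun p => ?_⟩
  have : Nontrivial A := p.nontrivial
  rw [Module.rankAtStalk_eq_finrank_of_free, ← e.finrank_eq]
  simp

theorem surjective_of_smul_mem {A' : Type w} [CommRing A'] [Algebra k A'] (ψ : A →ₐ[k] A')
    (a : A) (ha : IsUnit (ψ a)) (hM : ∀ m : Coker φ J, a • m = 0) :
    Function.Surjective
      (basisMap φ (J.map (Algebra.TensorProduct.map ψ (AlgHom.id k R)))) := by
  set J' := J.map (Algebra.TensorProduct.map ψ (AlgHom.id k R)) with hJ'
  rw [← LinearMap.range_eq_top, eq_top_iff]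
  rintro y -
  obtain ⟨y, rfl⟩ := Ideal.Quotient.mk_surjective y
  induction y using TensorProduct.induction_on with
  | zero => rw [map_zero]; exact zero_mem _
  | add y z hy hz => rw [map_add]; exact add_mem hy hz
  | tmul c r =>
    have h1 := hM (Submodule.Quotient.mk (Ideal.Quotient.mk J ((1 : A) ⊗ₜ[k] r)))
    rw [← Submodule.Quotient.mk_smul, Submodule.Quotient.mk_eq_zero] at h1
    obtain ⟨b, hb⟩ := h1
    rw [basisMap_apply, smul_mk, Ideal.Quotient.eq] at hb
    have h2 := Ideal.mem_map_of_mem (Algebra.TensorProduct.map ψ (AlgHom.id k R)) hb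
    rw [← hJ', map_sub, map_sum] at h2
    have h3 : (Algebra.TensorProduct.map ψ (AlgHom.id k R)) (a • ((1 : A) ⊗ₜ[k] r)) =
        ψ a ⊗ₜ[k] r := by
      rw [TensorProduct.smul_tmul', smul_eq_mul, mul_one, Algebra.TensorProduct.map_tmul]
      rfl
    have h4 : ∀ j, (Algebra.TensorProduct.map ψ (AlgHom.id k R)) (b j ⊗ₜ[k] φ j) =
        ψ (b j) ⊗ₜ[k] φ j := fun j => by
      rw [Algebra.TensorProduct.map_tmul]
      rfl
    simp only [h3, h4] at h2
    obtain ⟨w, hw⟩ := ha
    refine ⟨fun j => c * (↑w⁻¹ * ψ (b j)), ?_⟩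
    rw [basisMap_apply, Ideal.Quotient.eq]
    have h5 := J'.mul_mem_left ((c * ↑w⁻¹) ⊗ₜ[k] (1 : R)) h2
    convert h5 using 1
    rw [mul_sub, Finset.mul_sum]
    congr 1
    · refine Finset.sum_congr rfl fun j _ => ?_
      rw [Algebra.TensorProduct.tmul_mul_tmul, one_mul, mul_assoc]
    · rw [Algebra.TensorProduct.tmul_mul_tmul, one_mul, ← hw, mul_assoc, Units.inv_mul, mul_one]

theorem exists_smul_eq_zero (hJ : IsFamilyAlg d A ((A ⊗[k] R) ⧸ J)) (p : PrimeSpectrum A)
    (hp : p ∉ Module.support A (Coker φ J)) : ∃ a ∉ p.asIdeal, ∀ m : Coker φ J, a • m = 0 := by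
  have := hJ.finite
  rw [Module.mem_support_iff_of_finite, SetLike.not_le_iff_exists] at hp
  obtain ⟨a, ha, hap⟩ := hp
  exact ⟨a, hap, fun m => Module.mem_annihilator.mp ha m⟩

theorem exists_notMem_support (hJ : IsFamilyAlg d A ((A ⊗[k] R) ⧸ J)) (p : PrimeSpectrum A) :
    ∃ φ : Fin d → R, p ∉ Module.support A (Coker φ J) := by
  have h1 := hJ.finite
  have h2 := hJ.flat
  let K := p.asIdeal.ResidueField
  let B := (A ⊗[k] R) ⧸ J
  let g : R → K ⊗[A] B := fun r => (1 : K) ⊗ₜ[A] (Ideal.Quotient.mk J ((1 : A) ⊗ₜ[k] r))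
  have hspan : Submodule.span K (Set.range g) = ⊤ := by
    rw [eq_top_iff]
    rintro y -
    induction y using TensorProduct.induction_on with
    | zero => exact zero_mem _
    | add y z hy hz => exact add_mem hy hz
    | tmul c b =>
      obtain ⟨b, rfl⟩ := Ideal.Quotient.mk_surjective b
      induction b using TensorProduct.induction_on with
      | zero => rw [map_zero, TensorProduct.tmul_zero]; exact zero_mem _
      | add y z hy hz => rw [map_add, TensorProduct.tmul_add]; exact add_mem hy hz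
      | tmul a r =>
        have : c ⊗ₜ[A] (Ideal.Quotient.mk J (a ⊗ₜ[k] r)) = (a • c) • g r := by
          simp only [g]
          rw [TensorProduct.smul_tmul', smul_eq_mul, mul_one, TensorProduct.smul_tmul, smul_mk,
            TensorProduct.smul_tmul', smul_eq_mul, mul_one]
        rw [this]
        exact Submodule.smul_mem _ _ (Submodule.subset_span (Set.mem_range_self r))
  obtain ⟨b, hb, hbspan, hbli⟩ := exists_linearIndependent K (Set.range g)
  rw [hspan] at hbspan
  let bas := Module.Basis.mk hbli (by rw [Subtype.range_coe, hbspan])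
  have hfin : Module.Finite K (K ⊗[A] B) := inferInstance
  have hbfin : Finite b := Module.Finite.finite_basis bas
  have := Fintype.ofFinite b
  have hcard : Fintype.card b = d := by
    rw [← Module.finrank_eq_card_basis bas, ← hJ.rank p, Module.rankAtStalk_eq]
  let e := (Fintype.equivFinOfCardEq hcard).symm
  choose ρ hρ using fun x : b => hb x.2
  refine ⟨fun j => ρ (e j), ?_⟩
  rw [Module.mem_support_iff_nontrivial_residueField_tensorProduct,
    not_nontrivial_iff_subsingleton]
  let q := (LinearMap.range (basisMap (fun j => ρ (e j)) J)).mkQ.baseChange K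
  have hq : Function.Surjective q := by
    have := LinearMap.lTensor_surjective K (Submodule.mkQ_surjective
      (LinearMap.range (basisMap (fun j => ρ (e j)) J)))
    exact this
  have hq0 : q = 0 := by
    refine bas.ext fun x => ?_
    rw [Module.Basis.mk_apply, LinearMap.zero_apply, ← hρ x]
    simp only [g, q, LinearMap.baseChange_tmul]
    have : (LinearMap.range (basisMap (fun j => ρ (e j)) J)).mkQ
        (Ideal.Quotient.mk J ((1 : A) ⊗ₜ[k] ρ x)) = 0 := by
      rw [Submodule.mkQ_apply, Submodule.Quotient.mk_eq_zero]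
      refine ⟨Pi.single (e.symm x) 1, ?_⟩
      rw [basisMap, Fintype.linearCombination_apply_single, one_smul, Equiv.apply_symm_apply]
    rw [this, TensorProduct.tmul_zero]
  refine ⟨fun x y => ?_⟩
  obtain ⟨x, rfl⟩ := hq x
  obtain ⟨y, rfl⟩ := hq y
  rw [hq0, LinearMap.zero_apply, LinearMap.zero_apply]

theorem notMem_support_of_isBasisMod {A' : Type w} [CommRing A'] [Algebra k A']
    (ψ : A →ₐ[k] A') (hJ : IsFamilyAlg d A ((A ⊗[k] R) ⧸ J))
    (h : IsBasisMod φ (J.map (Algebra.TensorProduct.map ψ (AlgHom.id k R))))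
    (p' : Ideal A') [p'.IsPrime] (p : PrimeSpectrum A) (hp : p.asIdeal = p'.comap ψ.toRingHom) :
    p ∉ Module.support A (Coker φ J) := by
  have h1 := hJ.finite
  rw [Module.mem_support_iff_nontrivial_residueField_tensorProduct]
  intro hn
  let K := p.asIdeal.ResidueField
  let K' := p'.ResidueField
  let τ : K →+* K' := Ideal.ResidueField.map p.asIdeal p' ψ.toRingHom hp
  have hτ : ∀ a : A, τ (algebraMap A K a) = algebraMap A' K' (ψ a) := fun a =>
    Ideal.ResidueField.map_algebraMap ..
  obtain ⟨m, hm⟩ := exists_ne (0 : K ⊗[A] Coker φ J)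
  obtain ⟨f, hf⟩ : ∃ f : Module.Dual K (K ⊗[A] Coker φ J), f m ≠ 0 := by
    by_contra hc
    push Not at hc
    exact hm ((Module.forall_dual_apply_eq_zero_iff K m).mp hc)
  have hfA : ∀ (a : A) (y : K ⊗[A] Coker φ J), f (a • y) = algebraMap A K a * f y := by
    intro a y
    rw [← algebraMap_smul K a y, map_smul, smul_eq_mul]
  -- the class of an element in the cokernel
  let cl : A ⊗[k] R → K ⊗[A] Coker φ J := fun x =>
    (1 : K) ⊗ₜ[A] (Submodule.Quotient.mk (Ideal.Quotient.mk J x))
  have cl_add : ∀ x y, cl (x + y) = cl x + cl y := by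
    intro x y
    simp only [cl]
    rw [map_add, Submodule.Quotient.mk_add, TensorProduct.tmul_add]
  have cl_smul : ∀ (a : A) x, cl (a • x) = a • cl x := by
    intro a x
    simp only [cl]
    rw [← smul_mk, Submodule.Quotient.mk_smul, TensorProduct.tmul_smul]
  have cl_zero : ∀ x ∈ J, cl x = 0 := by
    intro x hx
    simp only [cl]
    rw [Ideal.Quotient.eq_zero_iff_mem.mpr hx, Submodule.Quotient.mk_zero, TensorProduct.tmul_zero]
  let lam : R →ₗ[k] K' :=
    { toFun := fun r => τ (f (cl ((1 : A) ⊗ₜ[k] r)))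
      map_add' := fun r s => by
        rw [TensorProduct.tmul_add, cl_add, map_add, map_add]
      map_smul' := fun c r => by
        have h2 : (1 : A) ⊗ₜ[k] (c • r) = (algebraMap k A c) • ((1 : A) ⊗ₜ[k] r) := by
          rw [TensorProduct.tmul_smul, TensorProduct.smul_tmul', TensorProduct.smul_tmul',
            smul_eq_mul, mul_one, Algebra.smul_def, mul_one]
        rw [h2, cl_smul, hfA, map_mul, hτ, RingHom.id_apply, Algebra.smul_def, AlgHom.commutes,
          IsScalarTower.algebraMap_apply k A' K'] }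
  have hlam : ∀ r, lam r = τ (f (cl ((1 : A) ⊗ₜ[k] r))) := fun r => rfl
  let Lam : A' ⊗[k] R →ₗ[A'] K' := lam.liftBaseChange A'
  have hLam : ∀ a r, Lam (a ⊗ₜ[k] r) = algebraMap A' K' a * lam r := by
    intro a r
    simp only [Lam, LinearMap.liftBaseChange_tmul]
    rw [Algebra.smul_def]
  set θ := Algebra.TensorProduct.map ψ (AlgHom.id k R) with hθ
  have c1 : ∀ x : A ⊗[k] R, Lam (θ x) = τ (f (cl x)) := by
    intro x
    induction x using TensorProduct.induction_on with
    | zero =>
      rw [cl_zero 0 (zero_mem _)]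
      simp
    | add x y hx hy => rw [map_add, map_add, hx, hy, cl_add, map_add, map_add]
    | tmul a r =>
      have h2 : a ⊗ₜ[k] r = a • ((1 : A) ⊗ₜ[k] r) := by
        rw [TensorProduct.smul_tmul', smul_eq_mul, mul_one]
      rw [hθ, Algebra.TensorProduct.map_tmul, hLam, hlam, h2, cl_smul, hfA, map_mul, hτ]
      rfl
  have c2 : ∀ x ∈ J, ∀ z : A' ⊗[k] R, Lam (z * θ x) = 0 := by
    intro x hx z
    induction z using TensorProduct.induction_on with
    | zero => rw [zero_mul, map_zero]
    | add z w hz hw => rw [add_mul, map_add, hz, hw, add_zero]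
    | tmul a r =>
      have h2 : (a ⊗ₜ[k] r) * θ x = a • θ (((1 : A) ⊗ₜ[k] r) * x) := by
        rw [map_mul, hθ, Algebra.TensorProduct.map_tmul, map_one, ← smul_mul_assoc,
          TensorProduct.smul_tmul', smul_eq_mul, mul_one]
        rfl
      rw [h2, map_smul, c1, cl_zero _ (J.mul_mem_left _ hx), map_zero, map_zero, smul_zero]
  have c3 : ∀ y ∈ J.map θ, ∀ z : A' ⊗[k] R, Lam (z * y) = 0 := by
    intro y hy
    refine Submodule.span_induction (p := fun y _ => ∀ z : A' ⊗[k] R, Lam (z * y) = 0)
      ?_ ?_ ?_ ?_ hy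
    · rintro _ ⟨x, hx, rfl⟩ z
      exact c2 x hx z
    · intro z
      rw [mul_zero, map_zero]
    · intro x y _ _ hx hy z
      rw [mul_add, map_add, hx, hy, add_zero]
    · intro w y _ hy z
      rw [smul_eq_mul, ← mul_assoc]
      exact hy _
  have c4 : ∀ j, lam (φ j) = 0 := by
    intro j
    rw [hlam]
    have : cl ((1 : A) ⊗ₜ[k] φ j) = 0 := by
      simp only [cl]
      have h2 : (Submodule.Quotient.mk (Ideal.Quotient.mk J ((1 : A) ⊗ₜ[k] φ j)) : Coker φ J)
          = 0 := by
        rw [Submodule.Quotient.mk_eq_zero]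
        refine ⟨Pi.single j 1, ?_⟩
        rw [basisMap, Fintype.linearCombination_apply_single, one_smul]
      rw [h2, TensorProduct.tmul_zero]
    rw [this, map_zero, map_zero]
  have c5 : ∀ r, lam r = 0 := by
    intro r
    obtain ⟨a, ha⟩ := h.2 (Ideal.Quotient.mk _ ((1 : A') ⊗ₜ[k] r))
    have h2 : (∑ j, a j ⊗ₜ[k] φ j) - (1 : A') ⊗ₜ[k] r ∈ J.map θ := by
      rw [← Ideal.Quotient.eq]
      exact ha
    have h3 := c3 _ h2 1
    rw [one_mul, map_sub, map_sum, hLam, map_one, one_mul, sub_eq_zero] at h3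
    rw [← h3]
    refine Finset.sum_eq_zero fun j _ => ?_
    rw [hLam, c4, mul_zero]
  apply hf
  clear hf hm
  have c6 : ∀ r, f (cl ((1 : A) ⊗ₜ[k] r)) = 0 := fun r =>
    (map_eq_zero_iff τ τ.injective).mp ((hlam r).symm.trans (c5 r))
  have c7 : ∀ x, f (cl x) = 0 := by
    intro x
    induction x using TensorProduct.induction_on with
    | zero => rw [cl_zero 0 (zero_mem _), map_zero]
    | add x y hx hy => rw [cl_add, map_add, hx, hy, add_zero]
    | tmul a r =>
      have h2 : a ⊗ₜ[k] r = a • ((1 : A) ⊗ₜ[k] r) := by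
        rw [TensorProduct.smul_tmul', smul_eq_mul, mul_one]
      rw [h2, cl_smul, hfA, c6, mul_zero]
  induction m using TensorProduct.induction_on with
  | zero => rw [map_zero]
  | add x y hx hy => rw [map_add, hx, hy, add_zero]
  | tmul c x =>
    obtain ⟨x, rfl⟩ := Submodule.Quotient.mk_surjective _ x
    obtain ⟨x, rfl⟩ := Ideal.Quotient.mk_surjective x
    have : c ⊗ₜ[A] (Submodule.Quotient.mk (Ideal.Quotient.mk J x) : Coker φ J) = c • cl x := by
      simp only [cl]
      rw [TensorProduct.smul_tmul', smul_eq_mul, mul_one]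
    rw [this, map_smul, c7, smul_zero]

end

end Pool.Agent.Helper91
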