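import Mathlib
import Pool.Agent.Helper91.HilbAffine
import Pool.Agent.Helper91.Spread
import Pool.Agent.Helper91.ChartRing

/-!
Families of length `d` over a scheme are locally pulled back from the charts.
-/

open CategoryTheory Limits AlgebraicGeometry Opposite TensorProduct

universe u

namespace Pool.Agent.Helper91

section general

variable {C S : Scheme.{u}} (f : C ⟶ S) {T T' T'' : Scheme.{u}} {g : T ⟶ S} {g' : T' ⟶ S}
  {g'' : T'' ⟶ S}

theorem comap_comap (u : T' ⟶ T) (hu : u ≫ g = g') (v : T'' ⟶ T') (hv : v ≫ g' = g'')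
    (Z : (pullback g f).IdealSheafData) :
    (Z.comap (baseMap f g g' u hu)).comap (baseMap f g' g'' v hv) =
      Z.comap (baseMap f g g'' (v ≫ u) (by rw [Category.assoc, hu, hv])) := by
  rw [← Scheme.IdealSheafData.comap_comp, baseMap_comp]

theorem comap_congr {u u' : T' ⟶ T} (h : u = u') (hu : u ≫ g = g') (hu' : u' ≫ g = g')
    (Z : (pullback g f).IdealSheafData) :
    Z.comap (baseMap f g g' u hu) = Z.comap (baseMap f g g' u' hu') := by
  subst h
  rfl

end general

theorem isFiniteLocallyFree_iso_comp {d : ℕ} {Z Z' T : Scheme.{u}} (e : Z' ⟶ Z) [IsIso e]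
    (p : Z ⟶ T) : IsFiniteLocallyFree d (e ≫ p) ↔ IsFiniteLocallyFree d p := by
  constructor
  · intro h
    refine IsFiniteLocallyFree.of_isPullback (u := 𝟙 T) (v := inv e) (p := e ≫ p) ?_ h
    exact IsPullback.of_horiz_isIso ⟨by simp⟩
  · intro h
    refine IsFiniteLocallyFree.of_isPullback (u := 𝟙 T) (v := e) (p := p) ?_ h
    exact IsPullback.of_horiz_isIso ⟨by simp⟩

theorem isFiniteLocallyFree_SpecMap_iff {d : ℕ} {A B : Type u} [CommRing A] [CommRing B]
    [Algebra A B] : IsFiniteLocallyFree d (Spec.map (CommRingCat.ofHom (algebraMap A B))) ↔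
      IsFamilyAlg d A B := by
  have e1 : IsFinite (Spec.map (CommRingCat.ofHom (algebraMap A B))) ↔ Module.Finite A B := by
    rw [IsFinite.SpecMap_iff, CommRingCat.hom_ofHom, RingHom.finite_algebraMap]
  have e2 : Flat (Spec.map (CommRingCat.ofHom (algebraMap A B))) ↔ Module.Flat A B := by
    rw [Flat.SpecMap_iff, CommRingCat.hom_ofHom, RingHom.flat_algebraMap_iff]
  have e3 : LocallyOfFinitePresentation (Spec.map (CommRingCat.ofHom (algebraMap A B))) ↔
      Algebra.FinitePresentation A B := by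
    rw [HasRingHomProperty.Spec_iff (P := @LocallyOfFinitePresentation), CommRingCat.hom_ofHom,
      RingHom.finitePresentation_algebraMap]
  constructor
  · rintro ⟨h1, h2, h3, h4⟩
    rw [e1] at h1
    rw [e2] at h2
    rw [e3] at h3
    refine ⟨h1, h2, h3, fun p => ?_⟩
    rw [← Scheme.Hom.finrank_SpecMap_algebraMap]
    exact h4 p
  · rintro ⟨h1, h2, h3, h4⟩
    refine ⟨e1.mpr h1, e2.mpr h2, e3.mpr h3, fun p => ?_⟩
    exact (Scheme.Hom.finrank_SpecMap_algebraMap A B p).trans (h4 p)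

section

variable {k R A : Type u} [CommRing k] [CommRing R] [Algebra k R] [CommRing A] [Algebra k A]
  {d : ℕ}

theorem isFamily_sheafOf_iff (J : Ideal (A ⊗[k] R)) :
    IsFamily d (str k R) (str k A) (sheafOf J) ↔ IsFamilyAlg d A ((A ⊗[k] R) ⧸ J) := by
  have h : closedIm J ≫ pullback.fst (str k A) (str k R) =
      (closedIm J).toImage ≫ ((closedIm J).imageι ≫ pullback.fst (str k A) (str k R)) := by
    rw [← Category.assoc, Scheme.Hom.toImage_imageι]
  rw [← isFiniteLocallyFree_SpecMap_iff, ← closedIm_fst, IsFamily, sheafOf, h]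
  exact (isFiniteLocallyFree_iso_comp _ _).symm

theorem exists_algebra {A : Type u} [CommRing A]
    (g : Spec (CommRingCat.of A) ⟶ Spec (CommRingCat.of k)) :
    ∃ _ : Algebra k A, g = str k A := by
  obtain ⟨s, hs⟩ := Spec.map_surjective g
  exact ⟨s.hom.toAlgebra, hs.symm⟩

theorem exists_algHom {A' : Type u} [CommRing A'] [Algebra k A']
    (w : Spec (CommRingCat.of A') ⟶ Spec (CommRingCat.of A)) (h : w ≫ str k A = str k A') :
    ∃ ψ : A →ₐ[k] A', w = Spec.map (CommRingCat.ofHom ψ.toRingHom) := by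
  obtain ⟨s, rfl⟩ := Spec.map_surjective w
  rw [str, str, ← Spec.map_comp] at h
  have h2 := Spec.map_injective h
  refine ⟨⟨s.hom, fun c => ?_⟩, ?_⟩
  · exact congrArg (fun m => m.hom c) h2
  · rfl

theorem IsFamilyAlg.map {A' : Type u} [CommRing A'] [Algebra k A'] (ψ : A →ₐ[k] A')
    {J : Ideal (A ⊗[k] R)} (h : IsFamilyAlg d A ((A ⊗[k] R) ⧸ J)) :
    IsFamilyAlg d A' ((A' ⊗[k] R) ⧸ J.map (Algebra.TensorProduct.map ψ (AlgHom.id k R))) := by
  rw [← isFamily_sheafOf_iff] at h ⊢
  rw [← comap_sheafOf]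
  exact h.comap _ _

/-- The universal family over the chart of `φ`. -/
noncomputable def univSheaf (φ : Fin d → R) :
    (pullback (str k (ChartRing k φ)) (str k R)).IdealSheafData :=
  sheafOf (ChartRing.univ k φ).ideal

theorem isFamily_univSheaf (φ : Fin d → R) :
    IsFamily d (str k R) (str k (ChartRing k φ)) (univSheaf (k := k) φ) := by
  rw [univSheaf, isFamily_sheafOf_iff]
  exact (ChartRing.univ k φ).isBasisMod.isFamilyAlg

/-- Near the point `t` the family `Z` is pulled back from the chart of `φ`. -/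
def HasChart (φ : Fin d → R) {T : Scheme.{u}} (g : T ⟶ Spec (CommRingCat.of k))
    (Z : (pullback g (str k R)).IdealSheafData) (t : T) : Prop :=
  ∃ (V : Scheme.{u}) (g' : V ⟶ Spec (CommRingCat.of k)) (j : V ⟶ T) (hj : j ≫ g = g')
    (v : V ⟶ Spec (CommRingCat.of (ChartRing k φ))) (hv : v ≫ str k (ChartRing k φ) = g'),
    IsOpenImmersion j ∧ t ∈ Set.range j ∧
    Z.comap (baseMap (str k R) g g' j hj) =
      (univSheaf φ).comap (baseMap (str k R) (str k (ChartRing k φ)) g' v hv)

theorem HasChart.of_openImmersion {φ : Fin d → R} {T T₀ : Scheme.{u}}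
    {g : T ⟶ Spec (CommRingCat.of k)} {g₀ : T₀ ⟶ Spec (CommRingCat.of k)}
    {Z : (pullback g (str k R)).IdealSheafData} (i : T₀ ⟶ T) [IsOpenImmersion i]
    (hi : i ≫ g = g₀) (t₀ : T₀) (h : HasChart φ g₀ (Z.comap (baseMap (str k R) g g₀ i hi)) t₀) :
    HasChart φ g Z (i t₀) := by
  obtain ⟨V, g', j, hj, v, hv, h1, ⟨y, hy⟩, h3⟩ := h
  refine ⟨V, g', j ≫ i, by rw [Category.assoc, hi, hj], v, hv, inferInstance,
    ⟨y, by rw [Scheme.Hom.comp_apply, hy]⟩, ?_⟩
  rw [← h3, comap_comap]

theorem hasChart_of_notMem_support {φ : Fin d → R} {J : Ideal (A ⊗[k] R)}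
    (hJ : IsFamilyAlg d A ((A ⊗[k] R) ⧸ J)) (p : PrimeSpectrum A)
    (hp : p ∉ Module.support A (Coker φ J)) : HasChart φ (str k A) (sheafOf J) p := by
  obtain ⟨a, ha, hM⟩ := exists_smul_eq_zero hJ p hp
  let A' := Localization.Away a
  let ψ : A →ₐ[k] A' := IsScalarTower.toAlgHom k A A'
  have hψ : ψ.toRingHom = algebraMap A A' := rfl
  have h1 := surjective_of_smul_mem (φ := φ) (J := J) ψ a
    (IsLocalization.Away.algebraMap_isUnit a) hM
  have h2 := isBasisMod_of_surjective (hJ.map ψ) h1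
  obtain ⟨π, hπ⟩ := exists_chartPt _ h2
  refine ⟨Spec (CommRingCat.of A'), str k A', Spec.map (CommRingCat.ofHom ψ.toRingHom),
    str_comp ψ, Spec.map (CommRingCat.ofHom (ChartRing.lift π).toRingHom),
    str_comp (ChartRing.lift π), ?_, ?_, ?_⟩
  · rw [hψ]
    infer_instance
  · rw [hψ]
    have := PrimeSpectrum.localization_away_comap_range A' a
    have h3 : p ∈ Set.range (PrimeSpectrum.comap (algebraMap A A')) := by
      rw [this]
      exact ha
    exact h3
  · rw [univSheaf, comap_sheafOf, comap_sheafOf, ← ChartPt.map_ideal, ChartRing.map_univ_lift, hπ]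

theorem exists_affine_nhd (T : Scheme.{u}) (t : T) :
    ∃ (A : Type u) (_ : CommRing A) (i : Spec (CommRingCat.of A) ⟶ T)
      (t₀ : Spec (CommRingCat.of A)), IsOpenImmersion i ∧ i t₀ = t := by
  obtain ⟨t₀, ht₀⟩ := T.affineOpenCover.covers t
  exact ⟨T.affineOpenCover.X (T.affineOpenCover.idx t), inferInstance,
    T.affineOpenCover.f (T.affineOpenCover.idx t), t₀,
    inferInstanceAs (IsOpenImmersion (T.affineOpenCover.f (T.affineOpenCover.idx t))), ht₀⟩

/-- Locally, every family is pulled back from some chart. -/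
theorem exists_hasChart {T : Scheme.{u}} {g : T ⟶ Spec (CommRingCat.of k)}
    {Z : (pullback g (str k R)).IdealSheafData} (hZ : IsFamily d (str k R) g Z) (t : T) :
    ∃ φ : Fin d → R, HasChart φ g Z t := by
  obtain ⟨A, _, i, t₀, hi, rfl⟩ := exists_affine_nhd T t
  obtain ⟨_, hA⟩ := exists_algebra (k := k) (i ≫ g)
  have hZ' := hZ.comap i hA
  obtain ⟨J, hJ⟩ := exists_sheafOf_eq (Z.comap (baseMap (str k R) g (str k A) i hA))
  rw [← hJ, isFamily_sheafOf_iff] at hZ'
  obtain ⟨φ, hφ⟩ := exists_notMem_support hZ' t₀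
  refine ⟨φ, HasChart.of_openImmersion i hA t₀ ?_⟩
  rw [← hJ]
  exact hasChart_of_notMem_support hZ' t₀ hφ

/-- The locus where `φ` is a basis is open, and on it the family is pulled back from the chart. -/
theorem hasChart_of_comap_eq {T T' : Scheme.{u}} {g : T ⟶ Spec (CommRingCat.of k)}
    {g' : T' ⟶ Spec (CommRingCat.of k)}
    {Z : (pullback g (str k R)).IdealSheafData} (hZ : IsFamily d (str k R) g Z)
    {φ : Fin d → R} (w : T' ⟶ T) (hw : w ≫ g = g')
    (v : T' ⟶ Spec (CommRingCat.of (ChartRing k φ))) (hv : v ≫ str k (ChartRing k φ) = g')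
    (h : Z.comap (baseMap (str k R) g g' w hw) =
      (univSheaf φ).comap (baseMap (str k R) (str k (ChartRing k φ)) g' v hv)) (t' : T') :
    HasChart φ g Z (w t') := by
  obtain ⟨A, _, i, t₀, hi, hit⟩ := exists_affine_nhd T (w t')
  obtain ⟨t₁, ht₁, ht₁'⟩ := Scheme.Pullback.exists_preimage_pullback t' t₀ hit.symm
  obtain ⟨A', _, i₁, t₂, hi₁, hit₁⟩ := exists_affine_nhd (pullback w i) t₁
  obtain ⟨_, hA⟩ := exists_algebra (k := k) (i ≫ g)
  obtain ⟨_, hA'⟩ := exists_algebra (k := k) ((i₁ ≫ pullback.fst w i) ≫ g')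
  have hw1 : (i₁ ≫ pullback.snd w i) ≫ str k A = str k A' := by
    rw [← hA, ← hA', ← hw, Category.assoc, Category.assoc, pullback.condition_assoc]
  obtain ⟨ψ, hψ⟩ := exists_algHom (k := k) (i₁ ≫ pullback.snd w i) hw1
  have hv1 : ((i₁ ≫ pullback.fst w i) ≫ v) ≫ str k (ChartRing k φ) = str k A' := by
    rw [Category.assoc, hv, hA']
  obtain ⟨χ, hχ⟩ := exists_algHom (k := k) ((i₁ ≫ pullback.fst w i) ≫ v) hv1
  have hZ' := hZ.comap i hA
  obtain ⟨J, hJ⟩ := exists_sheafOf_eq (Z.comap (baseMap (str k R) g (str k A) i hA))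
  rw [← hJ, isFamily_sheafOf_iff] at hZ'
  have key : J.map (Algebra.TensorProduct.map ψ (AlgHom.id k R)) =
      ((ChartRing.univ k φ).map χ).ideal := by
    apply sheafOf_injective
    rw [ChartPt.map_ideal, ← comap_sheafOf, ← comap_sheafOf, hJ, comap_comap]
    have e1 : Spec.map (CommRingCat.ofHom ψ.toRingHom) ≫ i = (i₁ ≫ pullback.fst w i) ≫ w := by
      rw [← hψ, Category.assoc, Category.assoc, pullback.condition]
    rw [comap_congr _ e1 _ (by rw [Category.assoc, hw, hA']),
      ← comap_comap (str k R) w hw (i₁ ≫ pullback.fst w i) hA', h, comap_comap]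
    exact comap_congr _ hχ _ _ _
  have hnot : (Spec.map (CommRingCat.ofHom ψ.toRingHom) t₂) ∉ Module.support A (Coker φ J) := by
    refine notMem_support_of_isBasisMod ψ hZ' ?_ t₂.asIdeal _ rfl
    rw [key]
    exact ChartPt.isBasisMod _
  have e2 : Spec.map (CommRingCat.ofHom ψ.toRingHom) t₂ = t₀ := by
    rw [← hψ, Scheme.Hom.comp_apply, hit₁, ht₁']
  rw [e2] at hnot
  rw [← hit]
  refine HasChart.of_openImmersion i hA t₀ ?_
  rw [← hJ]
  exact hasChart_of_notMem_support hZ' t₀ hnot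

theorem chart_hom_ext_aux {T : Scheme.{u}} {g : T ⟶ Spec (CommRingCat.of k)} {φ : Fin d → R}
    {v v' : T ⟶ Spec (CommRingCat.of (ChartRing k φ))} (hv : v ≫ str k (ChartRing k φ) = g)
    (hv' : v' ≫ str k (ChartRing k φ) = g)
    (h : (univSheaf φ).comap (baseMap (str k R) (str k (ChartRing k φ)) g v hv) =
      (univSheaf φ).comap (baseMap (str k R) (str k (ChartRing k φ)) g v' hv'))
    {A : Type u} [CommRing A] (i : Spec (CommRingCat.of A) ⟶ T) : i ≫ v = i ≫ v' := by
  obtain ⟨_, hA⟩ := exists_algebra (k := k) (i ≫ g)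
  obtain ⟨χ, hχ⟩ := exists_algHom (k := k) (i ≫ v) (by rw [Category.assoc, hv, hA])
  obtain ⟨χ', hχ'⟩ := exists_algHom (k := k) (i ≫ v') (by rw [Category.assoc, hv', hA])
  have key : ((ChartRing.univ k φ).map χ).ideal = ((ChartRing.univ k φ).map χ').ideal := by
    apply sheafOf_injective
    rw [ChartPt.map_ideal, ChartPt.map_ideal, ← comap_sheafOf, ← comap_sheafOf]
    have h2 := congrArg (fun z => z.comap (baseMap (str k R) g _ i hA)) h
    simp only [comap_comap] at h2
    rw [← univSheaf, comap_congr (str k R) hχ.symm _ (by rw [Category.assoc, hv, hA]),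
      comap_congr (str k R) hχ'.symm _ (by rw [Category.assoc, hv', hA])]
    exact h2
  have := ChartRing.hom_ext_ideal key
  rw [hχ, hχ', this]

/-- Morphisms to a chart are determined by the families they define. -/
theorem chart_hom_ext {T : Scheme.{u}} {g : T ⟶ Spec (CommRingCat.of k)} {φ : Fin d → R}
    {v v' : T ⟶ Spec (CommRingCat.of (ChartRing k φ))} (hv : v ≫ str k (ChartRing k φ) = g)
    (hv' : v' ≫ str k (ChartRing k φ) = g)
    (h : (univSheaf φ).comap (baseMap (str k R) (str k (ChartRing k φ)) g v hv) =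
      (univSheaf φ).comap (baseMap (str k R) (str k (ChartRing k φ)) g v' hv')) : v = v' := by
  refine T.affineOpenCover.openCover.hom_ext _ _ fun i => ?_
  exact chart_hom_ext_aux hv hv' h (T.affineOpenCover.f i)

end

end Pool.Agent.Helper91
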