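import Mathlib
import Pool.Agent.Helper91.HilbLocal

/-!
The charts are open subschemes of the Hilbert scheme and cover it.
-/

open CategoryTheory Limits AlgebraicGeometry Opposite TensorProduct

universe u

namespace Pool.Agent.Helper91

/-- A monomorphism with local sections near its image is an open immersion. -/
theorem isOpenImmersion_of_sections {X Y : Scheme.{u}} (f : X ⟶ Y) [Mono f]
    (h : ∀ x : X, ∃ (V : Scheme.{u}) (v : V ⟶ X), IsOpenImmersion (v ≫ f) ∧
      f x ∈ Set.range (v ≫ f)) : IsOpenImmersion f := by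
  have key : ∀ {V : Scheme.{u}} (v : V ⟶ X), IsOpenImmersion (v ≫ f) → IsOpenImmersion v ∧
      ∀ (x : X) (y : V), f x = (v ≫ f) y → v y = x := by
    intro V v hv
    have hpb : IsPullback v (𝟙 V) f (v ≫ f) := by
      refine ⟨⟨by simp⟩, ⟨PullbackCone.IsLimit.mk _ (fun s => s.snd) ?_ ?_ ?_⟩⟩
      · intro s
        rw [← cancel_mono f, s.condition, Category.assoc]
      · intro s
        simp
      · intro s m h1 h2
        simpa using h2
    refine ⟨MorphismProperty.of_isPullback (P := @IsOpenImmersion) hpb.flip hv, ?_⟩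
    intro x y hxy
    obtain ⟨z, hz1, hz2⟩ := Scheme.Pullback.exists_preimage_pullback x y hxy
    have h1 : pullback.fst f (v ≫ f) = pullback.snd f (v ≫ f) ≫ v := by
      rw [← cancel_mono f, pullback.condition, Category.assoc]
    rw [← hz1, ← hz2, ← Scheme.Hom.comp_apply, h1]
  choose V v hv hx using h
  have hinj : Function.Injective f := by
    intro x x' hxx
    obtain ⟨y, hy⟩ := hx x
    have h1 := (key (v x) (hv x)).2 x y hy.symm
    have h2 := (key (v x) (hv x)).2 x' y (hxx ▸ hy.symm)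
    rw [← h1, ← h2]
  have hopen : IsOpenMap f := by
    intro U hU
    have : f '' U = ⋃ x : U, (v x.1 ≫ f) '' ((v x.1) ⁻¹' U) := by
      ext z
      simp only [Set.mem_image, Set.mem_iUnion, Set.mem_preimage]
      constructor
      · rintro ⟨x, hxU, rfl⟩
        obtain ⟨y, hy⟩ := hx x
        have h1 := (key (v x) (hv x)).2 x y hy.symm
        exact ⟨⟨x, hxU⟩, y, by rw [h1]; exact hxU, hy⟩
      · rintro ⟨x, y, hy, rfl⟩
        exact ⟨v x y, hy, by rw [Scheme.Hom.comp_apply]⟩
    rw [this]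
    refine isOpen_iUnion fun x => ?_
    exact (hv x.1).base_open.isOpenMap _ (hU.preimage (v x.1).continuous)
  rw [IsOpenImmersion.iff_isIso_stalkMap]
  refine ⟨.of_continuous_injective_isOpenMap f.continuous hinj hopen, fun x => ?_⟩
  obtain ⟨y, hy⟩ := hx x
  have h1 := (key (v x) (hv x)).2 x y hy.symm
  have h2 := (key (v x) (hv x)).1
  have h3 := hv x
  have h4 : f.stalkMap (v x y) ≫ (v x).stalkMap y = (v x ≫ f).stalkMap y :=
    (Scheme.Hom.stalkMap_comp (v x) f y).symm
  have h5 : IsIso (f.stalkMap (v x y) ≫ (v x).stalkMap y) := by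
    rw [h4]
    exact (IsOpenImmersion.iff_isIso_stalkMap.mp h3).2 y
  have h6 : IsIso (f.stalkMap (v x y)) := IsIso.of_isIso_comp_right _ ((v x).stalkMap y)
  rwa [h1] at h6

variable {k R : Type u} [CommRing k] [CommRing R] [Algebra k R] {d : ℕ}

/-- The charts of a Hilbert scheme of `d` points. -/
theorem IsHilbertScheme.exists_charts {H : Scheme.{u}} {h : H ⟶ Spec (CommRingCat.of k)}
    (hH : IsHilbertScheme d (str k R) h) :
    ∃ u : ∀ φ : Fin d → R, Spec (CommRingCat.of (ChartRing k φ)) ⟶ H,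
      (∀ φ, IsOpenImmersion (u φ)) ∧ (∀ φ, u φ ≫ h = str k (ChartRing k φ)) ∧
      ∀ x : H, ∃ φ y, u φ y = x := by
  obtain ⟨𝒵, h𝒵, huniv⟩ := hH
  choose u hu huu using fun φ : Fin d → R =>
    huniv _ (str k (ChartRing k φ)) (univSheaf φ) (isFamily_univSheaf φ)
  choose hu1 hu2 using hu
  have hmono : ∀ φ, Mono (u φ) := by
    intro φ
    refine ⟨fun {T} v v' hvv => ?_⟩
    have hv' : v' ≫ str k (ChartRing k φ) = v ≫ str k (ChartRing k φ) := by
      rw [← hu1 φ, ← Category.assoc, ← hvv, Category.assoc]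
    refine chart_hom_ext (g := v ≫ str k (ChartRing k φ)) rfl hv' ?_
    rw [← hu2 φ, comap_comap, comap_comap]
    exact comap_congr _ hvv _ _ _
  have hsec : ∀ {φ : Fin d → R} {x : H}, HasChart φ h 𝒵 x →
      ∃ (V : Scheme.{u}) (v : V ⟶ Spec (CommRingCat.of (ChartRing k φ))),
        IsOpenImmersion (v ≫ u φ) ∧ x ∈ Set.range (v ≫ u φ) := by
    rintro φ x ⟨V, g', j, hj, v, hv, h1, h2, h3⟩
    have h4 : v ≫ u φ = j := by
      refine (huniv V g' _ (h𝒵.comap j hj)).unique ⟨?_, ?_⟩ ⟨hj, rfl⟩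
      · rw [Category.assoc, hu1, hv]
      · rw [h3, ← comap_comap _ (u φ) (hu1 φ) v hv, hu2]
    subst h4
    exact ⟨V, v, h1, h2⟩
  refine ⟨u, fun φ => ?_, hu1, fun x => ?_⟩
  · have := hmono φ
    refine isOpenImmersion_of_sections (u φ) fun x => ?_
    refine hsec ?_
    refine hasChart_of_comap_eq h𝒵 (u φ) (hu1 φ) (𝟙 _) (Category.id_comp _) ?_ x
    rw [hu2, baseMap_id, Scheme.IdealSheafData.comap_id]
  · obtain ⟨φ, hφ⟩ := exists_hasChart h𝒵 x
    obtain ⟨V, v, h1, ⟨y, hy⟩⟩ := hsec hφ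
    exact ⟨φ, v y, by rw [← hy, Scheme.Hom.comp_apply]⟩

end Pool.Agent.Helper91
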