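import Mathlib

/-!
Gluing of quasi-coherent ideal sheaves.
-/

open CategoryTheory Limits AlgebraicGeometry Opposite TopologicalSpace

universe u

namespace Pool.Agent.Helper91

section small

variable {Y : Scheme.{u}}

/-- Restriction of sections. -/
noncomputable def res {U V : Y.affineOpens} (h : U ≤ V) : Γ(Y, V) →+* Γ(Y, U) :=
  (Y.presheaf.map (homOfLE (show U.1 ≤ V.1 from h)).op).hom

theorem res_res {U V W : Y.affineOpens} (h : U ≤ V) (h' : V ≤ W) (x : Γ(Y, W)) :
    res h (res h' x) = res (h.trans h') x := by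
  rw [res, res, res, ← CommRingCat.comp_apply, ← Functor.map_comp]
  rfl

theorem res_self {U : Y.affineOpens} (h : U ≤ U) (x : Γ(Y, U)) : res h x = x := by
  have : (homOfLE (show U.1 ≤ U.1 from h)).op = 𝟙 (op U.1) := rfl
  rw [res, this, CategoryTheory.Functor.map_id]
  rfl

theorem basic_le {U : Y.affineOpens} (g : Γ(Y, U)) : Y.affineBasicOpen g ≤ U := Y.basicOpen_le g

theorem basic_res_le {U V : Y.affineOpens} (h : U ≤ V) (g : Γ(Y, V)) :
    Y.affineBasicOpen (res h g) ≤ Y.affineBasicOpen g := by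
  change Y.basicOpen (res h g) ≤ Y.basicOpen g
  rw [res, Scheme.basicOpen_res]
  exact inf_le_right

theorem exists_pow_mul_mem (V : Y.affineOpens) (g x : Γ(Y, V)) (I : Ideal Γ(Y, V))
    (h : res (basic_le g) x ∈ I.map (res (basic_le g))) :
    ∃ n : ℕ, g ^ n * x ∈ I := by
  have := V.2.isLocalization_basicOpen g
  have h1 := (IsLocalization.algebraMap_mem_map_algebraMap_iff (Submonoid.powers g)
    Γ(Y, Y.basicOpen g) I x).mp h
  obtain ⟨_, ⟨n, rfl⟩, hn⟩ := h1
  exact ⟨n, hn⟩

/-- A family of ideals on a basis of small affine open subsets. -/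
structure SmallData (Y : Scheme.{u}) where
  /-- the small affine opens -/
  P : Y.affineOpens → Prop
  mono : ∀ {U V : Y.affineOpens}, U ≤ V → P V → P U
  cov : ∀ y : Y, ∃ U : Y.affineOpens, P U ∧ y ∈ U.1
  /-- the ideals -/
  J : ∀ U : Y.affineOpens, Ideal Γ(Y, U)
  map_J : ∀ {U V : Y.affineOpens} (h : U ≤ V), P V → (J V).map (res h) = J U

namespace SmallData

variable (D : SmallData Y)

/-- The sections over `U` which locally lie in the given ideals. -/
noncomputable def glued (U : Y.affineOpens) : Ideal Γ(Y, U) :=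
  ⨅ (V : Y.affineOpens) (h : V ≤ U) (_ : D.P V), (D.J V).comap (res h)

theorem mem_glued {U : Y.affineOpens} {s : Γ(Y, U)} :
    s ∈ D.glued U ↔ ∀ (V : Y.affineOpens) (h : V ≤ U), D.P V → res h s ∈ D.J V := by
  simp only [glued, Ideal.mem_iInf, Ideal.mem_comap]

theorem glued_eq {U : Y.affineOpens} (hU : D.P U) : D.glued U = D.J U := by
  apply le_antisymm
  · intro s hs
    have := D.mem_glued.mp hs U le_rfl hU
    rwa [res_self] at this
  · intro s hs
    rw [D.mem_glued]
    intro V h hV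
    rw [← D.map_J h hU]
    exact Ideal.mem_map_of_mem _ hs

theorem res_mem_glued {U V : Y.affineOpens} (h : V ≤ U) {s : Γ(Y, U)} (hs : s ∈ D.glued U) :
    res h s ∈ D.glued V := by
  rw [D.mem_glued] at hs ⊢
  intro W hW hPW
  rw [res_res]
  exact hs W (hW.trans h) hPW

theorem mem_glued_of_span {U : Y.affineOpens} (T : Set Γ(Y, U)) (hT : Ideal.span T = ⊤)
    (hP : ∀ g ∈ T, D.P (Y.affineBasicOpen g)) {s : Γ(Y, U)}
    (hs : ∀ g ∈ T, res (basic_le g) s ∈ D.J (Y.affineBasicOpen g)) : s ∈ D.glued U := by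
  rw [D.mem_glued]
  intro V hVU hV
  have hTV : Ideal.span ((res hVU) '' T) = ⊤ := by
    rw [← Ideal.map_span, hT, Ideal.map_top]
  refine Submodule.mem_of_span_eq_top_of_smul_pow_mem _ _ hTV _ ?_
  rintro ⟨_, g, hg, rfl⟩
  let W : Y.affineOpens := Y.affineBasicOpen (res hVU g)
  have hWV : W ≤ V := basic_le _
  have hWg : W ≤ Y.affineBasicOpen g := basic_res_le hVU g
  have h1 : res hWV (res hVU s) ∈ (D.J V).map (res hWV) := by
    rw [D.map_J hWV hV, ← D.map_J hWg (hP g hg), res_res]
    have h2 := Ideal.mem_map_of_mem (res hWg) (hs g hg)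
    rwa [res_res] at h2
  obtain ⟨n, hn⟩ := exists_pow_mul_mem V (res hVU g) (res hVU s) (D.J V) h1
  exact ⟨n, hn⟩

theorem exists_small_basicOpen (U : Y.affineOpens) (y : Y) (hy : y ∈ U.1) :
    ∃ g : Γ(Y, U), D.P (Y.affineBasicOpen g) ∧ y ∈ Y.basicOpen g := by
  obtain ⟨V, hV, hyV⟩ := D.cov y
  obtain ⟨g, hg, hyg⟩ := U.2.exists_basicOpen_le (V := V.1) ⟨y, hyV⟩ hy
  exact ⟨g, D.mono (U := Y.affineBasicOpen g) (V := V) hg hV, hyg⟩

theorem map_glued_basicOpen (U : Y.affineOpens) (f : Γ(Y, U)) :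
    (D.glued U).map (res (basic_le f)) = D.glued (Y.affineBasicOpen f) := by
  have hloc := U.2.isLocalization_basicOpen f
  apply le_antisymm
  · rw [Ideal.map_le_iff_le_comap]
    intro s hs
    exact D.res_mem_glued (V := Y.affineBasicOpen f) (basic_le f) hs
  · intro t ht
    -- a finite cover by small basic opens
    choose g hgP hg using fun y : U.1 => D.exists_small_basicOpen U y.1 y.2
    have hspan : Ideal.span (Set.range g) = ⊤ := by
      rw [← U.2.self_le_iSup_basicOpen_iff]
      intro y hy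
      exact Opens.mem_iSup.mpr ⟨⟨_, ⟨y, hy⟩, rfl⟩, hg ⟨y, hy⟩⟩
    obtain ⟨T, hTg, hT⟩ := (Ideal.span_eq_top_iff_finite _).mp hspan
    obtain ⟨⟨s, ⟨_, m, rfl⟩⟩, hs⟩ := IsLocalization.surj (S := Γ(Y, Y.basicOpen f))
      (Submonoid.powers f) t
    replace hs : t * res (basic_le f) f ^ m = res (basic_le f) s := by
      rw [← map_pow]
      exact hs
    have key : ∀ g ∈ T, ∃ n : ℕ, res (basic_le g) (f ^ n * s) ∈
        D.J (Y.affineBasicOpen g) := by
      intro g hg
      have hPg : D.P (Y.affineBasicOpen g) := by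
        obtain ⟨y, rfl⟩ := hTg hg
        exact hgP y
      let V := Y.affineBasicOpen g
      let W : Y.affineOpens := Y.affineBasicOpen (res (basic_le g) f)
      have hWV : W ≤ V := basic_le _
      have hWf : W ≤ Y.affineBasicOpen f := basic_res_le (basic_le g) f
      have h1 : res hWV (res (basic_le g) s) ∈ (D.J V).map (res hWV) := by
        rw [D.map_J hWV hPg, res_res]
        have h2 : res hWf t ∈ D.J W := (D.mem_glued.mp ht) W hWf (D.mono hWV hPg)
        have h3 : res hWf (res (basic_le f) s) ∈ D.J W := by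
          rw [← hs, map_mul]
          exact Ideal.mul_mem_right _ _ h2
        rwa [res_res] at h3
      obtain ⟨n, hn⟩ := exists_pow_mul_mem V (res (basic_le g) f)
        (res (basic_le g) s) (D.J V) h1
      refine ⟨n, ?_⟩
      rw [map_mul, map_pow]
      exact hn
    choose! n hn using key
    let n₀ := T.sup n
    have h1 : f ^ n₀ * s ∈ D.glued U := by
      refine D.mem_glued_of_span (T : Set Γ(Y, U)) hT (fun g hg => ?_) fun g hg => ?_
      · obtain ⟨y, rfl⟩ := hTg hg
        exact hgP y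
      · have h2 := hn g hg
        have h3 : f ^ n₀ * s = f ^ (n₀ - n g) * (f ^ n g * s) := by
          rw [← mul_assoc, ← pow_add, Nat.sub_add_cancel (Finset.le_sup hg)]
        rw [h3, map_mul]
        exact Ideal.mul_mem_left _ _ h2
    have h2 := Ideal.mem_map_of_mem (res (basic_le f)) h1
    rw [map_mul, map_pow, ← hs] at h2
    have hunit : IsUnit (res (basic_le f) f) :=
      IsLocalization.Away.algebraMap_isUnit (S := Γ(Y, Y.basicOpen f)) f
    rw [mul_comm t, ← mul_assoc, ← pow_add] at h2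
    exact ((Ideal.unit_mul_mem_iff_mem _ (hunit.pow _)).mp h2)

/-- The glued ideal sheaf. -/
noncomputable def sheaf : Y.IdealSheafData where
  ideal := D.glued
  map_ideal_basicOpen := D.map_glued_basicOpen

theorem sheaf_ideal {U : Y.affineOpens} (hU : D.P U) : D.sheaf.ideal U = D.J U := D.glued_eq hU

end SmallData

end small

section cover

variable {X Y : Scheme.{u}}

theorem res_mem_iff (I : X.IdealSheafData) {U V : X.affineOpens} (h : V ≤ U) (h' : U ≤ V)
    (x : Γ(X, U)) : res h x ∈ I.ideal V ↔ x ∈ I.ideal U := by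
  obtain rfl : U = V := le_antisymm h' h
  rw [res_self]

/-- The preimage of an affine open contained in the range of an open immersion. -/
noncomputable def pre (f : X ⟶ Y) [IsOpenImmersion f] (U : Y.affineOpens)
    (hU : U.1 ≤ f.opensRange) : X.affineOpens := ⟨f ⁻¹ᵁ U.1, U.2.preimage_of_isOpenImmersion f hU⟩

/-- The image of an affine open. -/
noncomputable def img (f : X ⟶ Y) [IsOpenImmersion f] (W : X.affineOpens) : Y.affineOpens :=
  ⟨f ''ᵁ W.1, IsAffineOpen.image_of_isOpenImmersion W.2 f⟩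

/-- The map on sections. -/
noncomputable def appR (f : X ⟶ Y) [IsOpenImmersion f] (U : Y.affineOpens)
    (hU : U.1 ≤ f.opensRange) : Γ(Y, U) →+* Γ(X, pre f U hU) := (f.app U.1).hom

/-- The inverse map on sections. -/
noncomputable def invR (f : X ⟶ Y) [IsOpenImmersion f] (W : X.affineOpens) :
    Γ(X, W) →+* Γ(Y, img f W) := (f.appIso W.1).inv.hom

theorem appR_bijective (f : X ⟶ Y) [IsOpenImmersion f] (U : Y.affineOpens)
    (hU : U.1 ≤ f.opensRange) : Function.Bijective (appR f U hU) := by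
  have h1 : IsIso (f.app U.1) := f.isIso_app U.1 hU
  exact ConcreteCategory.bijective_of_isIso (f.app U.1)

theorem pre_le {f : X ⟶ Y} [IsOpenImmersion f] {U V : Y.affineOpens} (h : U ≤ V)
    (hU : U.1 ≤ f.opensRange) (hV : V.1 ≤ f.opensRange) : pre f U hU ≤ pre f V hV :=
  f.preimage_mono h

theorem appR_comp_res (f : X ⟶ Y) [IsOpenImmersion f] {U V : Y.affineOpens} (h : U ≤ V)
    (hU : U.1 ≤ f.opensRange) (hV : V.1 ≤ f.opensRange) :
    (appR f U hU).comp (res h) = (res (pre_le h hU hV)).comp (appR f V hV) :=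
  congrArg CommRingCat.Hom.hom (f.naturality (homOfLE (show U.1 ≤ V.1 from h)).op)

theorem mem_comap_ideal (f : X ⟶ Y) [IsOpenImmersion f] (I : Y.IdealSheafData)
    (W : X.affineOpens) (x : Γ(X, W)) :
    x ∈ (I.comap f).ideal W ↔ invR f W x ∈ I.ideal (img f W) := by
  rw [Scheme.IdealSheafData.ideal_comap_of_isOpenImmersion]
  rfl

theorem img_pre_le (f : X ⟶ Y) [IsOpenImmersion f] (U : Y.affineOpens)
    (hU : U.1 ≤ f.opensRange) : img f (pre f U hU) ≤ U := f.image_preimage_le U.1

theorem le_img_pre (f : X ⟶ Y) [IsOpenImmersion f] (U : Y.affineOpens)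
    (hU : U.1 ≤ f.opensRange) : U ≤ img f (pre f U hU) := by
  have : f ''ᵁ f ⁻¹ᵁ U.1 = U.1 := Opens.ext (Set.image_preimage_eq_of_subset hU)
  exact this.ge

theorem invR_appR (f : X ⟶ Y) [IsOpenImmersion f] (U : Y.affineOpens)
    (hU : U.1 ≤ f.opensRange) (x : Γ(Y, U)) :
    invR f (pre f U hU) (appR f U hU x) = res (img_pre_le f U hU) x :=
  congrArg (fun m => CommRingCat.Hom.hom m x) (f.app_appIso_inv U.1)

theorem img_le (f : X ⟶ Y) [IsOpenImmersion f] (W : X.affineOpens) :
    (img f W).1 ≤ f.opensRange := f.image_le_opensRange W.1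

theorem pre_img_le (f : X ⟶ Y) [IsOpenImmersion f] (W : X.affineOpens) :
    pre f (img f W) (img_le f W) ≤ W := (f.preimage_image_eq W.1).le

theorem le_pre_img (f : X ⟶ Y) [IsOpenImmersion f] (W : X.affineOpens) :
    W ≤ pre f (img f W) (img_le f W) := (f.preimage_image_eq W.1).ge

theorem appR_invR (f : X ⟶ Y) [IsOpenImmersion f] (W : X.affineOpens) (x : Γ(X, W)) :
    appR f (img f W) (img_le f W) (invR f W x) = res (pre_img_le f W) x :=
  congrArg (fun m => CommRingCat.Hom.hom m x) (f.appIso_inv_app W.1)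

/-- Transport of the ideals of an ideal sheaf along an open immersion. -/
noncomputable def push (f : X ⟶ Y) [IsOpenImmersion f] (I : X.IdealSheafData) (U : Y.affineOpens)
    (hU : U.1 ≤ f.opensRange) : Ideal Γ(Y, U) := (I.ideal (pre f U hU)).comap (appR f U hU)

theorem map_push (f : X ⟶ Y) [IsOpenImmersion f] (I : X.IdealSheafData) {U V : Y.affineOpens}
    (h : U ≤ V) (hU : U.1 ≤ f.opensRange) (hV : V.1 ≤ f.opensRange) :
    (push f I V hV).map (res h) = push f I U hU := by
  have b1 := appR_bijective f U hU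
  have b2 := appR_bijective f V hV
  have h4 : ((push f I V hV).map (res h)).map (appR f U hU) = I.ideal (pre f U hU) := by
    rw [Ideal.map_map, appR_comp_res f h hU hV, ← Ideal.map_map, push,
      Ideal.map_comap_of_surjective _ b2.2]
    exact I.map_ideal (pre_le h hU hV)
  have h5 : push f I U hU = (I.ideal (pre f U hU)).comap (appR f U hU) := rfl
  rw [h5, ← h4, Ideal.comap_map_of_bijective _ b1]

theorem push_comap {P : Scheme.{u}} (p : P ⟶ X) (f : X ⟶ Y) [IsOpenImmersion p]
    [IsOpenImmersion f] (I : X.IdealSheafData) (U : Y.affineOpens)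
    (hU : U.1 ≤ (p ≫ f).opensRange) (hU' : U.1 ≤ f.opensRange) :
    push (p ≫ f) (I.comap p) U hU = push f I U hU' := by
  have hpU : (pre f U hU').1 ≤ p.opensRange := by
    intro x hx
    obtain ⟨y, hy⟩ := hU hx
    refine ⟨y, f.isOpenEmbedding.injective ?_⟩
    rw [← hy, Scheme.Hom.comp_apply]
  ext x
  rw [push, push, Ideal.mem_comap, Ideal.mem_comap]
  have h1 : pre (p ≫ f) U hU = pre p (pre f U hU') hpU := rfl
  have h2 : appR (p ≫ f) U hU x = appR p (pre f U hU') hpU (appR f U hU' x) := by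
    have := Scheme.Hom.comp_app p f U.1
    exact congrArg (fun m => CommRingCat.Hom.hom m x) this
  rw [h2]
  change appR p (pre f U hU') hpU (appR f U hU' x) ∈
    (I.comap p).ideal (pre p (pre f U hU') hpU) ↔ _
  rw [mem_comap_ideal, invR_appR, res_mem_iff]
  exact le_img_pre p _ hpU

theorem comap_eq_of_ideal_eq (f : X ⟶ Y) [IsOpenImmersion f] (I : X.IdealSheafData)
    (K : Y.IdealSheafData) (h : ∀ (U : Y.affineOpens) (hU : U.1 ≤ f.opensRange),
      K.ideal U = push f I U hU) : K.comap f = I := by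
  ext1
  funext W
  ext x
  rw [mem_comap_ideal, h _ (img_le f W), push, Ideal.mem_comap, appR_invR, res_mem_iff]
  exact le_pre_img f W

theorem ideal_eq_push (f : X ⟶ Y) [IsOpenImmersion f] (K : Y.IdealSheafData)
    (U : Y.affineOpens) (hU : U.1 ≤ f.opensRange) : K.ideal U = push f (K.comap f) U hU := by
  ext x
  rw [push, Ideal.mem_comap, mem_comap_ideal, invR_appR, res_mem_iff]
  exact le_img_pre f U hU

theorem push_congr {f f' : X ⟶ Y} [IsOpenImmersion f] [IsOpenImmersion f'] (h : f = f')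
    (I : X.IdealSheafData) (U : Y.affineOpens) (hU : U.1 ≤ f.opensRange)
    (hU' : U.1 ≤ f'.opensRange) : push f I U hU = push f' I U hU' := by
  subst h
  rfl

end cover

/-- Ideal sheaves are determined by their restrictions to an open cover. -/
theorem ideal_ext_of_cover {Y : Scheme.{u}} {ι : Type*} {X : ι → Scheme.{u}} (f : ∀ i, X i ⟶ Y)
    [∀ i, IsOpenImmersion (f i)] (hf : ∀ y : Y, ∃ i, y ∈ Set.range (f i))
    {K K' : Y.IdealSheafData} (h : ∀ i, K.comap (f i) = K'.comap (f i)) : K = K' := by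
  refine Scheme.IdealSheafData.ext_of_iSup_eq_top
    (ι := {U : Y.affineOpens // ∃ i, U.1 ≤ (f i).opensRange}) (fun U => U.1) ?_ ?_
  · rw [eq_top_iff]
    intro y _
    obtain ⟨i, hi⟩ := hf y
    obtain ⟨W, hW, hyW, hWi⟩ := Opens.isBasis_iff_nbhd.mp (Y.isBasis_affineOpens)
      (U := (f i).opensRange) hi
    rw [Opens.mem_iSup]
    exact ⟨⟨⟨W, hW⟩, i, hWi⟩, hyW⟩
  · rintro ⟨U, i, hi⟩
    rw [ideal_eq_push (f i) K U hi, ideal_eq_push (f i) K' U hi, h]

/-- Gluing of ideal sheaves on an open cover. -/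
theorem exists_glue {Y : Scheme.{u}} {ι : Type*} {X : ι → Scheme.{u}} (f : ∀ i, X i ⟶ Y)
    [∀ i, IsOpenImmersion (f i)] (hf : ∀ y : Y, ∃ i, y ∈ Set.range (f i))
    (I : ∀ i, (X i).IdealSheafData)
    (hI : ∀ i j, (I i).comap (pullback.fst (f i) (f j)) = (I j).comap (pullback.snd (f i) (f j))) :
    ∃ K : Y.IdealSheafData, ∀ i, K.comap (f i) = I i := by
  have hindep : ∀ i j (U : Y.affineOpens) (hi : U.1 ≤ (f i).opensRange)
      (hj : U.1 ≤ (f j).opensRange), push (f i) (I i) U hi = push (f j) (I j) U hj := by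
    intro i j U hi hj
    have h1 : U.1 ≤ (pullback.fst (f i) (f j) ≫ f i).opensRange := by
      intro y hy
      obtain ⟨a, ha⟩ := hi hy
      obtain ⟨b, hb⟩ := hj hy
      obtain ⟨z, hz1, hz2⟩ := Scheme.Pullback.exists_preimage_pullback a b (ha.trans hb.symm)
      exact ⟨z, by rw [Scheme.Hom.comp_apply, hz1, ha]⟩
    rw [← push_comap (pullback.fst (f i) (f j)) (f i) (I i) U h1 hi, hI i j]
    have h2 : U.1 ≤ (pullback.snd (f i) (f j) ≫ f j).opensRange := by
      intro y hy
      obtain ⟨z, hz⟩ := h1 hy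
      refine ⟨z, ?_⟩
      rw [← pullback.condition]
      exact hz
    rw [← push_comap (pullback.snd (f i) (f j)) (f j) (I j) U h2 hj]
    exact push_congr pullback.condition _ _ _ _
  let J : ∀ U : Y.affineOpens, Ideal Γ(Y, U) := fun U =>
    ⨅ (i) (hi : U.1 ≤ (f i).opensRange), push (f i) (I i) U hi
  have hJ : ∀ i (U : Y.affineOpens) (hi : U.1 ≤ (f i).opensRange),
      J U = push (f i) (I i) U hi := by
    intro i U hi
    apply le_antisymm
    · exact iInf₂_le i hi
    · exact le_iInf₂ fun j hj => (hindep i j U hi hj).le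
  let D : SmallData Y :=
    { P := fun U => ∃ i, U.1 ≤ (f i).opensRange
      mono := fun {U V} h hV => by
        obtain ⟨i, hi⟩ := hV
        exact ⟨i, le_trans (show U.1 ≤ V.1 from h) hi⟩
      cov := fun y => by
        obtain ⟨i, hi⟩ := hf y
        obtain ⟨W, hW, hyW, hWi⟩ := Opens.isBasis_iff_nbhd.mp (Y.isBasis_affineOpens)
          (U := (f i).opensRange) hi
        exact ⟨⟨W, hW⟩, ⟨i, hWi⟩, hyW⟩
      J := J
      map_J := fun {U V} h hV => by
        obtain ⟨i, hi⟩ := hV
        rw [hJ i V hi, hJ i U (le_trans (show U.1 ≤ V.1 from h) hi)]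
        exact map_push (f i) (I i) h _ hi }
  refine ⟨D.sheaf, fun i => comap_eq_of_ideal_eq (f i) (I i) _ fun U hU => ?_⟩
  rw [D.sheaf_ideal ⟨i, hU⟩]
  exact hJ i U hU

end Pool.Agent.Helper91
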