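import Mathlib
import Pool.Agent.Helper91.HilbLocal
import Pool.Agent.Helper91.IdealGlue

/-!
The functor of families is a Zariski sheaf.
-/

open CategoryTheory Limits AlgebraicGeometry Opposite TensorProduct

universe u

namespace Pool.Agent.Helper91

variable {C S : Scheme.{u}} {d : ℕ} {f : C ⟶ S}

variable (d f) in
/-- Families of length `d` over the scheme `T`. -/
structure Fam (T : Scheme.{u}) : Type u where
  /-- the structure morphism of the base -/
  g : T ⟶ S
  /-- the closed subscheme -/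
  Z : (pullback g f).IdealSheafData
  isFamily : IsFamily d f g Z

namespace Fam

/-- Pullback of families. -/
noncomputable def map {T T' : Scheme.{u}} (u : T' ⟶ T) (x : Fam d f T) : Fam d f T' :=
  ⟨u ≫ x.g, x.Z.comap (baseMap f x.g (u ≫ x.g) u rfl), x.isFamily.comap u rfl⟩

theorem map_eq_iff {T T' : Scheme.{u}} {u : T' ⟶ T} {x : Fam d f T} {y : Fam d f T'} :
    x.map u = y ↔ ∃ h : u ≫ x.g = y.g, x.Z.comap (baseMap f x.g y.g u h) = y.Z := by
  constructor
  · rintro rfl
    exact ⟨rfl, rfl⟩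
  · obtain ⟨g, Z, hZ⟩ := y
    rintro ⟨h, h2⟩
    simp only at h
    subst h
    have h3 : Z = x.Z.comap (baseMap f x.g (u ≫ x.g) u rfl) := h2.symm
    subst h3
    rfl

theorem map_id {T : Scheme.{u}} (x : Fam d f T) : x.map (𝟙 T) = x := by
  rw [map_eq_iff]
  exact ⟨Category.id_comp _, by rw [baseMap_id, Scheme.IdealSheafData.comap_id]⟩

theorem map_map {T T' T'' : Scheme.{u}} (u : T' ⟶ T) (v : T'' ⟶ T') (x : Fam d f T) :
    (x.map u).map v = x.map (v ≫ u) := by
  rw [map_eq_iff]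
  refine ⟨(Category.assoc _ _ _).symm, ?_⟩
  simp only [map]
  rw [comap_comap]

/-- Descent of the family property. -/
theorem isFiniteLocallyFree_of_cover {Z T : Scheme.{u}} (p : Z ⟶ T) (𝒰 : T.OpenCover)
    (h : ∀ i, ∃ (Z' : Scheme.{u}) (p' : Z' ⟶ 𝒰.X i) (v : Z' ⟶ Z),
      IsPullback v p' p (𝒰.f i) ∧ IsFiniteLocallyFree d p') : IsFiniteLocallyFree d p := by
  have key : ∀ (P : MorphismProperty Scheme.{u}) [P.RespectsIso] (i : 𝒰.I₀),
      (∀ {Z' : Scheme.{u}} (p' : Z' ⟶ 𝒰.X i), IsFiniteLocallyFree d p' → P p') →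
      P (𝒰.pullbackHom p i) := by
    intro P _ i hP
    obtain ⟨Z', p', v, hv, hp'⟩ := h i
    have h1 := hP p' hp'
    have h2 : 𝒰.pullbackHom p i = hv.isoPullback.inv ≫ p' := by
      rw [hv.isoPullback_inv_snd]
      rfl
    rw [h2]
    exact (P.cancel_left_of_respectsIso _ _).mpr h1
  have h1 : IsFinite p := IsZariskiLocalAtTarget.of_openCover (P := @IsFinite) 𝒰
    fun i => key @IsFinite i fun p' hp' => hp'.finite
  have h2 : Flat p := IsZariskiLocalAtTarget.of_openCover (P := @Flat) 𝒰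
    fun i => key @Flat i fun p' hp' => hp'.flat
  have h3 : LocallyOfFinitePresentation p :=
    IsZariskiLocalAtTarget.of_openCover (P := @LocallyOfFinitePresentation) 𝒰
      fun i => key @LocallyOfFinitePresentation i fun p' hp' => hp'.lfp
  refine ⟨h1, h2, h3, fun t => ?_⟩
  obtain ⟨t', ht'⟩ := 𝒰.covers t
  obtain ⟨Z', p', v, hv, hp'⟩ := h (𝒰.idx t)
  rw [← ht', ← Scheme.Hom.finrank_of_isPullback _ _ _ _ hv, hp'.rank]

theorem mem_range_baseMap {T T' : Scheme.{u}} (g : T ⟶ S) (g' : T' ⟶ S)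
    (u : T' ⟶ T) (hu : u ≫ g = g') (y : ↥(pullback g f))
    (hy : pullback.fst g f y ∈ Set.range u) : y ∈ Set.range (baseMap f g g' u hu) := by
  obtain ⟨t', ht'⟩ := hy
  obtain ⟨z, hz1, hz2⟩ := Scheme.Pullback.exists_preimage_pullback (f := pullback.fst g f)
    (g := u) y t' ht'.symm
  refine ⟨(isPullback_baseMap f g g' u hu).isoPullback.inv z, ?_⟩
  rw [← Scheme.Hom.comp_apply, (isPullback_baseMap f g g' u hu).isoPullback_inv_fst, hz1]

/-- Gluing of families. -/
theorem existsUnique_glue {T : Scheme.{u}} (𝒰 : T.OpenCover) (x : ∀ i, Fam d f (𝒰.X i))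
    (hx : ∀ i j, (x i).map (pullback.fst (𝒰.f i) (𝒰.f j)) =
      (x j).map (pullback.snd (𝒰.f i) (𝒰.f j))) :
    ∃! t : Fam d f T, ∀ i, t.map (𝒰.f i) = x i := by
  obtain ⟨g, hg⟩ : ∃ g : T ⟶ S, ∀ i, 𝒰.f i ≫ g = (x i).g := by
    refine ⟨𝒰.glueMorphisms (fun i => (x i).g) fun i j => congrArg Fam.g (hx i j), fun i => ?_⟩
    exact 𝒰.ι_glueMorphisms _ _ i
  have hopen : ∀ i, IsOpenImmersion (baseMap f g (x i).g (𝒰.f i) (hg i)) := fun i =>
    MorphismProperty.of_isPullback (P := @IsOpenImmersion)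
      (isPullback_baseMap f g (x i).g (𝒰.f i) (hg i)).flip inferInstance
  have hcov : ∀ y : ↥(pullback g f), ∃ i, y ∈ Set.range (baseMap f g (x i).g (𝒰.f i) (hg i)) := by
    intro y
    exact ⟨𝒰.idx (pullback.fst g f y), mem_range_baseMap _ _ _ _ y (𝒰.covers _)⟩
  obtain ⟨K, hK⟩ := exists_glue (fun i => baseMap f g (x i).g (𝒰.f i) (hg i)) hcov
    (fun i => (x i).Z) (fun i j => by
      obtain ⟨h1, h2⟩ := map_eq_iff.mp (hx i j)
      set bi := baseMap f g (x i).g (𝒰.f i) (hg i) with hbi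
      set bj := baseMap f g (x j).g (𝒰.f j) (hg j) with hbj
      let g'' := ((x j).map (pullback.snd (𝒰.f i) (𝒰.f j))).g
      let r : pullback bi bj ⟶ pullback (𝒰.f i) (𝒰.f j) :=
        pullback.lift (pullback.fst bi bj ≫ pullback.fst _ _)
          (pullback.snd bi bj ≫ pullback.fst _ _) (by
            rw [Category.assoc, Category.assoc, ← baseMap_fst f g (x i).g (𝒰.f i) (hg i),
              ← baseMap_fst f g (x j).g (𝒰.f j) (hg j), pullback.condition_assoc])
      let q : pullback bi bj ⟶ pullback g'' f :=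
        pullback.lift r (pullback.fst bi bj ≫ pullback.snd _ _) (by
          have e1 : g'' = pullback.fst (𝒰.f i) (𝒰.f j) ≫ (x i).g := h1.symm
          rw [e1, pullback.lift_fst_assoc, Category.assoc, Category.assoc, pullback.condition])
      have q1 : q ≫ baseMap f (x i).g g'' (pullback.fst _ _) h1 = pullback.fst bi bj := by
        apply pullback.hom_ext
        · rw [Category.assoc, baseMap_fst, pullback.lift_fst_assoc, pullback.lift_fst]
        · rw [Category.assoc, baseMap_snd, pullback.lift_snd]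
      have q2 : q ≫ baseMap f (x j).g g'' (pullback.snd _ _) rfl = pullback.snd bi bj := by
        apply pullback.hom_ext
        · rw [Category.assoc, baseMap_fst, pullback.lift_fst_assoc, pullback.lift_snd]
        · rw [Category.assoc, baseMap_snd, pullback.lift_snd,
            ← baseMap_snd f g (x i).g (𝒰.f i) (hg i), ← baseMap_snd f g (x j).g (𝒰.f j) (hg j),
            pullback.condition_assoc]
      rw [← q1, ← q2, Scheme.IdealSheafData.comap_comp, Scheme.IdealSheafData.comap_comp, h2]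
      rfl)
  have hKfam : IsFamily d f g K := by
    refine isFiniteLocallyFree_of_cover _ 𝒰 fun i => ?_
    have hp := isPullback_family f g (x i).g (𝒰.f i) (hg i) K
    refine ⟨_, _, _, hp, ?_⟩
    rw [hK i]
    exact (x i).isFamily
  refine ⟨⟨g, K, hKfam⟩, fun i => map_eq_iff.mpr ⟨hg i, hK i⟩, ?_⟩
  rintro ⟨g', K', hK'⟩ h
  have h1 : ∀ i, ∃ h : 𝒰.f i ≫ g' = (x i).g, K'.comap (baseMap f g' (x i).g (𝒰.f i) h) =
      (x i).Z := fun i => map_eq_iff.mp (h i)
  choose h2 h3 using h1
  obtain rfl : g' = g := 𝒰.hom_ext _ _ fun i => by rw [h2, hg]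
  obtain rfl : K' = K := ideal_ext_of_cover (fun i => baseMap f g' (x i).g (𝒰.f i) (hg i)) hcov
    fun i => by rw [h3, hK]
  rfl

end Fam

end Pool.Agent.Helper91
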