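import Mathlib
import Pool.Agent.Helper91.HilbSheaf

/-!
Existence of the Hilbert scheme of `d` points of an affine scheme.
-/

open CategoryTheory Limits AlgebraicGeometry Opposite TensorProduct

universe u

namespace Pool.Agent.Helper91

variable {C S : Scheme.{u}} (d : ℕ) (f : C ⟶ S)

/-- The Hilbert functor of `d` points. -/
noncomputable def hilbFunctor : Scheme.{u}ᵒᵖ ⥤ Type u where
  obj T := Fam d f T.unop
  map u := TypeCat.ofHom fun x => x.map u.unop
  map_id T := by
    ext x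
    exact Fam.map_id x
  map_comp u v := by
    ext x
    exact (Fam.map_map _ _ x).symm

theorem hilbFunctor_map {T T' : Scheme.{u}} (u : T' ⟶ T) (x : Fam d f T) :
    (hilbFunctor d f).map u.op x = x.map u := rfl

theorem isSheaf_hilbFunctor : Presieve.IsSheaf Scheme.zariskiTopology.{u} (hilbFunctor d f) := by
  rw [Scheme.zariskiTopology, Scheme.grothendieckTopology,
    Precoverage.isSheaf_toGrothendieck_iff_of_isStableUnderBaseChange]
  intro Y R hR
  obtain ⟨(𝓤 : Scheme.OpenCover Y), rfl⟩ := Scheme.exists_cover_of_mem_pretopology hR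
  refine (Presieve.isSheafFor_arrows_iff_pullbacks _ _).mpr ?_
  intro x hx
  exact Fam.existsUnique_glue 𝓤 x hx

variable {d f}

/-- The morphism of presheaves defined by a family. -/
noncomputable def Fam.toNat {T : Scheme.{u}} (x : Fam d f T) : yoneda.obj T ⟶ hilbFunctor d f :=
  yonedaEquiv.symm x

theorem Fam.toNat_app {T : Scheme.{u}} (x : Fam d f T) (W : Scheme.{u}ᵒᵖ) (w : W.unop ⟶ T) :
    x.toNat.app W w = x.map w := rfl

section

variable {k R : Type u} [CommRing k] [CommRing R] [Algebra k R] {d : ℕ}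

/-- The universal family over a chart. -/
noncomputable def univFam (φ : Fin d → R) :
    Fam d (str k R) (Spec (CommRingCat.of (ChartRing k φ))) :=
  ⟨str k (ChartRing k φ), univSheaf φ, isFamily_univSheaf φ⟩

theorem hasChart_iff {φ : Fin d → R} {T : Scheme.{u}} (x : Fam d (str k R) T) (t : T) :
    HasChart φ x.g x.Z t ↔ ∃ (V : Scheme.{u}) (j : V ⟶ T)
      (v : V ⟶ Spec (CommRingCat.of (ChartRing k φ))), IsOpenImmersion j ∧ t ∈ Set.range j ∧
        x.map j = (univFam φ).map v := by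
  constructor
  · rintro ⟨V, g', j, hj, v, hv, h1, h2, h3⟩
    refine ⟨V, j, v, h1, h2, ?_⟩
    rw [Fam.map_eq_iff]
    subst hv
    exact ⟨hj, h3⟩
  · rintro ⟨V, j, v, h1, h2, h3⟩
    rw [Fam.map_eq_iff] at h3
    obtain ⟨h3, h4⟩ := h3
    exact ⟨V, _, j, h3, v, rfl, h1, h2, h4⟩

theorem univFam_map_injective {φ : Fin d → R} {T : Scheme.{u}}
    {v v' : T ⟶ Spec (CommRingCat.of (ChartRing k φ))}
    (h : (univFam (k := k) φ).map v = (univFam φ).map v') : v = v' := by
  rw [Fam.map_eq_iff] at h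
  obtain ⟨h1, h2⟩ := h
  exact chart_hom_ext (g := v' ≫ str k (ChartRing k φ)) h1 rfl h2

theorem exists_chart_map (φ : Fin d → R) {T : Scheme.{u}} (x : Fam d (str k R) T) :
    ∃ (U : T.Opens) (v : U.toScheme ⟶ Spec (CommRingCat.of (ChartRing k φ))),
      (univFam φ).map v = x.map U.ι ∧
      (∀ t : T, t ∈ U ↔ HasChart φ x.g x.Z t) ∧
      ∀ (T' : Scheme.{u}) (w : T' ⟶ T) (v' : T' ⟶ Spec (CommRingCat.of (ChartRing k φ))),
        (univFam φ).map v' = x.map w → Set.range w ⊆ U := by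
  let U : T.Opens := ⟨{t | HasChart φ x.g x.Z t}, by
    rw [isOpen_iff_forall_mem_open]
    rintro t ⟨V, g', j, hj, v, hv, h1, h2, h3⟩
    refine ⟨Set.range j, ?_, h1.base_open.isOpen_range, h2⟩
    intro t' ht'
    exact ⟨V, g', j, hj, v, hv, h1, ht', h3⟩⟩
  have hU : ∀ t : T, t ∈ U ↔ HasChart φ x.g x.Z t := fun t => Iff.rfl
  have h0 : ∀ t : U, ∃ (V : Scheme.{u}) (j : V ⟶ U.toScheme)
      (v : V ⟶ Spec (CommRingCat.of (ChartRing k φ))), IsOpenImmersion j ∧ t ∈ Set.range j ∧
        x.map (j ≫ U.ι) = (univFam φ).map v := by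
    rintro ⟨t, ht⟩
    obtain ⟨V, j, v, h1, ⟨y, hy⟩, h3⟩ := (hasChart_iff x t).mp ht
    have hr : Set.range j ⊆ Set.range U.ι := by
      rintro _ ⟨z, rfl⟩
      rw [Scheme.Opens.range_ι]
      exact (hU _).mpr ((hasChart_iff x _).mpr ⟨V, j, v, h1, ⟨z, rfl⟩, h3⟩)
    have h4 := IsOpenImmersion.lift_fac U.ι j hr
    refine ⟨V, IsOpenImmersion.lift U.ι j hr, v, ?_, ⟨y, ?_⟩, ?_⟩
    · have : IsOpenImmersion (IsOpenImmersion.lift U.ι j hr ≫ U.ι) := by
        rw [h4]
        exact h1
      exact IsOpenImmersion.of_comp _ U.ι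
    · apply U.ι.isOpenEmbedding.injective
      rw [← Scheme.Hom.comp_apply, h4, hy]
      rfl
    · rw [h4, h3]
  choose V j v h1 h2 h3 using h0
  let 𝒱 : U.toScheme.OpenCover := Scheme.Cover.mkOfCovers U V j
    (fun t => ⟨t, h2 t⟩) h1
  have hglue : ∀ s t : U, pullback.fst (j s) (j t) ≫ v s = pullback.snd (j s) (j t) ≫ v t := by
    intro s t
    apply univFam_map_injective (k := k)
    rw [← Fam.map_map, ← Fam.map_map, ← h3, ← h3, Fam.map_map, Fam.map_map, ← Category.assoc,
      ← Category.assoc, pullback.condition]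
  let vU : U.toScheme ⟶ Spec (CommRingCat.of (ChartRing k φ)) :=
    𝒱.glueMorphisms (fun t => v t) hglue
  have hvU : ∀ t, j t ≫ vU = v t := fun t => 𝒱.ι_glueMorphisms _ _ t
  refine ⟨U, vU, ?_, hU, ?_⟩
  · refine (Fam.existsUnique_glue 𝒱 (fun t => (x.map U.ι).map (𝒱.f t)) ?_).unique ?_ ?_
    · intro s t
      rw [Fam.map_map (𝒱.f s), Fam.map_map (𝒱.f t), pullback.condition]
    · intro t
      change ((univFam φ).map vU).map (j t) = (x.map U.ι).map (j t)
      rw [Fam.map_map, Fam.map_map, hvU, h3]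
    · intro t
      rfl
  · rintro T' w v' h _ ⟨t', rfl⟩
    rw [SetLike.mem_coe, hU]
    rw [Fam.map_eq_iff] at h
    obtain ⟨h5, h6⟩ := h
    exact hasChart_of_comap_eq x.isFamily w rfl v' h5 h6.symm t'

theorem presheaf_toNat_univFam (φ : Fin d → R) :
    IsOpenImmersion.presheaf (univFam (k := k) φ).toNat := by
  refine MorphismProperty.relative.of_exists fun T g => ?_
  obtain ⟨x, rfl⟩ := yonedaEquiv.symm.surjective g
  obtain ⟨U, v, hv, -, hU⟩ := exists_chart_map φ (x : Fam d (str k R) T)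
  have hcomm : yoneda.map v ≫ (univFam (k := k) φ).toNat = yoneda.map U.ι ≫ Fam.toNat x := by
    ext W w
    change (univFam φ).map (w ≫ v) = Fam.map (w ≫ U.ι) x
    rw [← Fam.map_map, hv, Fam.map_map]
  refine ⟨U.toScheme, yoneda.map v, U.ι, ⟨⟨hcomm⟩, ⟨?_⟩⟩, inferInstance⟩
  let sw : ∀ (s : PullbackCone (univFam (k := k) φ).toNat (Fam.toNat x)) (W : Scheme.{u}ᵒᵖ)
      (_ : s.pt.obj W), (W.unop ⟶ T) := fun s W a => s.snd.app W a
  let sv : ∀ (s : PullbackCone (univFam (k := k) φ).toNat (Fam.toNat x)) (W : Scheme.{u}ᵒᵖ)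
      (_ : s.pt.obj W), (W.unop ⟶ Spec (CommRingCat.of (ChartRing k φ))) :=
    fun s W a => s.fst.app W a
  have hcond : ∀ (s : PullbackCone (univFam (k := k) φ).toNat (Fam.toNat x)) (W : Scheme.{u}ᵒᵖ)
      (a : s.pt.obj W), (univFam (k := k) φ).map (sv s W a) = Fam.map (sw s W a) x := by
    intro s W a
    exact ConcreteCategory.congr_hom (NatTrans.congr_app s.condition W) a
  have hr : ∀ (s : PullbackCone (univFam (k := k) φ).toNat (Fam.toNat x)) (W : Scheme.{u}ᵒᵖ)
      (a : s.pt.obj W), Set.range (sw s W a) ⊆ Set.range U.ι := by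
    intro s W a
    rw [Scheme.Opens.range_ι]
    exact hU _ _ _ (hcond s W a)
  have hnat : ∀ (s : PullbackCone (univFam (k := k) φ).toNat (Fam.toNat x))
      {W W' : Scheme.{u}ᵒᵖ} (q : W ⟶ W') (a : s.pt.obj W),
      sw s W' (s.pt.map q a) = q.unop ≫ sw s W a := by
    intro s W W' q a
    exact ConcreteCategory.congr_hom (s.snd.naturality q) a
  refine PullbackCone.IsLimit.mk hcomm (fun s => ⟨fun W => TypeCat.ofHom fun a =>
    IsOpenImmersion.lift U.ι (sw s W a) (hr s W a), ?_⟩) ?_ ?_ ?_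
  · intro W W' q
    ext a
    change IsOpenImmersion.lift U.ι (sw s W' (s.pt.map q a)) _ =
      q.unop ≫ IsOpenImmersion.lift U.ι (sw s W a) _
    rw [← cancel_mono U.ι, Category.assoc, IsOpenImmersion.lift_fac, IsOpenImmersion.lift_fac,
      hnat]
  · intro s
    ext W a
    change IsOpenImmersion.lift U.ι (sw s W a) (hr s W a) ≫ v = sv s W a
    apply univFam_map_injective (k := k)
    rw [← Fam.map_map, hv, Fam.map_map, IsOpenImmersion.lift_fac, hcond]
  · intro s
    ext W a
    exact IsOpenImmersion.lift_fac U.ι (sw s W a) (hr s W a)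
  · intro s m h1 h2
    ext W a
    change m.app W a = IsOpenImmersion.lift U.ι (sw s W a) (hr s W a)
    apply IsOpenImmersion.lift_uniq
    exact ConcreteCategory.congr_hom (NatTrans.congr_app h2 W) a

/-- The Hilbert functor as a Zariski sheaf. -/
noncomputable def hilbSheaf {C S : Scheme.{u}} (d : ℕ) (f : C ⟶ S) :
    Sheaf Scheme.zariskiTopology.{u} (Type u) :=
  ⟨hilbFunctor d f, (isSheaf_iff_isSheaf_of_type _ _).mpr (isSheaf_hilbFunctor d f)⟩

variable (k R d) in
/-- The morphisms from the charts. -/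
noncomputable def chartNat (φ : Fin d → R) :
    yoneda.obj (Spec (CommRingCat.of (ChartRing k φ))) ⟶ (hilbSheaf d (str k R)).obj :=
  (univFam φ).toNat

instance : Presheaf.IsLocallySurjective Scheme.zariskiTopology.{u}
    (Sigma.desc (chartNat k R d)) where
  imageSieve_mem := by
    intro T s
    let x : Fam d (str k R) T := s
    choose φ hφ using fun t : T => exists_hasChart x.isFamily t
    choose V j v h1 h2 h3 using fun t : T => (hasChart_iff x t).mp (hφ t)
    let 𝒱 : T.OpenCover := Scheme.Cover.mkOfCovers T V j (fun t => ⟨t, h2 t⟩) h1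
    refine GrothendieckTopology.superset_covering _ ?_ 𝒱.mem_grothendieckTopology
    rintro W _ ⟨_, w, _, ⟨t⟩, rfl⟩
    refine Sieve.downward_closed _ ?_ w
    refine ⟨(Sigma.ι (fun φ : Fin d → R =>
      yoneda.obj (Spec (CommRingCat.of (ChartRing k φ)))) (φ t)).app _ (v t), ?_⟩
    have h4 : Sigma.ι (fun φ : Fin d → R =>
      yoneda.obj (Spec (CommRingCat.of (ChartRing k φ)))) (φ t) ≫ Sigma.desc (chartNat k R d) =
        chartNat k R d (φ t) := Sigma.ι_desc _ _
    have h5 := ConcreteCategory.congr_hom (NatTrans.congr_app h4 (op (V t))) (v t)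
    refine Eq.trans h5 ?_
    exact (h3 t).symm

theorem isHilbertScheme_of_representableBy {C S : Scheme.{u}} {d : ℕ} {f : C ⟶ S}
    {H : Scheme.{u}} (e : (hilbFunctor d f).RepresentableBy H) :
    ∃ h : H ⟶ S, IsHilbertScheme d f h := by
  let x₀ : Fam d f H := e.homEquiv (𝟙 H)
  have hx : ∀ {T : Scheme.{u}} (u : T ⟶ H), e.homEquiv u = x₀.map u := by
    intro T u
    have := e.homEquiv_comp u (𝟙 H)
    rw [Category.comp_id] at this
    exact this
  refine ⟨x₀.g, x₀.Z, x₀.isFamily, fun T g Z hZ => ?_⟩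
  let y : Fam d f T := ⟨g, Z, hZ⟩
  refine ⟨e.homEquiv.symm y, ?_, ?_⟩
  · have h1 : x₀.map (e.homEquiv.symm y) = y := by
      rw [← hx, Equiv.apply_symm_apply]
    exact Fam.map_eq_iff.mp h1
  · intro u hu
    apply e.homEquiv.injective
    rw [Equiv.apply_symm_apply, hx]
    exact Fam.map_eq_iff.mpr hu

/-- The Hilbert scheme of `d` points of an affine scheme `Spec R` over `Spec k` exists. -/
theorem exists_isHilbertScheme (k R : Type u) [CommRing k] [CommRing R] [Algebra k R] (d : ℕ) :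
    ∃ (H : Scheme.{u}) (h : H ⟶ Spec (CommRingCat.of k)), IsHilbertScheme d (str k R) h := by
  have hf : ∀ φ : Fin d → R, IsOpenImmersion.presheaf (chartNat k R d φ) := fun φ =>
    presheaf_toNat_univFam φ
  have e := Scheme.LocalRepresentability.representableBy (F := hilbSheaf d (str k R)) hf
  obtain ⟨h, hh⟩ := isHilbertScheme_of_representableBy e
  exact ⟨_, h, hh⟩

end

end Pool.Agent.Helper91
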