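import Mathlib
import Pool.Agent.Helper91.Tangent

/-!
A family of numerical semigroups for which the tangent space at a canonical ideal is small.
-/

namespace Pool.Agent.Helper91

open Polynomial

/-- The Frobenius number of the semigroup `sgFam u`. -/
def frob (u : ℕ) : ℕ := 4 * 3 ^ u + 1

/-- The numerical semigroup consisting of `0` and of all `x > F / 2` different from `F` and from
the numbers `F - 3 ^ i`, `i < u`, where `F = 4 * 3 ^ u + 1`. -/
def sgFam (u : ℕ) : AddSubmonoid ℕ where
  carrier := {x | x = 0 ∨ (frob u < 2 * x ∧ x ≠ frob u ∧ ∀ i < u, x + 3 ^ i ≠ frob u)}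
  zero_mem' := Or.inl rfl
  add_mem' := by
    rintro a b (rfl | ⟨ha, ha', ha''⟩) (rfl | ⟨hb, hb', hb''⟩)
    · left; rfl
    · right
      rw [zero_add]
      exact ⟨hb, hb', hb''⟩
    · right
      rw [add_zero]
      exact ⟨ha, ha', ha''⟩
    · right
      refine ⟨by omega, by omega, fun i _ => ?_⟩
      have : 0 < 3 ^ i := by positivity
      omega

theorem mem_sgFam {u x : ℕ} : x ∈ sgFam u ↔
    x = 0 ∨ (frob u < 2 * x ∧ x ≠ frob u ∧ ∀ i < u, x + 3 ^ i ≠ frob u) := Iff.rfl

theorem mem_sgFam_of_lt {u x : ℕ} (h : frob u < x) : x ∈ sgFam u :=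
  Or.inr ⟨by omega, by omega, fun i _ => by
    have : 0 < 3 ^ i := by positivity
    omega⟩

theorem frob_notMem (u : ℕ) : frob u ∉ sgFam u := by
  rintro (h | ⟨-, h, -⟩)
  · unfold frob at h; omega
  · exact h rfl

/-- the top exponent of the Gorenstein quotient -/
def topExp (u : ℕ) : ℕ := 2 * frob u + 1

theorem pow_add_pow_inj {i j i' j' : ℕ} (h1 : i ≤ j) (h2 : i' ≤ j')
    (h : 3 ^ i + 3 ^ j = 3 ^ i' + 3 ^ j') : i = i' ∧ j = j' := by
  have key : ∀ {i j i' j' : ℕ}, i ≤ j → j < j' → 3 ^ i + 3 ^ j < 3 ^ i' + 3 ^ j' := by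
    intro i j i' j' hij hjj
    have h3 : 3 ^ i ≤ 3 ^ j := Nat.pow_le_pow_right (by norm_num) hij
    have h4 : 3 * 3 ^ j ≤ 3 ^ j' := by
      rw [← pow_succ']
      exact Nat.pow_le_pow_right (by norm_num) hjj
    have h5 : 0 < 3 ^ j := by positivity
    have h6 : 0 < 3 ^ i' := by positivity
    omega
  have hj : j = j' := by
    rcases lt_trichotomy j j' with h3 | h3 | h3
    · exact absurd h (key h1 h3).ne
    · exact h3
    · exact absurd h.symm (key h2 h3).ne
  subst hj
  refine ⟨?_, rfl⟩
  have : 3 ^ i = 3 ^ i' := by omega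
  exact Nat.pow_right_injective (le_of_lt (by norm_num : 2 < 3)) this

theorem pow_add_pow_ne {i j l : ℕ} (h1 : i ≤ j) : 3 ^ i + 3 ^ j ≠ 3 ^ l := by
  have h3 : 3 ^ i ≤ 3 ^ j := Nat.pow_le_pow_right (by norm_num) h1
  have h5 : 0 < 3 ^ i := by positivity
  rcases Nat.lt_or_ge j l with h | h
  · have h4 : 3 * 3 ^ j ≤ 3 ^ l := by
      rw [← pow_succ']
      exact Nat.pow_le_pow_right (by norm_num) h
    omega
  · have h4 : 3 ^ l ≤ 3 ^ j := Nat.pow_le_pow_right (by norm_num) h
    omega

theorem pow_add_pow_lt {i j u : ℕ} (hi : i < u) (hj : j < u) : 4 * (3 ^ i + 3 ^ j) < 2 * frob u := by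
  have h1 : 3 * 3 ^ i ≤ 3 ^ u := by
    rw [← pow_succ']
    exact Nat.pow_le_pow_right (by norm_num) hi
  have h2 : 3 * 3 ^ j ≤ 3 ^ u := by
    rw [← pow_succ']
    exact Nat.pow_le_pow_right (by norm_num) hj
  unfold frob
  omega

section counting

variable (u : ℕ)

open Classical in
/-- the elements of the semigroup below the Frobenius number -/
noncomputable def lowElts : Finset ℕ := (Finset.range (frob u + 1)).filter (· ∈ sgFam u)

open Classical in
/-- the gaps -/
noncomputable def gapElts : Finset ℕ := (Finset.range (frob u + 1)).filter (· ∉ sgFam u)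

theorem card_low_add_card_gap : (lowElts u).card + (gapElts u).card = frob u + 1 := by
  classical
  have := Finset.card_filter_add_card_filter_not (s := Finset.range (frob u + 1))
    (fun x => x ∈ sgFam u)
  rw [Finset.card_range] at this
  unfold lowElts gapElts
  convert this using 3

/-- the sums `3 ^ i + 3 ^ j` -/
def sumPairs : Finset (ℕ × ℕ) := ((Finset.range u) ×ˢ (Finset.range u)).filter fun p => p.1 ≤ p.2

theorem card_sumPairs : 2 * (sumPairs u).card = u * (u + 1) := by
  induction u with
  | zero => rfl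
  | succ u ih =>
    have h : sumPairs (u + 1) = sumPairs u ∪ (Finset.range (u + 1)).image fun i => (i, u) := by
      ext ⟨i, j⟩
      simp only [sumPairs, Finset.mem_filter, Finset.mem_product, Finset.mem_range,
        Finset.mem_union, Finset.mem_image, Prod.mk.injEq]
      constructor
      · rintro ⟨⟨h1, h2⟩, h3⟩
        rcases Nat.lt_or_ge j u with h4 | h4
        · left; omega
        · right; exact ⟨i, by omega, rfl, by omega⟩
      · rintro (⟨⟨h1, h2⟩, h3⟩ | ⟨a, h1, rfl, rfl⟩)
        · omega
        · omega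
    have hd : Disjoint (sumPairs u) ((Finset.range (u + 1)).image fun i => (i, u)) := by
      rw [Finset.disjoint_left]
      rintro ⟨i, j⟩ h1 h2
      simp only [sumPairs, Finset.mem_filter, Finset.mem_product, Finset.mem_range,
        Finset.mem_image, Prod.mk.injEq] at h1 h2
      obtain ⟨a, h3, rfl, rfl⟩ := h2
      omega
    rw [h, Finset.card_union_of_disjoint hd, mul_add, ih, Finset.card_image_of_injective]
    · rw [Finset.card_range]; ring
    · intro a b hab
      exact congrArg Prod.fst hab

/-- the elements `F - 3 ^ i - 3 ^ j` -/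
def sumSet : Finset ℕ := (sumPairs u).image fun p => frob u - (3 ^ p.1 + 3 ^ p.2)

theorem card_sumSet : (sumSet u).card = (sumPairs u).card := by
  apply Finset.card_image_of_injOn
  rintro ⟨i, j⟩ h ⟨i', j'⟩ h' hh
  simp only [sumPairs, Finset.coe_filter, Finset.mem_product, Finset.mem_range,
    Set.mem_ofPred_eq] at h h'
  simp only at hh
  have h1 := pow_add_pow_lt h.1.1 h.1.2
  have h2 := pow_add_pow_lt h'.1.1 h'.1.2
  obtain ⟨h3, h4⟩ := pow_add_pow_inj (i := i) (j := j) (i' := i') (j' := j') h.2 h'.2 (by omega)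
  rw [h3, h4]

theorem sumSet_subset : sumSet u ⊆ (lowElts u).erase 0 := by
  classical
  intro x hx
  simp only [sumSet, sumPairs, Finset.mem_image, Finset.mem_filter, Finset.mem_product,
    Finset.mem_range] at hx
  obtain ⟨⟨i, j⟩, ⟨⟨hi, hj⟩, hij⟩, rfl⟩ := hx
  simp only at hi hj hij ⊢
  have h1 := pow_add_pow_lt hi hj
  have h2 : 0 < 3 ^ i := by positivity
  have h2' : 0 < 3 ^ j := by positivity
  simp only [Finset.mem_erase, lowElts, Finset.mem_filter, Finset.mem_range]
  refine ⟨by omega, by omega, Or.inr ⟨by omega, by omega, fun l _ => ?_⟩⟩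
  have h3 := pow_add_pow_ne (l := l) hij
  have h4 : 0 < 3 ^ l := by positivity
  omega

theorem card_lowElts_ge : 2 * 3 ^ u + 1 ≤ (lowElts u).card + u := by
  classical
  let S : Finset ℕ := (Finset.Ioc (2 * 3 ^ u) (4 * 3 ^ u)) \
    (Finset.range u).image fun i => frob u - 3 ^ i
  have hS : 2 * 3 ^ u ≤ S.card + u := by
    have h1 := Finset.le_card_sdiff ((Finset.range u).image fun i => frob u - 3 ^ i)
      (Finset.Ioc (2 * 3 ^ u) (4 * 3 ^ u))
    rw [Nat.card_Ioc] at h1
    have h2 : ((Finset.range u).image fun i => frob u - 3 ^ i).card ≤ u :=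
      Finset.card_image_le.trans_eq (Finset.card_range u)
    change _ ≤ ((Finset.Ioc (2 * 3 ^ u) (4 * 3 ^ u)) \
      (Finset.range u).image fun i => frob u - 3 ^ i).card + u
    omega
  have h0 : 0 ∉ S := by
    simp only [S, Finset.mem_sdiff, Finset.mem_Ioc]
    omega
  have hsub : insert 0 S ⊆ lowElts u := by
    intro x hx
    rw [Finset.mem_insert] at hx
    simp only [lowElts, Finset.mem_filter, Finset.mem_range]
    rcases hx with rfl | hx
    · exact ⟨by omega, zero_mem _⟩
    · simp only [S, Finset.mem_sdiff, Finset.mem_Ioc, Finset.mem_image, Finset.mem_range,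
        not_exists, not_and] at hx
      obtain ⟨⟨h1, h2⟩, h3⟩ := hx
      unfold frob at *
      refine ⟨by omega, Or.inr ⟨by unfold frob; omega, by unfold frob; omega, fun i hi h4 => ?_⟩⟩
      unfold frob at h4
      exact h3 i hi (by omega)
  have := Finset.card_le_card hsub
  rw [Finset.card_insert_of_notMem h0] at this
  omega

open Classical in
/-- exponents of a basis of the Gorenstein quotient, as a set of natural numbers -/
noncomputable def basisElts : Finset ℕ :=
  (Finset.range (topExp u + 1)).filter fun b => b ∈ sgFam u ∧ topExp u - b ∈ sgFam u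

theorem two_mul_card_low_le : 2 * (lowElts u).card ≤ (basisElts u).card := by
  classical
  have hsub : lowElts u ∪ (lowElts u).image (fun x => topExp u - x) ⊆ basisElts u := by
    intro x hx
    rw [Finset.mem_union, Finset.mem_image] at hx
    simp only [lowElts, Finset.mem_filter, Finset.mem_range] at hx
    simp only [basisElts, Finset.mem_filter, Finset.mem_range, topExp]
    rcases hx with ⟨h1, h2⟩ | ⟨y, ⟨h1, h2⟩, rfl⟩
    · exact ⟨by omega, h2, mem_sgFam_of_lt (by omega)⟩
    · unfold topExp
      refine ⟨by omega, mem_sgFam_of_lt (by omega), ?_⟩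
      have : 2 * frob u + 1 - (2 * frob u + 1 - y) = y := by omega
      rw [this]
      exact h2
  have hdisj : Disjoint (lowElts u) ((lowElts u).image (fun x => topExp u - x)) := by
    rw [Finset.disjoint_left]
    intro x hx hx'
    rw [Finset.mem_image] at hx'
    obtain ⟨y, hy, rfl⟩ := hx'
    simp only [lowElts, Finset.mem_filter, Finset.mem_range, topExp] at hx hy
    omega
  have h1 := Finset.card_le_card hsub
  rw [Finset.card_union_of_disjoint hdisj, Finset.card_image_of_injOn] at h1
  · omega
  · intro x hx y hy hxy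
    simp only [lowElts, Finset.coe_filter, Finset.mem_range, Set.mem_ofPred_eq] at hx hy
    simp only [topExp] at hxy
    omega

open Classical in
/-- a finite set of natural numbers containing the tangent exponents -/
noncomputable def tangElts : Finset ℕ :=
  (((lowElts u).erase 0) \ sumSet u).image (fun f => 3 * frob u + 2 - f) ∪
    (gapElts u).image (fun g => 2 * frob u + 1 - g)

theorem card_tangElts_le : (tangElts u).card + 1 + (sumPairs u).card ≤
    (lowElts u).card + (gapElts u).card := by
  classical
  have h1 : (tangElts u).card ≤ (((lowElts u).erase 0) \ sumSet u).card + (gapElts u).card := by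
    refine (Finset.card_union_le _ _).trans ?_
    exact Nat.add_le_add Finset.card_image_le Finset.card_image_le
  have h2 : (((lowElts u).erase 0) \ sumSet u).card = ((lowElts u).erase 0).card -
      (sumPairs u).card := by
    rw [Finset.card_sdiff_of_subset (sumSet_subset u), card_sumSet]
  have h3 : 0 ∈ lowElts u := by
    simp only [lowElts, Finset.mem_filter, Finset.mem_range]
    exact ⟨by omega, zero_mem _⟩
  have h4 : ((lowElts u).erase 0).card + 1 = (lowElts u).card := Finset.card_erase_add_one h3
  have h5 : (sumPairs u).card ≤ ((lowElts u).erase 0).card := by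
    rw [← card_sumSet]
    exact Finset.card_le_card (sumSet_subset u)
  omega

theorem coe_mem_tangElts (hu : 0 < u) (v : sgFam u) (hv : v ∈ tangentSet (sgFam u) (topExp u)) :
    (v : ℕ) ∈ tangElts u := by
  classical
  obtain ⟨hv1, hv2⟩ := hv
  obtain ⟨f, hf⟩ := hv2 ⟨frob u + 1, mem_sgFam_of_lt (by omega)⟩ (by
    rintro ⟨h, hh⟩
    simp only [topExp] at hh
    apply frob_notMem u
    have : frob u = h := by omega
    rw [this]
    exact h.2)
  simp only [topExp] at hf
  have hfi : ∀ i < u, (f : ℕ) + 3 ^ i ∈ sgFam u := by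
    intro i hi
    have hpos : 0 < 3 ^ i := by positivity
    obtain ⟨g, hg⟩ := hv2 ⟨frob u + 1 + 3 ^ i, mem_sgFam_of_lt (by omega)⟩ (by
      rintro ⟨h, hh⟩
      simp only [topExp] at hh
      have h1 : (h : ℕ) + 3 ^ i = frob u := by omega
      rcases h.2 with h2 | ⟨-, -, h2⟩
      · have h3 : 3 ^ i < 3 ^ u := Nat.pow_lt_pow_right (by norm_num) hi
        unfold frob at h1
        omega
      · exact h2 i hi h1)
    simp only [topExp] at hg
    have : (f : ℕ) + 3 ^ i = g := by omega
    rw [this]
    exact g.2
  have hf0 : (f : ℕ) ≠ 0 := by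
    intro h0
    have h1 := hfi 0 hu
    rw [h0] at h1
    have hpos : 0 < 3 ^ u := by positivity
    rcases h1 with h1 | ⟨h1, -, -⟩
    · simp at h1
    · unfold frob at h1
      simp at h1
  simp only [tangElts, Finset.mem_union, Finset.mem_image, Finset.mem_sdiff, Finset.mem_erase]
  rcases Nat.lt_or_ge (frob u) f with hlt | hle
  · right
    refine ⟨f - (frob u + 1), ?_, by omega⟩
    simp only [gapElts, Finset.mem_filter, Finset.mem_range]
    have h1 : (f : ℕ) - (frob u + 1) ∉ sgFam u := by
      intro h2
      apply hv1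
      refine ⟨⟨_, h2⟩, ?_⟩
      simp only [topExp]
      omega
    refine ⟨?_, h1⟩
    by_contra h2
    exact h1 (mem_sgFam_of_lt (by omega))
  · left
    refine ⟨f, ⟨⟨hf0, ?_⟩, ?_⟩, by omega⟩
    · simp only [lowElts, Finset.mem_filter, Finset.mem_range]
      exact ⟨by omega, f.2⟩
    · intro h1
      simp only [sumSet, sumPairs, Finset.mem_image, Finset.mem_filter, Finset.mem_product,
        Finset.mem_range] at h1
      obtain ⟨⟨i, j⟩, ⟨⟨hi, hj⟩, hij⟩, h2⟩ := h1
      simp only at hi hj hij h2
      have h3 := pow_add_pow_lt hi hj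
      have hpos : 0 < 3 ^ i := by positivity
      have hpos' : 0 < 3 ^ j := by positivity
      rcases hfi i hi with h4 | ⟨-, -, h4⟩
      · omega
      · exact h4 j hj (by omega)

/-- The numerical data needed for the theorem: the semigroup `sgFam (N + 3)` has a Gorenstein
quotient of length `d` whose tangent space has dimension at most `d - N`. -/
theorem exists_data (N : ℕ) : ∃ (d : ℕ) (e : Fin d → sgFam (N + 3)), Function.Injective e ∧
    (∀ b : sgFam (N + 3), b ∈ Set.range e ↔ ∃ h : sgFam (N + 3), (b : ℕ) + h = topExp (N + 3)) ∧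
    (tangentSet (sgFam (N + 3)) (topExp (N + 3))).Finite ∧
    (tangentSet (sgFam (N + 3)) (topExp (N + 3))).ncard + N ≤ d ∧ 1 ≤ d := by
  classical
  set u := N + 3 with hu
  have hmem : ∀ x ∈ basisElts u, x ∈ sgFam u := fun x hx => by
    simp only [basisElts, Finset.mem_filter] at hx
    exact hx.2.1
  let e : Fin (basisElts u).card → sgFam u := fun j =>
    ⟨((basisElts u).equivFin.symm j : ℕ), hmem _ ((basisElts u).equivFin.symm j).2⟩
  have hinj : Function.Injective e := by
    intro i j hij
    have h1 : (((basisElts u).equivFin.symm i : basisElts u) : ℕ) =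
      ((basisElts u).equivFin.symm j : basisElts u) := congrArg (fun x : sgFam u => (x : ℕ)) hij
    exact (basisElts u).equivFin.symm.injective (Subtype.ext h1)
  have hT : (tangentSet (sgFam u) (topExp u)).Finite := by
    apply Set.Finite.of_finite_image (f := Subtype.val) _ Subtype.val_injective.injOn
    apply (tangElts u).finite_toSet.subset
    rintro _ ⟨v, hv, rfl⟩
    exact coe_mem_tangElts u (by omega) v hv
  have hTcard : (tangentSet (sgFam u) (topExp u)).ncard ≤ (tangElts u).card := by
    rw [← Set.ncard_image_of_injective _ Subtype.val_injective, ← Set.ncard_coe_finset]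
    apply Set.ncard_le_ncard _ (tangElts u).finite_toSet
    rintro _ ⟨v, hv, rfl⟩
    exact coe_mem_tangElts u (by omega) v hv
  refine ⟨(basisElts u).card, e, hinj, ?_, hT, ?_, ?_⟩
  · intro b
    constructor
    · rintro ⟨j, rfl⟩
      have h1 := ((basisElts u).equivFin.symm j).2
      simp only [basisElts, Finset.mem_filter, Finset.mem_range] at h1
      refine ⟨⟨_, h1.2.2⟩, ?_⟩
      simp only [e]
      simp only [basisElts]
      omega
    · rintro ⟨h, hh⟩
      have h1 : (b : ℕ) ∈ basisElts u := by
        simp only [basisElts, Finset.mem_filter, Finset.mem_range]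
        refine ⟨by omega, b.2, ?_⟩
        have : topExp u - b = h := by omega
        rw [this]
        exact h.2
      refine ⟨(basisElts u).equivFin ⟨b, h1⟩, ?_⟩
      apply Subtype.ext
      simp only [e, Equiv.symm_apply_apply]
  · have h1 := card_low_add_card_gap u
    have h2 := card_sumPairs u
    have h3 := card_lowElts_ge u
    have h4 := two_mul_card_low_le u
    have h5 := card_tangElts_le u
    have h6 : frob u = 4 * 3 ^ u + 1 := rfl
    have h7 : u * (u + 1) = N * N + 7 * N + 12 := by rw [hu]; ring
    have h8 : N ≤ N * N := Nat.le_mul_self N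
    have h9 : 2 * N + 4 * u ≤ 2 + u * (u + 1) := by
      rw [h7]
      nlinarith
    omega
  · have h3 := card_lowElts_ge u
    have h4 := two_mul_card_low_le u
    have h5 : u < 3 ^ u := Nat.lt_pow_self (by norm_num)
    omega

end counting

end Pool.Agent.Helper91
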