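import Mathlib
import Pool.Agent.Helper91.Dim

/-!
Dimension of an irreducible component of a space covered by spectra of finitely generated
algebras over a field.
-/

namespace Pool.Agent.Helper91

open Ideal TopologicalSpace Topology

theorem le_ringKrullDim_quotient {A : Type*} [CommRing A] (P : Ideal A) {m : ℕ}
    (q : Fin (m + 1) → PrimeSpectrum A) (hq : StrictMono q) (h0 : ∀ j, P ≤ (q j).asIdeal) :
    (m : WithBot ℕ∞) ≤ ringKrullDim (A ⧸ P) := by
  rw [ringKrullDim_quotient]
  let f : Fin (m + 1) → PrimeSpectrum.zeroLocus (P : Set A) := fun j => ⟨q j, h0 j⟩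
  exact Order.LTSeries.length_le_krullDim (LTSeries.mk m f (fun a b hab => hq hab))

/-- A chain of points of a space `X`, all specialisations of `η` and all in the image of a chart
`Spec A → X`, bounds the dimension of `A / p_η` from below. -/
theorem chain_le {X A : Type*} [TopologicalSpace X] [CommRing A] {u : PrimeSpectrum A → X}
    (hu : IsOpenEmbedding u) (P : PrimeSpectrum A) {m : ℕ}
    (x : Fin (m + 1) → X) (hx : ∀ j, x j ∈ Set.range u) (h0 : ∀ j, u P ⤳ x j)
    (hlt : ∀ i j, i < j → x i ⤳ x j ∧ ¬ x j ⤳ x i) :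
    (m : WithBot ℕ∞) ≤ ringKrullDim (A ⧸ P.asIdeal) := by
  choose q hq using hx
  have key : ∀ a b, a ≤ b ↔ u a ⤳ u b := fun a b => by
    rw [PrimeSpectrum.le_iff_specializes, hu.isInducing.specializes_iff]
  refine le_ringKrullDim_quotient P.asIdeal q ?_ ?_
  · intro a b hab
    have h := hlt a b hab
    rw [lt_iff_le_not_ge, key, key, hq, hq]
    exact h
  · intro j
    have : P ≤ q j := by
      rw [key, hq]
      exact h0 j
    exact this

/-- Every chart of finite type over a field meeting an irreducible closed set with generic point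
`η` sees the same dimension: here we only record an inequality. -/
theorem chart_dim_le (k : Type*) [Field k] {X : Type*} [TopologicalSpace X]
    {A B : Type*} [CommRing A] [Algebra k A] [Algebra.FiniteType k A]
    [CommRing B] [Algebra k B] [Algebra.FiniteType k B]
    {u : PrimeSpectrum A → X} {v : PrimeSpectrum B → X}
    (hu : IsOpenEmbedding u) (hv : IsOpenEmbedding v)
    (P : PrimeSpectrum A) (Q : PrimeSpectrum B) (hPQ : u P = v Q) :
    ringKrullDim (A ⧸ P.asIdeal) ≤ ringKrullDim (B ⧸ Q.asIdeal) := by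
  obtain ⟨n, hn, hmax⟩ := exists_dim k (A ⧸ P.asIdeal)
  -- the open subset of `Spec (A / P)` mapping into the range of `v`
  let π := Ideal.Quotient.mk P.asIdeal
  let w : PrimeSpectrum (A ⧸ P.asIdeal) → X := fun x => u (PrimeSpectrum.comap π x)
  have hwcont : Continuous w := hu.continuous.comp (PrimeSpectrum.continuous_comap π)
  have hwspec : ∀ x y : PrimeSpectrum (A ⧸ P.asIdeal), x ≤ y → w x ⤳ w y := fun x y hxy =>
    ((PrimeSpectrum.le_iff_specializes x y).mp hxy).map hwcont
  have hwspec' : ∀ x y : PrimeSpectrum (A ⧸ P.asIdeal), w x ⤳ w y → x ≤ y := fun x y hxy => by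
    have h1 := hu.isInducing.specializes_iff.mp hxy
    rw [← PrimeSpectrum.le_iff_specializes] at h1
    intro a ha
    obtain ⟨b, rfl⟩ := Ideal.Quotient.mk_surjective a
    exact h1 ha
  let U : Set (PrimeSpectrum (A ⧸ P.asIdeal)) := w ⁻¹' (Set.range v)
  have hU : IsOpen U := hv.isOpen_range.preimage hwcont
  have hbotP : w ⊥ = u P := by
    have : PrimeSpectrum.comap π ⊥ = P := by
      ext x
      simp only [π, PrimeSpectrum.comap_asIdeal, PrimeSpectrum.asIdeal_bot, Ideal.mem_comap,
        Ideal.mem_bot]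
      exact Ideal.Quotient.eq_zero_iff_mem
    exact congrArg u this
  have hbot : (⊥ : PrimeSpectrum (A ⧸ P.asIdeal)) ∈ U := ⟨Q, by rw [hbotP, hPQ]⟩
  have : IsJacobsonRing (A ⧸ P.asIdeal) := isJacobsonRing_of_finiteType (A := k)
  -- a closed point of `Spec (A / P)` inside `U`
  obtain ⟨y, hyU, hy⟩ := nonempty_inter_closedPoints ⟨_, hbot⟩ hU.isLocallyClosed
  have hymax : y.asIdeal.IsMaximal := (PrimeSpectrum.isClosed_singleton_iff_isMaximal y).mp hy
  have hht := hmax _ hymax
  have : y.asIdeal.FiniteHeight := by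
    rw [Ideal.finiteHeight_iff]
    right
    rw [hht]
    exact ENat.natCast_ne_top n
  obtain ⟨l, hl, hlen⟩ := Ideal.exists_ltSeries_length_eq_height y.asIdeal
  have hln : l.length = n := by
    have : (l.length : ℕ∞) = n := by rw [hlen, hht]
    exact_mod_cast this
  rw [hn, ← hln]
  refine chain_le hv Q (fun j => w (l j)) ?_ ?_ ?_
  · intro j
    have h1 : w (l j) ⤳ w y := by
      apply hwspec
      have : l j ≤ RelSeries.last l := l.monotone (Fin.le_last j)
      rw [hl] at this
      exact this
    exact h1.mem_open hv.isOpen_range hyU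
  · intro j
    rw [← hPQ, ← hbotP]
    exact hwspec _ _ bot_le
  · intro i j hij
    have h1 : l i < l j := l.strictMono hij
    exact ⟨hwspec _ _ h1.le, fun h => h1.not_ge (hwspec' _ _ h)⟩

/-- Let `X` be a sober space covered by open subsets `Spec (A i)` with every `A i` a finitely
generated algebra over a field `k`.  If a closed irreducible set `Y` contains a point which
corresponds to a maximal ideal of height at most `n` in one chart, then `Y` has dimension at most
`n`. -/
theorem dim_irreducible_le (k : Type*) [Field k] {X : Type*} [TopologicalSpace X] [QuasiSober X]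
    {ι : Type*} (A : ι → Type*) [∀ i, CommRing (A i)] [∀ i, Algebra k (A i)]
    [∀ i, Algebra.FiniteType k (A i)] (u : ∀ i, PrimeSpectrum (A i) → X)
    (hu : ∀ i, IsOpenEmbedding (u i)) (hcov : ∀ x, ∃ i, x ∈ Set.range (u i))
    (i₀ : ι) (m₀ : PrimeSpectrum (A i₀)) (hm₀ : m₀.asIdeal.IsMaximal) (n : ℕ)
    (hn : m₀.asIdeal.height ≤ n) (Y : Set X) (hYc : IsClosed Y) (hYi : IsIrreducible Y)
    (hY : u i₀ m₀ ∈ Y) : topologicalKrullDim Y ≤ n := by
  -- the generic point of `Y`
  obtain ⟨η, hη⟩ := QuasiSober.sober hYi hYc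
  have hηspec : ∀ y ∈ Y, η ⤳ y := fun y hy => by
    rw [specializes_iff_mem_closure, hη.def]
    exact hy
  -- the generic point in the chart `i₀`
  obtain ⟨P₀, hP₀⟩ : η ∈ Set.range (u i₀) :=
    (hηspec _ hY).mem_open (hu i₀).isOpen_range ⟨m₀, rfl⟩
  have hP₀m : P₀ ≤ m₀ := by
    rw [PrimeSpectrum.le_iff_specializes, ← (hu i₀).isInducing.specializes_iff, hP₀]
    exact hηspec _ hY
  -- dimension of the chart `i₀`
  have hdim₀ : ringKrullDim (A i₀ ⧸ P₀.asIdeal) ≤ n := by
    obtain ⟨e, he, hmax⟩ := exists_dim k (A i₀ ⧸ P₀.asIdeal)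
    have hπ : Function.Surjective (Ideal.Quotient.mk P₀.asIdeal) := Ideal.Quotient.mk_surjective
    let M := m₀.asIdeal.map (Ideal.Quotient.mk P₀.asIdeal)
    have hMmax : M.IsMaximal :=
      Ideal.IsMaximal.map_of_surjective_of_ker_le hπ (by rw [Ideal.mk_ker]; exact hP₀m)
    have hMc : M.comap (Ideal.Quotient.mk P₀.asIdeal) = m₀.asIdeal := by
      rw [Ideal.comap_map_of_surjective _ hπ, ← RingHom.ker_eq_comap_bot, Ideal.mk_ker]
      exact sup_eq_left.mpr hP₀m
    have hht := hmax M hMmax
    have : M.FiniteHeight := by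
      rw [Ideal.finiteHeight_iff]
      right
      rw [hht]
      exact ENat.natCast_ne_top e
    obtain ⟨l, hl, hlen⟩ := Ideal.exists_ltSeries_length_eq_height M
    let l' : LTSeries (PrimeSpectrum (A i₀)) := l.map (PrimeSpectrum.comap _)
      (RingHom.strictMono_comap_of_surjective hπ)
    have h1 : (l'.length : ℕ∞) ≤ Order.height m₀ := by
      apply Order.length_le_height
      have : RelSeries.last l' = m₀ := by
        ext1
        rw [LTSeries.last_map, hl]
        exact hMc
      exact this.le
    rw [← PrimeSpectrum.height_eq_orderHeight] at h1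
    have h2 : (e : ℕ∞) ≤ n := by
      calc (e : ℕ∞) = l.length := by rw [hlen, hht]
        _ ≤ m₀.asIdeal.height := h1
        _ ≤ n := hn
    rw [he]
    exact_mod_cast h2
  -- a chain of closed irreducible subsets of `Y`
  refine iSup_le fun p => ?_
  -- generic points
  have hZ : ∀ j, ∃ z : X, IsGenericPoint z (Subtype.val '' (p j : Set Y)) := by
    intro j
    have h1 : IsIrreducible (Subtype.val '' (p j : Set Y)) :=
      (p j).isIrreducible.image _ continuous_subtype_val.continuousOn
    have h2 : IsClosed (Subtype.val '' (p j : Set Y)) :=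
      hYc.isClosedMap_subtype_val _ (p j).isClosed
    exact QuasiSober.sober h1 h2
  choose z hz using hZ
  have hzspec : ∀ j (x : X), z j ⤳ x ↔ x ∈ Subtype.val '' (p j : Set Y) := fun j x => by
    rw [specializes_iff_mem_closure, (hz j).def]
  have hzmem : ∀ j, z j ∈ Subtype.val '' (p j : Set Y) := fun j => (hzspec j _).mp (specializes_rfl)
  -- a point of the smallest member
  obtain ⟨i, hi⟩ := hcov (z 0)
  have hzi : ∀ j, z j ∈ Set.range (u i) := by
    intro j
    have h1 : z j ⤳ z 0 := by
      rw [hzspec]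
      exact Set.image_mono (p.monotone (Fin.zero_le j)) (hzmem 0)
    exact h1.mem_open (hu i).isOpen_range hi
  have hηz : ∀ j, η ⤳ z j := fun j => by
    obtain ⟨y, -, hy⟩ := hzmem j
    rw [← hy]
    exact hηspec _ y.2
  obtain ⟨Q, hQ⟩ : η ∈ Set.range (u i) := (hηz 0).mem_open (hu i).isOpen_range hi
  have h3 : (p.length : WithBot ℕ∞) ≤ ringKrullDim (A i ⧸ Q.asIdeal) := by
    refine chain_le (hu i) Q (fun j => z (Fin.rev j)) (fun j => hzi _) ?_ ?_
    · intro j
      rw [hQ]
      exact hηz _
    · intro a b hab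
      have h4 : p (Fin.rev b) < p (Fin.rev a) := p.strictMono (Fin.rev_lt_rev.mpr hab)
      refine ⟨?_, ?_⟩
      · rw [hzspec]
        exact Set.image_mono h4.le (hzmem _)
      · intro h5
        rw [hzspec] at h5
        apply h4.not_ge
        intro y hy
        have h6 : z (Fin.rev b) ⤳ (y : X) := by
          have h7 : z (Fin.rev b) ⤳ z (Fin.rev a) := by
            rw [hzspec]; exact h5
          exact h7.trans ((hzspec _ _).mpr ⟨y, hy, rfl⟩)
        rw [hzspec] at h6
        obtain ⟨y', hy', hyy⟩ := h6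
        rwa [← Subtype.ext hyy]
  exact h3.trans ((chart_dim_le k (hu i) (hu i₀) Q P₀ (by rw [hQ, hP₀])).trans hdim₀)

end Pool.Agent.Helper91
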