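import Mathlib
import Pool.Agent.Helper91.HilbChart
import Pool.Agent.Helper91.Topo
import Pool.Agent.Helper91.Tangent
import Pool.Agent.Helper91.Semigroup
import Pool.Agent.Helper91.CurveRing

/-!
The Hilbert scheme of `d` points of a monomial curve can have a component of small dimension.
-/

open CategoryTheory Limits AlgebraicGeometry Opposite TensorProduct

universe u

namespace Pool.Agent.Helper91

/-- The affine monomial curve used in the construction. -/
noncomputable abbrev curveRing (k : Type u) [Field k] (N : ℕ) : Type u := sgAlg k (sgFam (N + 3))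

theorem topologicalKrullDim_Spec (A : Type u) [CommRing A] :
    topologicalKrullDim (Spec (CommRingCat.of A)) = ringKrullDim A :=
  PrimeSpectrum.topologicalKrullDim_eq_ringKrullDim A

theorem exists_small_component (k : Type u) [Field k] (N : ℕ) :
    ∃ d : ℕ, 1 ≤ d ∧ ∀ (H : Scheme.{u}) (h : H ⟶ Spec (CommRingCat.of k)),
      IsHilbertScheme d (str k (curveRing k N)) h →
      ∃ Y ∈ irreducibleComponents H, topologicalKrullDim Y + N ≤ d := by
  obtain ⟨d, e, he, heB, hfin, hcard, hd⟩ := exists_data N
  refine ⟨d, hd, fun H h hH => ?_⟩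
  have hF : ∀ n, frob (N + 3) < n → n ∈ sgFam (N + 3) := fun n hn => mem_sgFam_of_lt hn
  have hft : Algebra.FiniteType k (curveRing k N) := sgAlg.finiteType k _ _ hF
  obtain ⟨π, hπ⟩ := exists_point (k := k) e he heB
  obtain ⟨hmax, hht⟩ := height_le_ncard_tangentSet (k := k) e he heB
    (hF _ (by unfold topExp; omega)) (fun n hn => hF _ (by unfold topExp at hn; omega))
    (fun n hn => by
      by_contra hc
      refine hn ?_
      have h1 : n ≤ frob (N + 3) := by
        by_contra h2
        exact hc (hF _ (by omega))
      exact ⟨⟨topExp (N + 3) - n, hF _ (by unfold topExp; omega)⟩, by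
        simp only [topExp]
        omega⟩)
    hfin π hπ
  obtain ⟨u, hu1, hu2, hu3⟩ := hH.exists_charts
  have hft' : ∀ φ : Fin d → curveRing k N, Algebra.FiniteType k (ChartRing k φ) := fun φ =>
    ChartRing.finiteType
  let m₀ : PrimeSpectrum (ChartRing k (basisTuple k e)) := ⟨_, hmax.isPrime⟩
  let z : H := u (basisTuple k e) m₀
  refine ⟨irreducibleComponent z, irreducibleComponent_mem_irreducibleComponents z, ?_⟩
  have key := dim_irreducible_le k (X := H) (fun φ : Fin d → curveRing k N => ChartRing k φ)
    (fun φ => u φ) (fun φ => (hu1 φ).base_open) (fun x => by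
      obtain ⟨φ, y, hy⟩ := hu3 x
      exact ⟨φ, y, hy⟩) (basisTuple k e) m₀ hmax _ hht (irreducibleComponent z)
      isClosed_irreducibleComponent isIrreducible_irreducibleComponent mem_irreducibleComponent
  calc topologicalKrullDim (irreducibleComponent z) + N
      ≤ ((tangentSet (sgFam (N + 3)) (topExp (N + 3))).ncard : WithBot ℕ∞) + N := by
        gcongr
    _ ≤ d := by exact_mod_cast hcard

end Pool.Agent.Helper91
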